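import Mathlib
import Pool.Agent.FB.U5.Defs

/-!
# FB/W8: closed 4-braids with all exponents `≥ 5`, explicit form, statements of the modules

Theorem: `|a_i|, |b_i|, |c_i| ≥ 5`, `|a_i - c_i| ≥ 2` for all `i`, the closure of
`σ₂^b₁ σ₁^a₁ σ₃^c₁ ⋯ σ₂^b_m σ₁^a_m σ₃^c_m` is a knot; then `f ≠ 1`.

`q = 1 / w` is real and large, `w > 0` small, `Q = 2 - q - 1 / q = -(1 - w)² / w`, `u = 1 / Q`.  All functions
are functions of `w` near `0+`.  A block is `t = (a, c, b)`.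

PROOF.  If `f = 1`, then `EE² = (1 - w)² w^(e-1)`, `e` the sum of all exponents (`Key`), and the same for the
mirror image (`e ↦ -e`).
PART I: `e ≥ 0` and some block has `a, c < 0`: then `F3 - tr2 = O(w⁻²)`, `F3 = (1 - Q) tr3` has degree `≥ 6` in
`q`, so `F3` and `tr2` have the same head (leading term and three coefficients).  For the functional `Lf`
(additive; it vanishes at `1 - w + w²`, it is `18` at `u`, `1 - u`, `2 u`, and `24` at `1 - 2 u`) we have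
`Lf (tr2) ≤ 18 m` for every 3-braid word, and `Lf (F3) ≥ 18 m + 6` if the leading coefficient of `F3` is `±1`; and
the leading coefficient of `tr2` is `±1` (or `tr2² = 4 q^e`, impossible by the degree of `F3`).
PART II: `e ≤ 0` and no block with `a, c > 0`: then `F3` has larger degree than `tr2`, so `EE` has the head of
`F3`: its first coefficient is `≥ m - 1`, but the first coefficient of `EE` is `-1`.
All other words are mirror images.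
-/

set_option autoImplicit false

open Filter Asymptotics Topology Matrix LaurentPolynomial Pool.RU

namespace Pool.Agent.FB.W8

/-! ### the two traces -/

/-- `1 / Q` at `q = 1 / w` -/
noncomputable def u (w : ℝ) : ℝ := -w / (1 - w) ^ 2

/-- `Q` at `q = 1 / w` -/
noncomputable def Qw (w : ℝ) : ℝ := -(1 - w) ^ 2 / w

/-- the block `t = (a, c, b)`, different colours at the two hubs -/
noncomputable def B3 (w : ℝ) (t : ℤ × ℤ × ℤ) : Matrix (Fin 3) (Fin 3) ℝ :=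
  (1 + (w ^ (-t.2.2) - 1) • !![u w, u w, 1 - 2 * u w; u w, u w, 1 - 2 * u w; u w, u w, 1 - 2 * u w]) *
    Matrix.diagonal ![w ^ (-t.1), w ^ (-t.2.1), 1]

/-- the 3-braid `σ₂^b σ₁^h`, for the pair `(h, b)` -/
noncomputable def B2 (w : ℝ) (p : ℤ × ℤ) : Matrix (Fin 2) (Fin 2) ℝ :=
  (1 + (w ^ (-p.2) - 1) • !![u w, 1 - u w; u w, 1 - u w]) * Matrix.diagonal ![w ^ (-p.1), 1]

/-- the trace of the 3-braid word of a list of pairs `(h, b)` -/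
noncomputable def trB (L : List (ℤ × ℤ)) (w : ℝ) : ℝ := (L.map (B2 w)).prod.trace

/-- the first trace -/
noncomputable def tr3 (β : List (ℤ × ℤ × ℤ)) (w : ℝ) : ℝ := (β.map (B3 w)).prod.trace

/-- `(1 - Q) tr3` -/
noncomputable def F3 (β : List (ℤ × ℤ × ℤ)) (w : ℝ) : ℝ := (1 - w + w ^ 2) / w * tr3 β w

/-- the pairs `(a + c, b)` -/
def pr (β : List (ℤ × ℤ × ℤ)) : List (ℤ × ℤ) := β.map fun t => (t.1 + t.2.1, t.2.2)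

/-- the second trace -/
noncomputable def tr2 (β : List (ℤ × ℤ × ℤ)) (w : ℝ) : ℝ := trB (pr β) w

/-- the sum of all exponents -/
def tot (β : List (ℤ × ℤ × ℤ)) : ℤ := (β.map fun t => t.1 + t.2.1 + t.2.2).sum

/-- what `f = 1` says: `EE² = -Q q^(-e)` -/
def Key (β : List (ℤ × ℤ × ℤ)) : Prop := ∀ w : ℝ, 0 < w → w < 1 →
  (Qw w ^ 2 - 3 * Qw w + 1 - F3 β w + tr2 β w) ^ 2 = (1 - w) ^ 2 * w ^ (tot β - 1)

/-- the mirror image -/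
def mir (β : List (ℤ × ℤ × ℤ)) : List (ℤ × ℤ × ℤ) := β.map fun t => (-t.1, -t.2.1, -t.2.2)

/-- **Module WR**: the closure of a braid has only parallel strands, so if it is a knot, the writhe is the sum
of all exponents -/
def St_Wr : Prop := ∀ (β : List (ℤ × ℤ × ℤ)) (o : Tip 3 (0 + (word β).length) → Bool),
  (closure β).IsOrientation o → (closure β).IsKnot → (closure β).writhe o = tot β

/-- **Module KEY** -/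
def St_Key : Prop := ∀ (β : List (ℤ × ℤ × ℤ)) (o : Tip 3 (0 + (word β).length) → Bool),
  (closure β).IsOrientation o → (closure β).IsKnot → (closure β).normalized o = 1 →
    Key β ∧ Key (mir β)

/-- **Module LNK**: `f = 1` only for one component (`f = ±2^(c-1)` at `A = 1`) -/
def St_Lk : Prop := ∀ (β : List (ℤ × ℤ × ℤ)) (o : Tip 3 (0 + (word β).length) → Bool),
  (closure β).IsOrientation o → (closure β).normalized o = 1 → (closure β).IsKnot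

/-! ### heads -/

/-- `f = s w^(-D) (1 + c₁ w + c₂ w² + c₃ w³ + O(w⁴))` -/
def Hd (f : ℝ → ℝ) (s : ℝ) (D : ℤ) (c₁ c₂ c₃ : ℝ) : Prop :=
  (fun w : ℝ => w ^ D * f w - s * (1 + c₁ * w + c₂ * w ^ 2 + c₃ * w ^ 3)) =O[𝓝[>] (0 : ℝ)] fun w => w ^ 4

/-- the functional `5 l₁ + 6 l₂ + 3 l₃`, where `log (1 + c₁ w + c₂ w² + c₃ w³) = l₁ w + l₂ w² + l₃ w³ + ⋯` -/
def Lf (c₁ c₂ c₃ : ℝ) : ℝ := 5 * c₁ + 6 * c₂ - 3 * c₁ ^ 2 + 3 * c₃ - 3 * c₁ * c₂ + c₁ ^ 3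

/-- **Module T2** (every 3-braid word) -/
def St_T2 : Prop := ∀ L : List (ℤ × ℤ), (∀ᶠ w in 𝓝[>] (0 : ℝ), trB L w = 0) ∨
  ∃ (s : ℝ) (D : ℤ) (c₁ c₂ c₃ : ℝ), s ≠ 0 ∧ Hd (trB L) s D c₁ c₂ c₃ ∧ Lf c₁ c₂ c₃ ≤ 18 * L.length ∧
    (|s| = 1 ∨ ∀ᶠ w in 𝓝[>] (0 : ℝ), trB L w ^ 2 = 4 * w ^ (-(L.map fun p => p.1 + p.2).sum))

/-! ### the first trace, part I -/

/-- the hypothesis on a block -/
def Hyp (t : ℤ × ℤ × ℤ) : Prop := 5 ≤ |t.1| ∧ 5 ≤ |t.2.1| ∧ 5 ≤ |t.2.2| ∧ 2 ≤ |t.1 - t.2.1|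

/-- the dominating coordinate after the block: `2` if `a, c < 0`, otherwise the larger exponent -/
def ty (t : ℤ × ℤ × ℤ) : Fin 3 := if t.1 < 0 ∧ t.2.1 < 0 then 2 else if t.2.1 < t.1 then 0 else 1

/-- the other one of the coordinates `0`, `1` -/
def sw (X : Fin 3) : Fin 3 := if X = 0 then 1 else if X = 1 then 0 else 2

/-- the degree (in `q`) won at the block `t` if the state before it is `X` -/
def dl (X : Fin 3) (t : ℤ × ℤ × ℤ) : ℤ :=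
  if 0 < t.2.2 then (if ty t = 2 then t.2.2 else t.2.2 + max t.1 t.2.1 - 1)
  else if ty t = 2 then (if X = 2 then -1 else 0)
  else if X = ty t then max t.1 t.2.1 else max t.1 t.2.1 - 1

/-- the degree won at the list -/
def dg : Fin 3 → List (ℤ × ℤ × ℤ) → ℤ
  | _, [] => 0
  | X, t :: β => dl X t + dg (ty t) β

/-- the row vector after the block -/
noncomputable def stp (t : ℤ × ℤ × ℤ) (V : ℝ → Fin 3 → ℝ) : ℝ → Fin 3 → ℝ :=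
  fun w => Matrix.vecMul (V w) (B3 w t)

/-- weak information: `V_X ~ s w^(-D)`, the other coordinate of `{0, 1}` is `~ κ w V_X`, the coordinate `2` is
smaller by `w⁴`; in the state `X = 2` the other two coordinates are smaller by `w⁵` -/
def WInv (X : Fin 3) (D : ℤ) (s κ : ℝ) (V : ℝ → Fin 3 → ℝ) : Prop :=
  Tendsto (fun w : ℝ => w ^ D * V w X) (𝓝[>] 0) (𝓝 s) ∧ 0 ≤ κ ∧
  (X = 2 → ((fun w : ℝ => w ^ D * V w 0) =O[𝓝[>] (0 : ℝ)] fun w => w ^ 5) ∧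
    ((fun w : ℝ => w ^ D * V w 1) =O[𝓝[>] (0 : ℝ)] fun w => w ^ 5)) ∧
  (X ≠ 2 → Tendsto (fun w : ℝ => w ^ (D - 1) * V w (sw X)) (𝓝[>] 0) (𝓝 (κ * s)) ∧
    ((fun w : ℝ => w ^ D * V w 2) =O[𝓝[>] (0 : ℝ)] fun w => w ^ 4))

/-- **Module WST** (weak step).  The leading coefficient is multiplied by `±1`, except: `±2` at a block of type
`2` with `b < 0` in the state `2`; `±(1 + κ)` at a change between the coordinates `0`, `1` with `b < 0`. -/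
def St_W : Prop := ∀ (X : Fin 3) (D : ℤ) (s κ : ℝ) (V : ℝ → Fin 3 → ℝ) (t : ℤ × ℤ × ℤ), Hyp t → s ≠ 0 →
  WInv X D s κ V → ∃ s' κ' : ℝ, WInv (ty t) (D + dl X t) s' κ' (stp t V) ∧
    |s'| = |s| * (if t.2.2 < 0 ∧ ty t = 2 ∧ X = 2 then 2
      else if t.2.2 < 0 ∧ ty t ≠ 2 ∧ X ≠ 2 ∧ ty t ≠ X then 1 + κ else 1)

/-- strong information: four coefficients of `V_X`, and the ratio `V_(sw X) / V_X = r₁ w + r₂ w² + r₃ w³ + r₄ w⁴`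
modulo `w⁵` -/
def SInv (X : Fin 3) (D : ℤ) (s c₁ c₂ c₃ : ℝ) (r : ℤ × ℤ × ℤ × ℤ) (V : ℝ → Fin 3 → ℝ) : Prop :=
  Hd (fun w => V w X) s D c₁ c₂ c₃ ∧
  (X = 2 → r = (0, 0, 0, 0) ∧ ((fun w : ℝ => w ^ D * V w 0) =O[𝓝[>] (0 : ℝ)] fun w => w ^ 5) ∧
    ((fun w : ℝ => w ^ D * V w 1) =O[𝓝[>] (0 : ℝ)] fun w => w ^ 5)) ∧
  (X ≠ 2 → ((fun w : ℝ => w ^ D * (V w (sw X) -
      (r.1 * w + r.2.1 * w ^ 2 + r.2.2.1 * w ^ 3 + r.2.2.2 * w ^ 4) * V w X)) =O[𝓝[>] (0 : ℝ)] fun w => w ^ 5) ∧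
    ((fun w : ℝ => w ^ D * V w 2) =O[𝓝[>] (0 : ℝ)] fun w => w ^ 4))

/-- the ratio `w^e`, modulo `w⁵` -/
def nf (e : ℤ) : ℤ × ℤ × ℤ × ℤ :=
  if e = 2 then (0, 1, 0, 0) else if e = 3 then (0, 0, 1, 0) else if e = 4 then (0, 0, 0, 1) else (0, 0, 0, 0)

/-- the ratio `w^e (g + r) / (1 + g r)`, `g = w / (1 - w + w²)`, modulo `w⁵`, for `e ≥ 2` -/
def ng (e : ℤ) (r : ℤ × ℤ × ℤ × ℤ) : ℤ × ℤ × ℤ × ℤ :=
  if e = 2 then (0, 0, 1 + r.1, 1 + r.2.1) else if e = 3 then (0, 0, 0, 1 + r.1) else (0, 0, 0, 0)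

/-- the ratio `w^e (1 + g r) / (g + r)`, modulo `w⁵`, for `e ≥ 2`, `r₁ = 0` -/
def nh (e : ℤ) (r : ℤ × ℤ × ℤ × ℤ) : ℤ × ℤ × ℤ × ℤ :=
  if e = 2 then (1, -(1 + r.2.1), (1 + r.2.1) ^ 2 - r.2.2.1,
    -(1 + r.2.1) ^ 3 + 2 * (1 + r.2.1) * r.2.2.1 - r.2.2.2 + 1 + r.2.1)
  else if e = 3 then (0, 1, -(1 + r.2.1), (1 + r.2.1) ^ 2 - r.2.2.1)
  else if e = 4 then (0, 0, 1, -(1 + r.2.1)) else if e = 5 then (0, 0, 0, 1) else (0, 0, 0, 0)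

/-- the value of the functional at `1 + r` -/
def cf (r : ℤ × ℤ × ℤ × ℤ) : ℤ :=
  5 * r.1 + 6 * r.2.1 - 3 * r.1 ^ 2 + 3 * r.2.2.1 - 3 * r.1 * r.2.1 + r.1 ^ 3

/-- the value of the functional at `1 + g r` -/
def cg (r : ℤ × ℤ × ℤ × ℤ) : ℤ := 9 * r.1 + 3 * r.2.1

/-- the value of the functional at `1 + r / g`, for `r₁ = 0` -/
def ch (r : ℤ × ℤ × ℤ × ℤ) : ℤ :=
  r.2.1 ^ 3 + 2 * r.2.1 + 3 * r.2.2.1 + 3 * r.2.2.2 - 3 * r.2.1 * r.2.2.1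

/-- the new ratio -/
def nxt (X : Fin 3) (t : ℤ × ℤ × ℤ) (r : ℤ × ℤ × ℤ × ℤ) : ℤ × ℤ × ℤ × ℤ :=
  if ty t = 2 then (0, 0, 0, 0) else if 0 < t.2.2 ∨ X = 2 then nf |t.1 - t.2.1|
  else if X = ty t then ng |t.1 - t.2.1| r else nh |t.1 - t.2.1| r

/-- what the functional wins -/
def cst (X : Fin 3) (t : ℤ × ℤ × ℤ) (r : ℤ × ℤ × ℤ × ℤ) : ℤ :=
  (if ty t = 2 then 24 else 18) +
    (if 0 < t.2.2 ∨ ty t = 2 ∨ X = 2 then cf r else if X = ty t then cg r else ch r)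

/-- **Module SST** (strong step).  Excluded: a block of type `2` with `b < 0` in the state `2`, and a change
between the coordinates `0`, `1` with `b < 0` and `r₁ ≠ 0`. -/
def St_S : Prop := ∀ (X : Fin 3) (D : ℤ) (s c₁ c₂ c₃ : ℝ) (r : ℤ × ℤ × ℤ × ℤ) (V : ℝ → Fin 3 → ℝ)
    (t : ℤ × ℤ × ℤ), Hyp t → s ≠ 0 → SInv X D s c₁ c₂ c₃ r V → ¬ (t.2.2 < 0 ∧ ty t = 2 ∧ X = 2) →
  (t.2.2 < 0 → ty t ≠ 2 → X ≠ 2 → ty t ≠ X → r.1 = 0) →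
  ∃ s' c₁' c₂' c₃' : ℝ, |s'| = |s| ∧ SInv (ty t) (D + dl X t) s' c₁' c₂' c₃' (nxt X t r) (stp t V) ∧
    Lf c₁' c₂' c₃' = Lf c₁ c₂ c₃ + cst X t r

/-- the potential -/
def pot (r : ℤ × ℤ × ℤ × ℤ) : ℤ :=
  if (r.1 = 0 ∧ r.2.1 = 0 ∧ r.2.2.1 = 1 ∧ r.2.2.2 = -2) ∨ (r.1 = 0 ∧ r.2.1 = 1 ∧ r.2.2.1 = -1 ∧ r.2.2.2 = -1) ∨
    (r.1 = 1 ∧ r.2.1 = -1 ∧ r.2.2.1 = -1) then 3 else 0

/-- **Module SSTE**: the case `b > 0` -/
def St_SE : Prop := ∀ (X : Fin 3) (D : ℤ) (s c₁ c₂ c₃ : ℝ) (r : ℤ × ℤ × ℤ × ℤ) (V : ℝ → Fin 3 → ℝ)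
    (t : ℤ × ℤ × ℤ), Hyp t → 0 < t.2.2 → s ≠ 0 → SInv X D s c₁ c₂ c₃ r V →
  ∃ s' c₁' c₂' c₃' : ℝ, |s'| = |s| ∧ SInv (ty t) (D + dl X t) s' c₁' c₂' c₃' (nxt X t r) (stp t V) ∧
    Lf c₁' c₂' c₃' = Lf c₁ c₂ c₃ + cst X t r

/-- **Module SSTF**: the case `b < 0` -/
def St_SF : Prop := ∀ (X : Fin 3) (D : ℤ) (s c₁ c₂ c₃ : ℝ) (r : ℤ × ℤ × ℤ × ℤ) (V : ℝ → Fin 3 → ℝ)
    (t : ℤ × ℤ × ℤ), Hyp t → t.2.2 < 0 → s ≠ 0 → SInv X D s c₁ c₂ c₃ r V → ¬ (ty t = 2 ∧ X = 2) →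
  (ty t ≠ 2 → X ≠ 2 → ty t ≠ X → r.1 = 0) →
  ∃ s' c₁' c₂' c₃' : ℝ, |s'| = |s| ∧ SInv (ty t) (D + dl X t) s' c₁' c₂' c₃' (nxt X t r) (stp t V) ∧
    Lf c₁' c₂' c₃' = Lf c₁ c₂ c₃ + cst X t r

/-- **Module AUT** (finite automaton): there is a finite set of ratios, closed under all steps with `r₁ = 0`
before a change, on which the potential increases by at most the cost; `r₁ = 0` or `1` on it. -/
def St_A : Prop := ∃ S : Finset (ℤ × ℤ × ℤ × ℤ), (0, 0, 0, 0) ∈ S ∧ (∀ e, 2 ≤ e → nf e ∈ S ∧ pot (nf e) = 0) ∧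
  pot (0, 0, 0, 0) = 0 ∧ ∀ r ∈ S, 0 ≤ r.1 ∧ 0 ≤ pot r + cf r ∧ 0 ≤ pot r ∧ ∀ e, 2 ≤ e →
    (ng e r ∈ S ∧ pot (ng e r) ≤ pot r + cg r) ∧ (r.1 = 0 → nh e r ∈ S ∧ pot (nh e r) ≤ pot r + ch r)

/-- the degree of a block in the cheapest form -/
def gr (t : ℤ × ℤ × ℤ) : ℤ := max t.2.2 0 + max (max t.1 t.2.1) 0

/-- **Module H3**: leading term; if it is `±1`, then also the head -/
def St_H3 : Prop := ∀ (β : List (ℤ × ℤ × ℤ)) (t : ℤ × ℤ × ℤ), (∀ x ∈ β ++ [t], Hyp x) → t.1 < 0 → t.2.1 < 0 →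
  ∃ (s : ℝ) (D : ℤ), Tendsto (fun w : ℝ => w ^ D * F3 (β ++ [t]) w) (𝓝[>] 0) (𝓝 s) ∧ 1 ≤ |s| ∧
    (|s| = 1 → ∃ c₁ c₂ c₃ : ℝ, Hd (F3 (β ++ [t])) s D c₁ c₂ c₃ ∧
      18 * ((β ++ [t]).length : ℝ) + 6 ≤ Lf c₁ c₂ c₃) ∧
    1 + ((β ++ [t]).map gr).sum - (β ++ [t]).length ≤ D

/-- **Part I** -/
def St_P1 : Prop := ∀ β : List (ℤ × ℤ × ℤ), (∀ x ∈ β, Hyp x) → (∃ t ∈ β, t.1 < 0 ∧ t.2.1 < 0) → 0 ≤ tot β →
  ¬ Key β

/-! ### part II -/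

/-- two coefficients: `V_X = s w^(-D) (1 + c₁ w + O(w²))`, the other coordinates are smaller by `w⁴` -/
def PInv (X : Fin 3) (D : ℤ) (s c₁ : ℝ) (V : ℝ → Fin 3 → ℝ) : Prop :=
  ((fun w : ℝ => w ^ D * V w X - s * (1 + c₁ * w)) =O[𝓝[>] (0 : ℝ)] fun w => w ^ 2) ∧
  ∀ k, k ≠ X → ((fun w : ℝ => w ^ D * V w k) =O[𝓝[>] (0 : ℝ)] fun w => w ^ 4)

/-- **Module PST** (the step of part II) -/
def St_PS : Prop := ∀ (X : Fin 3) (D : ℤ) (s c₁ : ℝ) (V : ℝ → Fin 3 → ℝ) (t : ℤ × ℤ × ℤ), Hyp t →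
  ¬ (0 < t.1 ∧ 0 < t.2.1) → PInv X D s c₁ V → ∃ s' c₁' : ℝ, PInv (ty t) (D + dl X t) s' c₁' (stp t V) ∧
    |s| ≤ |s'| ∧ c₁ + 1 ≤ c₁' ∧ (X = 2 → ty t = 2 → c₁' = c₁ + 2)

/-- **Module H3P**: the first trace in part II -/
def St_H3P : Prop := ∀ β : List (ℤ × ℤ × ℤ), β ≠ [] → (∀ x ∈ β, Hyp x) → (∀ x ∈ β, ¬ (0 < x.1 ∧ 0 < x.2.1)) →
  ∃ (X : Fin 3) (s c₁ : ℝ), (∀ h : β ≠ [], X = ty (β.getLast h)) ∧
    ((fun w : ℝ => w ^ (dg X β) * tr3 β w - s * (1 + c₁ * w)) =O[𝓝[>] (0 : ℝ)] fun w => w ^ 2) ∧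
    1 ≤ |s| ∧ (β.length : ℝ) ≤ c₁ ∧ ((∀ x ∈ β, ty x = 2) → c₁ = 2 * β.length)

/-- **Module T2P**: the second trace in part II: it is smaller than the first one by `w³` (`tr3` has degree
`dg X β`), or all blocks have `a, c < 0`, then its leading coefficient is at most `1`. -/
def St_T2P : Prop := ∀ (β : List (ℤ × ℤ × ℤ)) (h : β ≠ []), (∀ x ∈ β, Hyp x) →
  (∀ x ∈ β, ¬ (0 < x.1 ∧ 0 < x.2.1)) →
  ((∃ x ∈ β, ty x ≠ 2) → (fun w : ℝ => w ^ (dg (ty (β.getLast h)) β) * tr2 β w) =O[𝓝[>] (0 : ℝ)] fun w => w) ∧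
  ((∀ x ∈ β, ty x = 2) → ∃ s : ℝ, |s| ≤ 1 ∧
    (fun w : ℝ => w ^ (dg (ty (β.getLast h)) β) * tr2 β w - s) =O[𝓝[>] (0 : ℝ)] fun w => w)

/-- **Part II** -/
def St_P2 : Prop := ∀ β : List (ℤ × ℤ × ℤ), β ≠ [] → (∀ x ∈ β, Hyp x) →
  (∀ x ∈ β, ¬ (0 < x.1 ∧ 0 < x.2.1)) → tot β ≤ 0 → ¬ Key β

/-- **the theorem** -/
def St_W8 : Prop := ∀ β : List (ℤ × ℤ × ℤ), β ≠ [] → (∀ x ∈ β, Hyp x) →
  ∀ o : Tip 3 (0 + (word β).length) → Bool, (closure β).IsOrientation o → (closure β).IsKnot →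
    (closure β).normalized o ≠ 1

/-- **the theorem**, for all closed braids -/
def St_W8L : Prop := ∀ β : List (ℤ × ℤ × ℤ), β ≠ [] → (∀ x ∈ β, Hyp x) →
  ∀ o : Tip 3 (0 + (word β).length) → Bool, (closure β).IsOrientation o → (closure β).normalized o ≠ 1

end Pool.Agent.FB.W8
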