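import Mathlib
import Pool.Agent.FB.W8.St
import Pool.Agent.RU.States

/-!
# FB/W8, module LNK: the normalized bracket of a link with several components is not one

At `A = 1` the sum over the states is `(-1)^n (-2)^c`, `c` the number of the components (`Pool.RU.states`).
-/

set_option autoImplicit false

open LaurentPolynomial Pool.RU

namespace Pool.Agent.FB.W8

/-- evaluation at `A = 1` -/
private noncomputable def LNK_ev : ℤ[T;T⁻¹] →+* ℤ := LaurentPolynomial.eval₂ (RingHom.id ℤ) 1

private theorem LNK_T (k : ℤ) : LNK_ev (T k) = 1 := by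
  unfold LNK_ev
  rw [LaurentPolynomial.eval₂_T, _root_.one_zpow, Units.val_one]

private theorem LNK_C (k : ℤ) : LNK_ev (C k) = k := by
  unfold LNK_ev
  rw [LaurentPolynomial.eval₂_C]
  rfl

/-- the bracket at `A = 1` -/
theorem LNK_bracket {k n : ℕ} (D : Diagram k n) :
    -2 * LNK_ev D.bracket = (-1) ^ n * (-2) ^ D.curves (fun _ => .keep) := by
  rw [← states D]
  unfold Diagram.bracket
  rw [map_sum, Finset.mul_sum]
  refine Finset.sum_congr rfl fun s _ => ?_
  have h1 : LNK_ev (∏ x, T (if s x then (D.kind x : ℤ) else -(D.kind x : ℤ))) = 1 := by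
    rw [map_prod]
    exact Finset.prod_eq_one fun x _ => LNK_T _
  have h2 : LNK_ev (-T 2 - T (-2)) = -2 := by
    rw [map_sub, map_neg, LNK_T, LNK_T]
    norm_num
  rw [map_mul, map_pow, h1, h2, one_mul, ← pow_succ',
    Nat.sub_add_cancel (curves_pos D (fun x => if s x then .along else .turn))]
  rfl

/-- every diagram: if the normalized bracket is one, there is one component -/
theorem LNK_isKnot {k n : ℕ} (D : Diagram k n) (o : Tip k n → Bool) (h : D.normalized o = 1) :
    D.IsKnot := by
  have h1 : LNK_ev D.bracket = 1 ∨ LNK_ev D.bracket = -1 := by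
    have h2 := congrArg LNK_ev h
    unfold Diagram.normalized at h2
    rw [map_mul, map_mul, LNK_T, LNK_C, map_one, mul_one] at h2
    rcases Int.units_eq_one_or ((-1 : ℤˣ) ^ D.writhe o) with h3 | h3
    · rw [h3] at h2
      left
      simpa using h2
    · rw [h3] at h2
      right
      have h4 : -LNK_ev D.bracket = 1 := by simpa using h2
      omega
  have h5 := congrArg Int.natAbs (LNK_bracket D)
  rw [Int.natAbs_mul, Int.natAbs_mul, Int.natAbs_pow, Int.natAbs_pow] at h5
  have h6 : (LNK_ev D.bracket).natAbs = 1 := by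
    rcases h1 with h1 | h1 <;> rw [h1] <;> rfl
  rw [h6] at h5
  have h7 : 2 ^ D.curves (fun _ => .keep) = 2 ^ 1 := by simpa using h5.symm
  exact Nat.pow_right_injective le_rfl h7

/-- **Module LNK** -/
theorem thm_Lk : St_Lk := fun β o _ h => LNK_isKnot (closure β) o h

end Pool.Agent.FB.W8
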