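import Pool.Agent.FB.W8.St

/-!
# FB/W8/WR: the writhe of a closed braid which is a knot
-/

set_option autoImplicit false

open Pool.RU

namespace Pool.Agent.FB.W8

/-- every arc joins an upper end with a lower end -/
private def WR_par {k n : ℕ} (D : Diagram k n) : Prop := ∀ p, (D.arc p).2 = !p.2

private theorem WR_shift {k n : ℕ} (a : Fin k) (p : Tip k n) : (shift a p).2 = p.2 := by
  rcases p with ⟨g | ⟨x, i⟩, b⟩
  · cases b
    · by_cases h1 : g = a.castSucc
      · simp [shift, h1]
      · by_cases h2 : g = a.succ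
        · simp [shift, h2, push_ne a]
        · simp [shift, h1, h2]
    · rfl
  · rfl

private theorem WR_push {k n : ℕ} (D : Diagram k n) (h : WR_par D) (a : Fin k) (ε : ℤˣ) :
    WR_par (D.push a ε) := by
  intro p
  show (pushArc a D.arc p).2 = !p.2
  rcases tip_cases a p with ⟨q, rfl⟩ | ⟨i, rfl⟩ | ⟨i, rfl⟩
  · rw [pushArc_shift, WR_shift, WR_shift]
    exact h q
  · rw [pushArc_new]
    rfl
  · rw [pushArc_gate]
    rfl

private theorem WR_insert {k n : ℕ} (D : Diagram k n) (h : WR_par D) :
    ∀ w : List (Fin k × ℤˣ), WR_par (D.insert w)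
  | [] => h
  | l :: w => WR_push _ (WR_insert D h w) l.1 l.2

private theorem WR_triv : WR_par trivialClosure := by
  rintro ⟨g | ⟨x, i⟩, b⟩
  · rfl
  · rfl

private theorem WR_keep {k n : ℕ} (p : Tip k n) :
    (join (fun _ => Way.keep) p).2 = !p.2 := by
  rcases p with ⟨g | ⟨x, i⟩, b⟩
  · rfl
  · rfl

/-- the direction is constant -/
private theorem WR_const {k n : ℕ} (D : Diagram k n) (h : WR_par D) (o : Tip k n → Bool)
    (ho : D.IsOrientation o) (hk : D.IsKnot) (p q : Tip k n) : xor (o p) p.2 = xor (o q) q.2 := by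
  have h1 : Nat.card (Quot fun p q : Tip k n => q = join (fun _ => Way.keep) p ∨ q = D.arc p) = 1 :=
    hk
  obtain ⟨h2, -⟩ := Nat.card_eq_one_iff_unique.1 h1
  let c : Quot (fun p q : Tip k n => q = join (fun _ => Way.keep) p ∨ q = D.arc p) → Bool :=
    Quot.lift (fun p => xor (o p) p.2) (by
      rintro a b (rfl | rfl)
      · rw [ho.2, WR_keep]
        cases o a <;> cases a.2 <;> rfl
      · rw [ho.1, h a]
        cases o a <;> cases a.2 <;> rfl)
  have h3 := congrArg c (h2.elim (Quot.mk _ p) (Quot.mk _ q))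
  exact h3

private theorem WR_writhe {k n : ℕ} (D : Diagram k n) (h : WR_par D) (o : Tip k n → Bool)
    (ho : D.IsOrientation o) (hk : D.IsKnot) : D.writhe o = ∑ x, (D.kind x : ℤ) := by
  unfold Diagram.writhe
  refine Finset.sum_congr rfl fun x _ => ?_
  have h1 := WR_const D h o ho hk (.inr (x, false), true) (.inr (x, true), true)
  have h2 : o (.inr (x, false), true) = o (.inr (x, true), true) := by
    simpa using h1
  rw [if_pos h2, mul_one]

private theorem WR_kind {k n : ℕ} (D : Diagram k n) : ∀ w : List (Fin k × ℤˣ),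
    ∑ x, ((D.insert w).kind x : ℤ) = (w.map fun l => (l.2 : ℤ)).sum + ∑ x, (D.kind x : ℤ)
  | [] => by
    rw [List.map_nil, List.sum_nil, zero_add]
    rfl
  | l :: w => by
    have h1 : ∑ x : Fin (n + (l :: w).length), ((D.insert (l :: w)).kind x : ℤ) =
        ∑ x : Fin (n + w.length + 1),
          ((Fin.cons l.2 (D.insert w).kind : Fin (n + w.length + 1) → ℤˣ) x : ℤ) := rfl
    rw [h1, Fin.sum_univ_succ, List.map_cons, List.sum_cons]
    simp only [Fin.cons_zero, Fin.cons_succ]
    rw [WR_kind D w, add_assoc]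

private theorem WR_syl (i : Fin 3) (a : ℤ) :
    ((syllable i a).map fun l => (l.2 : ℤ)).sum = a := by
  unfold syllable
  rw [List.map_replicate, List.sum_replicate]
  by_cases h : 0 ≤ a
  · rw [if_pos h, nsmul_eq_mul, Units.val_one, mul_one]
    omega
  · rw [if_neg h, nsmul_eq_mul, Units.val_neg, Units.val_one]
    omega

private theorem WR_word (β : List (ℤ × ℤ × ℤ)) :
    ((word β).map fun l => (l.2 : ℤ)).sum = tot β := by
  unfold word tot
  induction β with
  | nil => rfl
  | cons t β ih =>
    rw [List.map_cons, List.flatten_cons, List.map_append, List.sum_append, ih, List.map_cons,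
      List.sum_cons, List.map_append, List.map_append, List.sum_append, List.sum_append, WR_syl,
      WR_syl, WR_syl]
    ring

theorem thm_Wr : St_Wr := by
  intro β o ho hk
  have h1 : WR_par (closure β) := WR_insert _ WR_triv _
  rw [WR_writhe _ h1 o ho hk]
  have h2 := WR_kind trivialClosure (word β)
  have h3 : ∑ x : Fin 0, (trivialClosure.kind x : ℤ) = 0 := Fin.sum_univ_zero _
  rw [WR_word, h3, add_zero] at h2
  exact h2

end Pool.Agent.FB.W8
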