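import Mathlib
import Pool.Agent.FB.W8.St

/-!
# FB/W8, module AUT: the finite automaton of the ratios (helper27)

The closure of the ratios `w^e` modulo `w⁵` under the two steps has 34 elements.  A step depends only on
`min e 6`.
-/

set_option autoImplicit false

namespace Pool.Agent.FB.W8

/-- the 34 ratios -/
def SA : Finset (ℤ × ℤ × ℤ × ℤ) :=
  {(0, 0, 0, 0), (0, 0, 0, 1), (0, 0, 0, 2), (0, 0, 1, -2), (0, 0, 1, -1), (0, 0, 1, 0),
   (0, 0, 1, 1), (0, 0, 1, 2), (0, 0, 2, -1), (0, 0, 2, 0), (0, 1, -2, 4), (0, 1, -2, 5),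
   (0, 1, -2, 6), (0, 1, -1, -1), (0, 1, -1, 0), (0, 1, -1, 1), (0, 1, 0, 0), (1, -2, 4, -6),
   (1, -2, 5, -11), (1, -2, 5, -10), (1, -2, 5, -9), (1, -2, 6, -20), (1, -2, 6, -19), (1, -2, 6, -18),
   (1, -1, -1, 4), (1, -1, -1, 5), (1, -1, 0, 0), (1, -1, 0, 1), (1, -1, 0, 2), (1, -1, 0, 3),
   (1, -1, 0, 4), (1, -1, 1, -2), (1, -1, 1, -1), (1, -1, 1, 0)}

theorem nf_six (e : ℤ) (he : 6 ≤ e) : nf e = nf 6 := by
  unfold nf
  rw [if_neg (by omega), if_neg (by omega), if_neg (by omega), if_neg (by norm_num), if_neg (by norm_num),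
    if_neg (by norm_num)]

theorem ng_six (e : ℤ) (r : ℤ × ℤ × ℤ × ℤ) (he : 6 ≤ e) : ng e r = ng 6 r := by
  unfold ng
  rw [if_neg (by omega), if_neg (by omega), if_neg (by norm_num), if_neg (by norm_num)]

theorem nh_six (e : ℤ) (r : ℤ × ℤ × ℤ × ℤ) (he : 6 ≤ e) : nh e r = nh 6 r := by
  unfold nh
  rw [if_neg (by omega), if_neg (by omega), if_neg (by omega), if_neg (by omega), if_neg (by norm_num),
    if_neg (by norm_num), if_neg (by norm_num), if_neg (by norm_num)]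

theorem cases_six (e : ℤ) (he : 2 ≤ e) : e = 2 ∨ e = 3 ∨ e = 4 ∨ e = 5 ∨ 6 ≤ e := by omega

theorem SA_zero : (0, 0, 0, 0) ∈ SA := by decide +kernel

theorem SA_nf : ∀ e ∈ ({2, 3, 4, 5, 6} : Finset ℤ), nf e ∈ SA ∧ pot (nf e) = 0 := by decide +kernel

theorem SA_r : ∀ r ∈ SA, 0 ≤ r.1 ∧ 0 ≤ pot r + cf r ∧ 0 ≤ pot r := by decide +kernel

theorem SA_ng : ∀ r ∈ SA, ∀ e ∈ ({2, 3, 4, 5, 6} : Finset ℤ), ng e r ∈ SA ∧ pot (ng e r) ≤ pot r + cg r := by
  decide +kernel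

theorem SA_nh : ∀ r ∈ SA, ∀ e ∈ ({2, 3, 4, 5, 6} : Finset ℤ),
    r.1 = 0 → nh e r ∈ SA ∧ pot (nh e r) ≤ pot r + ch r := by
  decide +kernel

theorem thm_A : St_A := by
  refine ⟨SA, SA_zero, ?_, by decide +kernel, ?_⟩
  · intro e he
    rcases cases_six e he with h | h | h | h | h
    · exact h ▸ SA_nf 2 (by decide)
    · exact h ▸ SA_nf 3 (by decide)
    · exact h ▸ SA_nf 4 (by decide)
    · exact h ▸ SA_nf 5 (by decide)
    · rw [nf_six e h]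
      exact SA_nf 6 (by decide)
  · intro r hr
    refine ⟨(SA_r r hr).1, (SA_r r hr).2.1, (SA_r r hr).2.2, ?_⟩
    intro e he
    rcases cases_six e he with h | h | h | h | h
    · exact h ▸ ⟨SA_ng r hr 2 (by decide), SA_nh r hr 2 (by decide)⟩
    · exact h ▸ ⟨SA_ng r hr 3 (by decide), SA_nh r hr 3 (by decide)⟩
    · exact h ▸ ⟨SA_ng r hr 4 (by decide), SA_nh r hr 4 (by decide)⟩
    · exact h ▸ ⟨SA_ng r hr 5 (by decide), SA_nh r hr 5 (by decide)⟩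
    · rw [ng_six e r h, nh_six e r h]
      exact ⟨SA_ng r hr 6 (by decide), SA_nh r hr 6 (by decide)⟩

end Pool.Agent.FB.W8
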