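import Mathlib
import Pool.Agent.FB.W8.St

/-!
# FB/W8, module HEAD: calculus of heads, explicit formulas of the step, degrees
-/

set_option autoImplicit false

open Filter Asymptotics Topology Matrix

namespace Pool.Agent.FB.W8

/-! ### orders -/

theorem ev_pos : ∀ᶠ w in 𝓝[>] (0 : ℝ), 0 < w := eventually_mem_nhdsWithin

theorem ev_lt {c : ℝ} (hc : 0 < c) : ∀ᶠ w in 𝓝[>] (0 : ℝ), w < c :=
  (Filter.Tendsto.eventually_lt_const hc (tendsto_id.mono_left nhdsWithin_le_nhds))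

theorem tendsto_w : Tendsto (fun w : ℝ => w) (𝓝[>] (0 : ℝ)) (𝓝 0) :=
  tendsto_id.mono_left nhdsWithin_le_nhds

/-- a function which is continuous at `0` -/
theorem tendsto_of_cont {f : ℝ → ℝ} (hf : ContinuousAt f 0) : Tendsto f (𝓝[>] (0 : ℝ)) (𝓝 (f 0)) :=
  hf.tendsto.mono_left nhdsWithin_le_nhds

theorem O_mono {f : ℝ → ℝ} {j k : ℕ} (h : j ≤ k) (hf : f =O[𝓝[>] (0 : ℝ)] fun w => w ^ k) :
    f =O[𝓝[>] (0 : ℝ)] fun w => w ^ j := by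
  refine hf.trans ?_
  refine IsBigO.of_bound 1 ?_
  filter_upwards [ev_pos, ev_lt one_pos] with w h0 h1
  rw [one_mul, Real.norm_of_nonneg (pow_nonneg h0.le _), Real.norm_of_nonneg (pow_nonneg h0.le _)]
  exact pow_le_pow_of_le_one h0.le h1.le h

theorem O_mul {f g : ℝ → ℝ} {j k : ℕ} (hf : f =O[𝓝[>] (0 : ℝ)] fun w => w ^ j)
    (hg : g =O[𝓝[>] (0 : ℝ)] fun w => w ^ k) :
    (fun w => f w * g w) =O[𝓝[>] (0 : ℝ)] fun w => w ^ (j + k) := by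
  simpa only [pow_add] using hf.mul hg

theorem O_of_tendsto {f : ℝ → ℝ} {a : ℝ} (hf : Tendsto f (𝓝[>] (0 : ℝ)) (𝓝 a)) :
    f =O[𝓝[>] (0 : ℝ)] fun w => w ^ 0 := by
  simpa only [pow_zero] using hf.isBigO_one ℝ

theorem O_pow (k : ℕ) : (fun w : ℝ => w ^ k) =O[𝓝[>] (0 : ℝ)] fun w => w ^ k := isBigO_refl _ _

theorem O_zpow {n : ℤ} {k : ℕ} (h : (k : ℤ) ≤ n) :
    (fun w : ℝ => w ^ n) =O[𝓝[>] (0 : ℝ)] fun w => w ^ k := by
  obtain ⟨j, hj⟩ := Int.le.dest h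
  have : (fun w : ℝ => w ^ n) = fun w => w ^ (k + j) := by
    funext w
    rw [← hj]
    norm_cast
  rw [this]
  exact O_mono (Nat.le_add_right k j) (O_pow _)

theorem O_tendsto_zero {f : ℝ → ℝ} {k : ℕ} (hk : 1 ≤ k) (hf : f =O[𝓝[>] (0 : ℝ)] fun w => w ^ k) :
    Tendsto f (𝓝[>] (0 : ℝ)) (𝓝 0) := by
  refine (O_mono hk hf).trans_tendsto ?_
  simpa only [pow_one] using tendsto_w

/-- for a function continuous at `0`, the product with a function of order `k` has order `k` -/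
theorem O_cont_mul {f g : ℝ → ℝ} {k : ℕ} (hf : ContinuousAt f 0)
    (hg : g =O[𝓝[>] (0 : ℝ)] fun w => w ^ k) : (fun w => f w * g w) =O[𝓝[>] (0 : ℝ)] fun w => w ^ k := by
  have := O_mul (O_of_tendsto (tendsto_of_cont hf)) hg
  simpa only [zero_add] using this

/-- a constant multiple of `w^k` plus higher terms: `w^k F(w)` with `F` continuous at `0` -/
theorem O_pow_mul {F : ℝ → ℝ} (k : ℕ) (hF : ContinuousAt F 0) :
    (fun w => w ^ k * F w) =O[𝓝[>] (0 : ℝ)] fun w => w ^ k := by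
  have := O_cont_mul hF (O_pow k)
  simpa only [mul_comm] using this

theorem zpow_mul_pow_sub {w : ℝ} (hw : 0 < w) (a b : ℤ) : w ^ (a + b) = w ^ a * w ^ b :=
  zpow_add₀ hw.ne' a b

/-! ### heads -/

theorem Hd.congr {f g : ℝ → ℝ} {s : ℝ} {D : ℤ} {c₁ c₂ c₃ : ℝ} (h : Hd f s D c₁ c₂ c₃)
    (e : ∀ᶠ w in 𝓝[>] (0 : ℝ), f w = g w) : Hd g s D c₁ c₂ c₃ := by
  refine IsBigO.congr' h ?_ (Eventually.of_forall fun _ => rfl)
  filter_upwards [e] with w hw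
  rw [hw]

theorem Hd.add_small {f g : ℝ → ℝ} {s : ℝ} {D : ℤ} {c₁ c₂ c₃ : ℝ} (h : Hd f s D c₁ c₂ c₃)
    (hg : (fun w : ℝ => w ^ D * g w) =O[𝓝[>] (0 : ℝ)] fun w => w ^ 4) :
    Hd (fun w => f w + g w) s D c₁ c₂ c₃ := by
  refine IsBigO.congr' (IsBigO.add h hg) ?_ (Eventually.of_forall fun _ => rfl)
  exact Eventually.of_forall fun w => by ring

theorem Hd.tendsto {f : ℝ → ℝ} {s : ℝ} {D : ℤ} {c₁ c₂ c₃ : ℝ} (h : Hd f s D c₁ c₂ c₃) :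
    Tendsto (fun w : ℝ => w ^ D * f w) (𝓝[>] 0) (𝓝 s) := by
  have h1 := O_tendsto_zero (k := 4) (by norm_num) h
  have h2 : Tendsto (fun w : ℝ => s * (1 + c₁ * w + c₂ * w ^ 2 + c₃ * w ^ 3)) (𝓝[>] 0) (𝓝 s) := by
    have := tendsto_of_cont (f := fun w : ℝ => s * (1 + c₁ * w + c₂ * w ^ 2 + c₃ * w ^ 3))
      (by fun_prop)
    simpa using this
  have h3 := h1.add h2
  simpa using h3

theorem Hd.isBigO {f : ℝ → ℝ} {s : ℝ} {D : ℤ} {c₁ c₂ c₃ : ℝ} (h : Hd f s D c₁ c₂ c₃) :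
    (fun w : ℝ => w ^ D * f w) =O[𝓝[>] (0 : ℝ)] fun w => w ^ 0 := O_of_tendsto h.tendsto

theorem Hd.mul {f g : ℝ → ℝ} {s s' : ℝ} {D D' : ℤ} {c₁ c₂ c₃ d₁ d₂ d₃ : ℝ} (h : Hd f s D c₁ c₂ c₃)
    (h' : Hd g s' D' d₁ d₂ d₃) : Hd (fun w => f w * g w) (s * s') (D + D') (c₁ + d₁)
      (c₂ + c₁ * d₁ + d₂) (c₃ + c₂ * d₁ + c₁ * d₂ + d₃) := by
  have h1 := O_mul h h'.isBigO
  have h2 : (fun w : ℝ => (s * (1 + c₁ * w + c₂ * w ^ 2 + c₃ * w ^ 3)) *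
      (w ^ D' * g w - s' * (1 + d₁ * w + d₂ * w ^ 2 + d₃ * w ^ 3))) =O[𝓝[>] (0 : ℝ)] fun w => w ^ 4 :=
    O_cont_mul (by fun_prop) h'
  have h3 : (fun w : ℝ => w ^ 4 * (s * s' * ((c₃ * d₁ + c₂ * d₂ + c₁ * d₃) + (c₃ * d₂ + c₂ * d₃) * w +
      c₃ * d₃ * w ^ 2))) =O[𝓝[>] (0 : ℝ)] fun w => w ^ 4 := O_pow_mul 4 (by fun_prop)
  refine IsBigO.congr' ((h1.add h2).add h3) ?_ (Eventually.of_forall fun _ => rfl)
  filter_upwards [ev_pos] with w hw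
  rw [zpow_add₀ hw.ne']
  ring

theorem Hd.const_mul {f : ℝ → ℝ} {s : ℝ} {D : ℤ} {c₁ c₂ c₃ : ℝ} (h : Hd f s D c₁ c₂ c₃) (a : ℝ) :
    Hd (fun w => a * f w) (a * s) D c₁ c₂ c₃ := by
  refine IsBigO.congr' (IsBigO.const_mul_left h a) ?_ (Eventually.of_forall fun _ => rfl)
  exact Eventually.of_forall fun w => by ring

theorem Hd.neg {f : ℝ → ℝ} {s : ℝ} {D : ℤ} {c₁ c₂ c₃ : ℝ} (h : Hd f s D c₁ c₂ c₃) :
    Hd (fun w => -f w) (-s) D c₁ c₂ c₃ := by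
  have := h.const_mul (-1)
  simpa only [neg_one_mul] using this

theorem Hd.zpow_mul {f : ℝ → ℝ} {s : ℝ} {D : ℤ} {c₁ c₂ c₃ : ℝ} (h : Hd f s D c₁ c₂ c₃) (n : ℤ) :
    Hd (fun w => w ^ n * f w) s (D - n) c₁ c₂ c₃ := by
  refine IsBigO.congr' h ?_ (Eventually.of_forall fun _ => rfl)
  filter_upwards [ev_pos] with w hw
  rw [← mul_assoc, ← zpow_add₀ hw.ne', sub_add_cancel]

theorem Lf_mul (c₁ c₂ c₃ d₁ d₂ d₃ : ℝ) : Lf (c₁ + d₁) (c₂ + c₁ * d₁ + d₂) (c₃ + c₂ * d₁ + c₁ * d₂ + d₃) =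
    Lf c₁ c₂ c₃ + Lf d₁ d₂ d₃ := by
  unfold Lf
  ring

/-- a polynomial which is small is zero -/
theorem poly_zero {p₀ p₁ p₂ p₃ : ℝ} (h : (fun w : ℝ => p₀ + p₁ * w + p₂ * w ^ 2 + p₃ * w ^ 3) =O[𝓝[>] (0 : ℝ)]
    fun w => w ^ 4) : p₀ = 0 ∧ p₁ = 0 ∧ p₂ = 0 ∧ p₃ = 0 := by
  have key : ∀ (k : ℕ) (f : ℝ → ℝ), ContinuousAt f 0 → k < 4 →
      (fun w : ℝ => w ^ k * f w) =O[𝓝[>] (0 : ℝ)] (fun w => w ^ 4) → f 0 = 0 := by
    intro k f hf hk hO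
    have h1 : f =O[𝓝[>] (0 : ℝ)] fun w => w ^ (4 - k) := by
      have h2 := IsBigO.mul (isBigO_refl (fun w : ℝ => (w ^ k)⁻¹) (𝓝[>] (0 : ℝ))) hO
      refine IsBigO.congr' h2 ?_ ?_
      · filter_upwards [ev_pos] with w hw
        field_simp
      · filter_upwards [ev_pos] with w hw
        have : (4 : ℕ) = k + (4 - k) := by omega
        rw [this, pow_add]
        field_simp
        congr 1
        omega
    have h3 := O_tendsto_zero (by omega) h1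
    exact tendsto_nhds_unique (tendsto_of_cont hf) h3
  have e0 : p₀ = 0 := by
    have := key 0 (fun w => p₀ + p₁ * w + p₂ * w ^ 2 + p₃ * w ^ 3) (by fun_prop) (by norm_num)
      (by simpa using h)
    simpa using this
  subst e0
  have e1 : p₁ = 0 := by
    have := key 1 (fun w => p₁ + p₂ * w + p₃ * w ^ 2) (by fun_prop) (by norm_num)
      (by refine h.congr_left fun w => ?_; ring)
    simpa using this
  subst e1
  have e2 : p₂ = 0 := by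
    have := key 2 (fun w => p₂ + p₃ * w) (by fun_prop) (by norm_num)
      (by refine h.congr_left fun w => ?_; ring)
    simpa using this
  subst e2
  have e3 : p₃ = 0 := by
    have := key 3 (fun _ => p₃) (by fun_prop) (by norm_num)
      (by refine h.congr_left fun w => ?_; ring)
    simpa using this
  exact ⟨rfl, rfl, rfl, e3⟩

/-- the degree of a head -/
theorem deg_unique {f : ℝ → ℝ} {s s' : ℝ} {D D' : ℤ} (hs : s ≠ 0) (hs' : s' ≠ 0)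
    (h : Tendsto (fun w : ℝ => w ^ D * f w) (𝓝[>] 0) (𝓝 s))
    (h' : Tendsto (fun w : ℝ => w ^ D' * f w) (𝓝[>] 0) (𝓝 s')) : D = D' := by
  have key : ∀ (t t' : ℝ) (E E' : ℤ), t ≠ 0 → t' ≠ 0 →
      Tendsto (fun w : ℝ => w ^ E * f w) (𝓝[>] 0) (𝓝 t) →
      Tendsto (fun w : ℝ => w ^ E' * f w) (𝓝[>] 0) (𝓝 t') → ¬ E < E' := by
    intro t t' E E' ht ht' h1 h2 hlt
    have h3 : Tendsto (fun w : ℝ => w ^ (E' - E)) (𝓝[>] 0) (𝓝 0) :=
      O_tendsto_zero (k := 1) le_rfl (O_zpow (by push_cast; omega))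
    have h4 := h3.mul h1
    rw [zero_mul] at h4
    have h5 : Tendsto (fun w : ℝ => w ^ E' * f w) (𝓝[>] 0) (𝓝 0) := by
      refine h4.congr' ?_
      filter_upwards [ev_pos] with w hw
      rw [← mul_assoc, ← zpow_add₀ hw.ne', sub_add_cancel]
    exact ht' (tendsto_nhds_unique h2 h5)
  rcases lt_trichotomy D D' with hlt | heq | hgt
  · exact absurd hlt (key s s' D D' hs hs' h h')
  · exact heq
  · exact absurd hgt (key s' s D' D hs' hs h' h)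

/-- heads are unique -/
theorem Hd.unique {f : ℝ → ℝ} {s s' : ℝ} {D D' : ℤ} {c₁ c₂ c₃ d₁ d₂ d₃ : ℝ} (hs : s ≠ 0) (hs' : s' ≠ 0)
    (h : Hd f s D c₁ c₂ c₃) (h' : Hd f s' D' d₁ d₂ d₃) :
    s = s' ∧ D = D' ∧ c₁ = d₁ ∧ c₂ = d₂ ∧ c₃ = d₃ := by
  have hD := deg_unique hs hs' h.tendsto h'.tendsto
  subst hD
  have hss : s = s' := tendsto_nhds_unique h.tendsto h'.tendsto
  subst hss
  have h1 := IsBigO.sub h' h
  have h2 : (fun w : ℝ => 0 + s * (c₁ - d₁) * w + s * (c₂ - d₂) * w ^ 2 + s * (c₃ - d₃) * w ^ 3)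
      =O[𝓝[>] (0 : ℝ)] fun w => w ^ 4 := by
    refine h1.congr_left fun w => ?_
    ring
  obtain ⟨_, e1, e2, e3⟩ := poly_zero h2
  refine ⟨rfl, rfl, ?_, ?_, ?_⟩
  · exact sub_eq_zero.1 ((mul_eq_zero.1 e1).resolve_left hs)
  · exact sub_eq_zero.1 ((mul_eq_zero.1 e2).resolve_left hs)
  · exact sub_eq_zero.1 ((mul_eq_zero.1 e3).resolve_left hs)

/-! ### the functions `u`, `1 - u`, `1 - 2 u` -/

/-- a function `F` continuous at `0` with `f = w^(-D) (p + w^4 F)` -/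
theorem Hd_of_eq {f F : ℝ → ℝ} {s : ℝ} {D : ℤ} {c₁ c₂ c₃ : ℝ} (hF : ContinuousAt F 0)
    (h : ∀ w : ℝ, 0 < w → w < 1 / 2 → w ^ D * f w - s * (1 + c₁ * w + c₂ * w ^ 2 + c₃ * w ^ 3) =
      w ^ 4 * F w) : Hd f s D c₁ c₂ c₃ := by
  refine IsBigO.congr' (O_pow_mul 4 hF) ?_ (Eventually.of_forall fun _ => rfl)
  filter_upwards [ev_pos, ev_lt (c := 1 / 2) (by norm_num)] with w h0 h1
  exact (h w h0 h1).symm

private theorem HEAD_cont (p : ℝ → ℝ) (hp : ContinuousAt p 0) : ContinuousAt (fun w : ℝ => p w / (1 - w) ^ 2) 0 := by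
  refine ContinuousAt.div hp (by fun_prop) ?_
  norm_num

theorem Hd_u : Hd u (-1) (-1) 2 3 4 := by
  refine Hd_of_eq (F := fun w => (-5 + 4 * w) / (1 - w) ^ 2) (HEAD_cont _ (by fun_prop)) fun w h0 h1 => ?_
  have h2 : (1 - w) ≠ 0 := by linarith
  rw [_root_.zpow_neg_one]
  unfold u
  field_simp
  ring

theorem Hd_one_sub_u : Hd (fun w => 1 - u w) 1 0 1 2 3 := by
  refine Hd_of_eq (F := fun w => (4 - 3 * w) / (1 - w) ^ 2) (HEAD_cont _ (by fun_prop)) fun w h0 h1 => ?_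
  have h2 : (1 - w) ≠ 0 := by linarith
  rw [zpow_zero]
  unfold u
  field_simp
  ring

theorem Hd_one_sub_two_u : Hd (fun w => 1 - 2 * u w) 1 0 2 4 6 := by
  refine Hd_of_eq (F := fun w => (8 - 6 * w) / (1 - w) ^ 2) (HEAD_cont _ (by fun_prop)) fun w h0 h1 => ?_
  have h2 : (1 - w) ≠ 0 := by linarith
  rw [zpow_zero]
  unfold u
  field_simp
  ring

theorem Hd_one_sub_Q : Hd (fun w => (1 - w + w ^ 2) / w) 1 1 (-1) 1 0 := by
  refine Hd_of_eq (F := fun _ => 0) (by fun_prop) fun w h0 h1 => ?_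
  rw [zpow_one]
  field_simp
  ring

theorem Lf_u : Lf 2 3 4 = 18 := by
  unfold Lf
  norm_num

theorem Lf_one_sub_u : Lf 1 2 3 = 18 := by
  unfold Lf
  norm_num

theorem Lf_one_sub_two_u : Lf 2 4 6 = 24 := by
  unfold Lf
  norm_num

theorem Lf_one_sub_Q : Lf (-1) 1 0 = 0 := by
  unfold Lf
  norm_num

theorem O_u : (fun w => u w) =O[𝓝[>] (0 : ℝ)] fun w => w ^ 1 := by
  have : (fun w : ℝ => w ^ 1 * (-1 / (1 - w) ^ 2)) =O[𝓝[>] (0 : ℝ)] fun w => w ^ 1 :=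
    O_pow_mul 1 (HEAD_cont _ (by fun_prop))
  refine this.congr_left fun w => ?_
  unfold u
  ring

theorem tendsto_u : Tendsto (fun w => u w) (𝓝[>] (0 : ℝ)) (𝓝 0) := O_tendsto_zero le_rfl O_u

theorem tendsto_u_div : Tendsto (fun w : ℝ => w ^ (-1 : ℤ) * u w) (𝓝[>] (0 : ℝ)) (𝓝 (-1)) := Hd_u.tendsto

/-! ### explicit formulas of the step -/

theorem stp_zero (t : ℤ × ℤ × ℤ) (V : ℝ → Fin 3 → ℝ) (w : ℝ) : stp t V w 0 =
    w ^ (-t.1) * (V w 0 + (w ^ (-t.2.2) - 1) * (u w * (V w 0 + V w 1 + V w 2))) := by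
  simp [stp, B3, Matrix.vecMul, dotProduct, Fin.sum_univ_three, Matrix.mul_apply, Matrix.diagonal]
  ring

theorem stp_one (t : ℤ × ℤ × ℤ) (V : ℝ → Fin 3 → ℝ) (w : ℝ) : stp t V w 1 =
    w ^ (-t.2.1) * (V w 1 + (w ^ (-t.2.2) - 1) * (u w * (V w 0 + V w 1 + V w 2))) := by
  simp [stp, B3, Matrix.vecMul, dotProduct, Fin.sum_univ_three, Matrix.mul_apply, Matrix.diagonal]
  ring

theorem stp_two (t : ℤ × ℤ × ℤ) (V : ℝ → Fin 3 → ℝ) (w : ℝ) : stp t V w 2 =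
    V w 2 + (w ^ (-t.2.2) - 1) * ((1 - 2 * u w) * (V w 0 + V w 1 + V w 2)) := by
  simp [stp, B3, Matrix.vecMul, dotProduct, Fin.sum_univ_three, Matrix.mul_apply, Matrix.diagonal]
  ring

/-! ### degrees -/

theorem gr_ge {t : ℤ × ℤ × ℤ} (h : Hyp t) : t.1 + t.2.1 + t.2.2 + 7 ≤ 2 * gr t := by
  obtain ⟨h1, h2, h3, h4⟩ := h
  unfold gr
  rcases abs_cases t.1 with ⟨e1, _⟩ | ⟨e1, _⟩ <;> rcases abs_cases t.2.1 with ⟨e2, _⟩ | ⟨e2, _⟩ <;>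
    rcases abs_cases t.2.2 with ⟨e3, _⟩ | ⟨e3, _⟩ <;> rcases abs_cases (t.1 - t.2.1) with ⟨e4, _⟩ | ⟨e4, _⟩ <;>
    omega

/-- blocks without two positive exponents -/
theorem gr_ge' {t : ℤ × ℤ × ℤ} (h : Hyp t) (h0 : ¬ (0 < t.1 ∧ 0 < t.2.1)) :
    t.1 + t.2.1 + t.2.2 + 15 ≤ 2 * gr t := by
  obtain ⟨h1, h2, h3, h4⟩ := h
  unfold gr
  rcases abs_cases t.1 with ⟨e1, _⟩ | ⟨e1, _⟩ <;> rcases abs_cases t.2.1 with ⟨e2, _⟩ | ⟨e2, _⟩ <;>
    rcases abs_cases t.2.2 with ⟨e3, _⟩ | ⟨e3, _⟩ <;> omega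

theorem ty_two_iff (t : ℤ × ℤ × ℤ) : ty t = 2 ↔ t.1 < 0 ∧ t.2.1 < 0 := by
  unfold ty
  split_ifs with h1 h2
  · simp [h1]
  · simp [h1]
  · simp [h1]

/-- the degree of a step -/
theorem gr_le_dl {t : ℤ × ℤ × ℤ} (h : Hyp t) (X : Fin 3) : gr t - 1 ≤ dl X t := by
  obtain ⟨h1, h2, h3, h4⟩ := h
  have h5 := ty_two_iff t
  unfold dl gr
  by_cases hty : ty t = 2
  · have h6 := h5.1 hty
    simp only [hty, if_true]
    split_ifs <;> omega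
  · have h6 : ¬ (t.1 < 0 ∧ t.2.1 < 0) := fun h => hty (h5.2 h)
    simp only [hty, if_false]
    rcases abs_cases t.1 with ⟨e1, _⟩ | ⟨e1, _⟩ <;> rcases abs_cases t.2.1 with ⟨e2, _⟩ | ⟨e2, _⟩ <;>
      rcases abs_cases t.2.2 with ⟨e3, _⟩ | ⟨e3, _⟩ <;> split_ifs <;> omega

theorem dg_ge {β : List (ℤ × ℤ × ℤ)} (h : ∀ x ∈ β, Hyp x) (X : Fin 3) :
    (β.map gr).sum - β.length ≤ dg X β := by
  induction β generalizing X with
  | nil => simp [dg]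
  | cons t β ih =>
    have h1 := gr_le_dl (h t (by simp)) X
    have h2 := ih (fun x hx => h x (by simp [hx])) (ty t)
    simp only [List.map_cons, List.sum_cons, List.length_cons, dg]
    push_cast
    omega

/-- the degree depends on the start by at most one -/
theorem dl_le (t : ℤ × ℤ × ℤ) (X Y : Fin 3) : dl X t ≤ dl Y t + 1 := by
  unfold dl
  split_ifs <;> omega

theorem dg_le (β : List (ℤ × ℤ × ℤ)) (X Y : Fin 3) : dg X β ≤ dg Y β + 1 := by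
  cases β with
  | nil => simp [dg]
  | cons t β =>
    have := dl_le t X Y
    simp only [dg]
    omega

end Pool.Agent.FB.W8
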