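import Mathlib
import Pool.Agent.FB.W8.HEAD

/-!
# FB/W8, module FIN: the theorem from the modules
-/

set_option autoImplicit false

open Filter Asymptotics Topology Matrix LaurentPolynomial Pool.RU

namespace Pool.Agent.FB.W8

private theorem FIN_hyp {t : ℤ × ℤ × ℤ} (h : Hyp t) : Hyp (-t.1, -t.2.1, -t.2.2) := by
  obtain ⟨h1, h2, h3, h4⟩ := h
  refine ⟨?_, ?_, ?_, ?_⟩
  · simpa only [abs_neg] using h1
  · simpa only [abs_neg] using h2
  · simpa only [abs_neg] using h3
  · have : -t.1 - -t.2.1 = -(t.1 - t.2.1) := by ring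
    simpa only [this, abs_neg] using h4

private theorem FIN_tot (β : List (ℤ × ℤ × ℤ)) : tot (mir β) = -tot β := by
  induction β with
  | nil => simp [tot, mir]
  | cons t β ih =>
    simp only [tot, mir, List.map_cons, List.sum_cons] at ih ⊢
    rw [ih]
    ring

/-- **the theorem** -/
theorem thm_W8 (hK : St_Key) (h1 : St_P1) (h2 : St_P2) : St_W8 := by
  intro β hne hyp o ho hk hf
  obtain ⟨k1, k2⟩ := hK β o ho hk hf
  have hypm : ∀ x ∈ mir β, Hyp x := by
    intro x hx
    obtain ⟨t, ht, rfl⟩ := List.mem_map.1 hx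
    exact FIN_hyp (hyp t ht)
  have hnem : mir β ≠ [] := by
    simpa [mir] using hne
  rcases le_total 0 (tot β) with ht | ht
  · by_cases hc : ∃ t ∈ β, t.1 < 0 ∧ t.2.1 < 0
    · exact h1 β hyp hc ht k1
    · refine h2 (mir β) hnem hypm ?_ (by rw [FIN_tot]; linarith) k2
      intro x hx
      obtain ⟨t, ht', rfl⟩ := List.mem_map.1 hx
      rintro ⟨g1, g2⟩
      exact hc ⟨t, ht', by simpa using g1, by simpa using g2⟩
  · by_cases hc : ∃ t ∈ β, 0 < t.1 ∧ 0 < t.2.1
    · refine h1 (mir β) hypm ?_ (by rw [FIN_tot]; linarith) k2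
      obtain ⟨t, ht', g1, g2⟩ := hc
      exact ⟨_, List.mem_map.2 ⟨t, ht', rfl⟩, by simpa using g1, by simpa using g2⟩
    · refine h2 β hne hyp ?_ ht k1
      intro x hx h
      exact hc ⟨x, hx, h⟩

theorem thm_W8L (h : St_W8) (hL : St_Lk) : St_W8L :=
  fun β hne hyp o ho hf => h β hne hyp o ho (hL β o ho hf) hf

end Pool.Agent.FB.W8
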