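import Mathlib
import Pool.Agent.FB.W8.HEAD

/-!
# FB/W8, module H3: assembly of the first trace in part I
-/

set_option autoImplicit false

open Filter Asymptotics Topology Matrix

namespace Pool.Agent.FB.W8

/-- the two cases of the strong step -/
theorem thm_S (hE : St_SE) (hF : St_SF) : St_S := by
  intro X D s c₁ c₂ c₃ r V t hyp hs hV h1 h2
  rcases lt_trichotomy t.2.2 0 with hb | hb | hb
  · exact hF X D s c₁ c₂ c₃ r V t hyp hb hs hV (fun h => h1 ⟨hb, h.1, h.2⟩) (h2 hb)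
  · have := hyp.2.2.1
    rw [hb] at this
    norm_num at this
  · exact hE X D s c₁ c₂ c₃ r V t hyp hb hs hV

/-! ### folds -/

/-- the row vector after a list of blocks -/
noncomputable def H3_run (β : List (ℤ × ℤ × ℤ)) (V : ℝ → Fin 3 → ℝ) : ℝ → Fin 3 → ℝ :=
  fun w => Matrix.vecMul (V w) (β.map (B3 w)).prod

/-- the last type -/
def H3_lt : Fin 3 → List (ℤ × ℤ × ℤ) → Fin 3
  | X, [] => X
  | _, t :: β => H3_lt (ty t) β

theorem H3_run_nil (V : ℝ → Fin 3 → ℝ) : H3_run [] V = V := by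
  funext w
  simp [H3_run]

theorem H3_run_cons (t : ℤ × ℤ × ℤ) (β : List (ℤ × ℤ × ℤ)) (V : ℝ → Fin 3 → ℝ) :
    H3_run (t :: β) V = H3_run β (stp t V) := by
  funext w
  simp [H3_run, stp]

theorem H3_run_snoc (t : ℤ × ℤ × ℤ) (β : List (ℤ × ℤ × ℤ)) (V : ℝ → Fin 3 → ℝ) :
    H3_run (β ++ [t]) V = stp t (H3_run β V) := by
  funext w
  simp [H3_run, stp]

theorem H3_dg_snoc (t : ℤ × ℤ × ℤ) (β : List (ℤ × ℤ × ℤ)) (X : Fin 3) :
    dg X (β ++ [t]) = dg X β + dl (H3_lt X β) t := by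
  induction β generalizing X with
  | nil => simp [dg, H3_lt]
  | cons x β ih =>
    simp only [List.cons_append, dg, H3_lt]
    rw [ih]
    ring

/-! ### the invariant -/

/-- all information -/
def H3_Good (S : Finset (ℤ × ℤ × ℤ × ℤ)) (X : Fin 3) (D B : ℤ) (V : ℝ → Fin 3 → ℝ) : Prop :=
  ∃ s κ : ℝ, 1 ≤ |s| ∧ WInv X D s κ V ∧ (|s| = 1 → ∃ (c₁ c₂ c₃ : ℝ) (r : ℤ × ℤ × ℤ × ℤ),
    SInv X D s c₁ c₂ c₃ r V ∧ r ∈ S ∧ (B : ℝ) + pot r ≤ Lf c₁ c₂ c₃)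

/-- the ratio in the two invariants is the same -/
theorem H3_ratio {X : Fin 3} {D : ℤ} {s κ c₁ c₂ c₃ : ℝ} {r : ℤ × ℤ × ℤ × ℤ} {V : ℝ → Fin 3 → ℝ} (hs : s ≠ 0)
    (hX : X ≠ 2) (hW : WInv X D s κ V) (hS : SInv X D s c₁ c₂ c₃ r V) : (r.1 : ℝ) = κ := by
  have h1 := (hW.2.2.2 hX).1
  have h2 := (hS.2.2 hX).1
  have h3 := hS.1.tendsto
  -- `w^(D-1) (V_sw - r V_X) → 0`
  have h4 : Tendsto (fun w : ℝ => w ^ (-1 : ℤ) * (w ^ D * (V w (sw X) - (r.1 * w + r.2.1 * w ^ 2 +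
      r.2.2.1 * w ^ 3 + r.2.2.2 * w ^ 4) * V w X))) (𝓝[>] 0) (𝓝 0) := by
    have h5 : (fun w : ℝ => w ^ (-1 : ℤ) * (w ^ D * (V w (sw X) - (r.1 * w + r.2.1 * w ^ 2 +
        r.2.2.1 * w ^ 3 + r.2.2.2 * w ^ 4) * V w X))) =O[𝓝[>] (0 : ℝ)] fun w => w ^ 4 := by
      have h6 := IsBigO.mul (isBigO_refl (fun w : ℝ => w ^ (-1 : ℤ)) (𝓝[>] (0 : ℝ))) h2
      refine IsBigO.congr' h6 (Eventually.of_forall fun _ => rfl) ?_
      filter_upwards [ev_pos] with w hw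
      rw [_root_.zpow_neg_one]
      field_simp
    exact O_tendsto_zero (by norm_num) h5
  have h5 : Tendsto (fun w : ℝ => (r.1 + r.2.1 * w + r.2.2.1 * w ^ 2 + r.2.2.2 * w ^ 3) * (w ^ D * V w X))
      (𝓝[>] 0) (𝓝 (r.1 * s)) := by
    have h6 := tendsto_of_cont (f := fun w : ℝ => (r.1 + r.2.1 * w + r.2.2.1 * w ^ 2 + r.2.2.2 * w ^ 3 : ℝ))
      (by fun_prop)
    have h7 := h6.mul h3
    simpa using h7
  have h6 : Tendsto (fun w : ℝ => w ^ (D - 1) * V w (sw X)) (𝓝[>] 0) (𝓝 (r.1 * s)) := by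
    have h7 := h4.add h5
    rw [zero_add] at h7
    refine h7.congr' ?_
    filter_upwards [ev_pos] with w hw
    rw [_root_.zpow_neg_one, zpow_sub₀ hw.ne', zpow_one]
    field_simp
    ring
  have h7 := tendsto_nhds_unique h6 h1
  exact mul_right_cancel₀ hs h7

theorem H3_step (hW : St_W) (hS : St_S) {S : Finset (ℤ × ℤ × ℤ × ℤ)} (h0 : ((0, 0, 0, 0) : ℤ × ℤ × ℤ × ℤ) ∈ S)
    (hnf : ∀ e, 2 ≤ e → nf e ∈ S ∧ pot (nf e) = 0) (hp0 : pot (0, 0, 0, 0) = 0)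
    (hA : ∀ r ∈ S, 0 ≤ r.1 ∧ 0 ≤ pot r + cf r ∧ 0 ≤ pot r ∧ ∀ e, 2 ≤ e →
      (ng e r ∈ S ∧ pot (ng e r) ≤ pot r + cg r) ∧ (r.1 = 0 → nh e r ∈ S ∧ pot (nh e r) ≤ pot r + ch r))
    {X : Fin 3} {D B : ℤ} {V : ℝ → Fin 3 → ℝ} (t : ℤ × ℤ × ℤ) (ht : Hyp t) (h : H3_Good S X D B V) :
    H3_Good S (ty t) (D + dl X t) (B + if ty t = 2 then 24 else 18) (stp t V) := by
  obtain ⟨s, κ, hs1, hWV, hSV⟩ := h
  have hs : s ≠ 0 := fun h => by rw [h, abs_zero] at hs1; linarith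
  obtain ⟨s', κ', hW', habs⟩ := hW X D s κ V t ht hs hWV
  have hκ := hWV.2.1
  have hm : 1 ≤ (if t.2.2 < 0 ∧ ty t = 2 ∧ X = 2 then (2 : ℝ)
      else if t.2.2 < 0 ∧ ty t ≠ 2 ∧ X ≠ 2 ∧ ty t ≠ X then 1 + κ else 1) := by
    split_ifs <;> linarith
  refine ⟨s', κ', by nlinarith, hW', fun hs' => ?_⟩
  rw [hs'] at habs
  have hs1' : |s| = 1 := by nlinarith
  rw [hs1', one_mul] at habs
  obtain ⟨c₁, c₂, c₃, r, hSI, hr, hB⟩ := hSV hs1'
  have n1 : ¬ (t.2.2 < 0 ∧ ty t = 2 ∧ X = 2) := by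
    intro h
    rw [if_pos h] at habs
    norm_num at habs
  have n2 : t.2.2 < 0 → ty t ≠ 2 → X ≠ 2 → ty t ≠ X → r.1 = 0 := by
    intro g1 g2 g3 g4
    rw [if_neg n1, if_pos ⟨g1, g2, g3, g4⟩] at habs
    have e1 := H3_ratio hs g3 hWV hSI
    have e2 : (r.1 : ℝ) = 0 := by linarith
    exact_mod_cast e2
  obtain ⟨s'', c₁', c₂', c₃', hs'', hSI', hL⟩ := hS X D s c₁ c₂ c₃ r V t ht hs hSI n1 n2
  have hss : s'' = s' := tendsto_nhds_unique hSI'.1.tendsto hW'.1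
  subst hss
  refine ⟨c₁', c₂', c₃', nxt X t r, hSI', ?_⟩
  have he : 2 ≤ |t.1 - t.2.1| := ht.2.2.2
  obtain ⟨a1, a2, a3, a4⟩ := hA r hr
  have hrX : X = 2 → r = (0, 0, 0, 0) := fun h => (hSI.2.1 h).1
  -- the combinatorial inequality
  suffices hc : nxt X t r ∈ S ∧ (if ty t = 2 then 24 else 18) + pot (nxt X t r) ≤ pot r + cst X t r by
    refine ⟨hc.1, ?_⟩
    rw [hL]
    have h5 : (((if ty t = 2 then 24 else 18) + pot (nxt X t r) : ℤ) : ℝ) ≤ ((pot r + cst X t r : ℤ) : ℝ) :=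
      Int.cast_le.2 hc.2
    push_cast at h5 ⊢
    linarith
  unfold nxt cst
  by_cases hty : ty t = 2
  · simp only [hty, if_true, or_true, true_or]
    refine ⟨h0, ?_⟩
    rw [hp0]
    linarith
  · simp only [hty, if_false, false_or]
    by_cases hc : 0 < t.2.2 ∨ X = 2
    · simp only [hc, if_true]
      refine ⟨(hnf _ he).1, ?_⟩
      rw [(hnf _ he).2]
      linarith
    · simp only [hc, if_false]
      push Not at hc
      have hb : t.2.2 < 0 := by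
        have h6 := ht.2.2.1
        rcases lt_or_eq_of_le hc.1 with h7 | h7
        · exact h7
        · rw [h7] at h6
          norm_num at h6
      by_cases hX : X = ty t
      · simp only [hX, if_true]
        refine ⟨((a4 _ he).1).1, ?_⟩
        have := ((a4 _ he).1).2
        linarith
      · simp only [hX, if_false]
        have h7 := n2 hb hty hc.2 (fun h => hX h.symm)
        refine ⟨((a4 _ he).2 h7).1, ?_⟩
        have := ((a4 _ he).2 h7).2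
        linarith

theorem H3_fold (hW : St_W) (hS : St_S) {S : Finset (ℤ × ℤ × ℤ × ℤ)} (h0 : ((0, 0, 0, 0) : ℤ × ℤ × ℤ × ℤ) ∈ S)
    (hnf : ∀ e, 2 ≤ e → nf e ∈ S ∧ pot (nf e) = 0) (hp0 : pot (0, 0, 0, 0) = 0)
    (hA : ∀ r ∈ S, 0 ≤ r.1 ∧ 0 ≤ pot r + cf r ∧ 0 ≤ pot r ∧ ∀ e, 2 ≤ e →
      (ng e r ∈ S ∧ pot (ng e r) ≤ pot r + cg r) ∧ (r.1 = 0 → nh e r ∈ S ∧ pot (nh e r) ≤ pot r + ch r))
    (β : List (ℤ × ℤ × ℤ)) : ∀ {X : Fin 3} {D B : ℤ} {V : ℝ → Fin 3 → ℝ}, (∀ x ∈ β, Hyp x) →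
      H3_Good S X D B V → ∃ B' : ℤ, B + 18 * β.length ≤ B' ∧
        H3_Good S (H3_lt X β) (D + dg X β) B' (H3_run β V) := by
  induction β with
  | nil =>
    intro X D B V _ h
    refine ⟨B, by simp, ?_⟩
    simpa only [H3_lt, dg, add_zero, H3_run_nil] using h
  | cons t β ih =>
    intro X D B V hβ h
    have h1 := H3_step hW hS h0 hnf hp0 hA t (hβ t (by simp)) h
    obtain ⟨B', hB', h2⟩ := ih (fun x hx => hβ x (by simp [hx])) h1
    refine ⟨B', ?_, ?_⟩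
    · simp only [List.length_cons]
      push_cast
      split_ifs at hB' <;> linarith
    · simpa only [H3_lt, dg, add_assoc, H3_run_cons] using h2

theorem H3_foldW (hW : St_W) (β : List (ℤ × ℤ × ℤ)) : ∀ {X : Fin 3} {D : ℤ} {s κ : ℝ} {V : ℝ → Fin 3 → ℝ},
    (∀ x ∈ β, Hyp x) → s ≠ 0 → WInv X D s κ V →
      ∃ s' κ' : ℝ, s' ≠ 0 ∧ WInv (H3_lt X β) (D + dg X β) s' κ' (H3_run β V) := by
  induction β with
  | nil =>
    intro X D s κ V _ hs h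
    refine ⟨s, κ, hs, ?_⟩
    simpa only [H3_lt, dg, add_zero, H3_run_nil] using h
  | cons t β ih =>
    intro X D s κ V hβ hs h
    obtain ⟨s', κ', h1, h2⟩ := hW X D s κ V t (hβ t (by simp)) hs h
    have hκ := h.2.1
    have hs' : s' ≠ 0 := by
      intro h3
      rw [h3, abs_zero] at h2
      have h4 : 0 < |s| := abs_pos.2 hs
      split_ifs at h2 <;> nlinarith
    obtain ⟨s'', κ'', h3, h4⟩ := ih (fun x hx => hβ x (by simp [hx])) hs' h1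
    refine ⟨s'', κ'', h3, ?_⟩
    simpa only [H3_lt, dg, add_assoc, H3_run_cons] using h4

/-! ### the start vectors -/

/-- the constant unit vector -/
def H3_e (i : Fin 3) : ℝ → Fin 3 → ℝ := fun _ => Pi.single i 1

theorem H3_run_e (β : List (ℤ × ℤ × ℤ)) (i : Fin 3) (w : ℝ) :
    H3_run β (H3_e i) w i = (β.map (B3 w)).prod i i := by
  simp [H3_run, H3_e]

theorem H3_tr (β : List (ℤ × ℤ × ℤ)) (w : ℝ) :
    tr3 β w = H3_run β (H3_e 0) w 0 + H3_run β (H3_e 1) w 1 + H3_run β (H3_e 2) w 2 := by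
  rw [H3_run_e, H3_run_e, H3_run_e, tr3, Matrix.trace_fin_three]

theorem H3_startW {i : Fin 3} (hi : i ≠ 2) : WInv i 0 1 0 (H3_e i) := by
  refine ⟨?_, le_rfl, fun h => absurd h hi, fun _ => ⟨?_, ?_⟩⟩
  · simp [H3_e]
  · have : sw i ≠ i := by
      fin_cases i <;> simp_all [sw]
    simp [H3_e, this]
  · have : (2 : Fin 3) ≠ i := fun h => hi h.symm
    simp only [H3_e, Pi.single_eq_of_ne this, mul_zero]
    exact isBigO_zero _ _

theorem H3_start {S : Finset (ℤ × ℤ × ℤ × ℤ)} (h0 : ((0, 0, 0, 0) : ℤ × ℤ × ℤ × ℤ) ∈ S)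
    (hp0 : pot (0, 0, 0, 0) = 0) : H3_Good S 2 0 0 (H3_e 2) := by
  have e0 : (0 : Fin 3) ≠ 2 := by decide
  have e1 : (1 : Fin 3) ≠ 2 := by decide
  have hO : (fun w : ℝ => w ^ (0 : ℤ) * H3_e 2 w 0) =O[𝓝[>] (0 : ℝ)] fun w => w ^ 5 := by
    simp only [H3_e, Pi.single_eq_of_ne e0, mul_zero]
    exact isBigO_zero _ _
  have hO' : (fun w : ℝ => w ^ (0 : ℤ) * H3_e 2 w 1) =O[𝓝[>] (0 : ℝ)] fun w => w ^ 5 := by
    simp only [H3_e, Pi.single_eq_of_ne e1, mul_zero]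
    exact isBigO_zero _ _
  refine ⟨1, 0, by norm_num, ⟨?_, le_rfl, fun _ => ⟨hO, hO'⟩, fun h => absurd rfl h⟩, fun _ => ?_⟩
  · simp [H3_e]
  · refine ⟨0, 0, 0, (0, 0, 0, 0), ⟨?_, fun _ => ⟨rfl, hO, hO'⟩, fun h => absurd rfl h⟩, h0, ?_⟩
    · unfold Hd
      simp only [H3_e, Pi.single_eq_same, zpow_zero]
      refine (isBigO_zero (fun w : ℝ => w ^ 4) (𝓝[>] (0 : ℝ))).congr_left fun w => ?_
      ring
    · rw [hp0]
      unfold Lf
      norm_num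

/-! ### the theorem -/

/-- **Module H3** -/
theorem thm_H3 (hW : St_W) (hS : St_S) (hA : St_A) : St_H3 := by
  intro β t hyp ht1 ht2
  obtain ⟨S, h0, hnf, hp0, hA⟩ := hA
  have hty : ty t = 2 := (ty_two_iff t).2 ⟨ht1, ht2⟩
  have hβ : ∀ x ∈ β, Hyp x := fun x hx => hyp x (by simp [hx])
  have htH : Hyp t := hyp t (by simp)
  obtain ⟨B, hB, hG⟩ := H3_fold hW hS h0 hnf hp0 hA β hβ (H3_start h0 hp0)
  have hG' := H3_step hW hS h0 hnf hp0 hA t htH hG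
  rw [hty, if_pos rfl, add_assoc, ← H3_dg_snoc, ← H3_run_snoc, zero_add] at hG'
  obtain ⟨s, κ, hs1, hWV, hSV⟩ := hG'
  set D := dg 2 (β ++ [t]) with hD
  -- the two other diagonal entries
  have hother : ∀ i : Fin 3, i ≠ 2 →
      (fun w : ℝ => w ^ D * H3_run (β ++ [t]) (H3_e i) w i) =O[𝓝[>] (0 : ℝ)] fun w => w ^ 4 := by
    intro i hi
    obtain ⟨s', κ', hs', h2⟩ := H3_foldW hW β hβ one_ne_zero (H3_startW hi)
    obtain ⟨s'', κ'', h3, _⟩ := hW _ _ _ _ _ t htH hs' h2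
    rw [hty, add_assoc, ← H3_dg_snoc, ← H3_run_snoc, zero_add] at h3
    have h4 := h3.2.2.1 rfl
    have h5 : (fun w : ℝ => w ^ (dg i (β ++ [t])) * H3_run (β ++ [t]) (H3_e i) w i) =O[𝓝[>] (0 : ℝ)]
        fun w => w ^ 5 := by
      have h6 : i = 0 ∨ i = 1 := by
        fin_cases i <;> simp_all
      rcases h6 with rfl | rfl
      · exact h4.1
      · exact h4.2
    have h6 := dg_le (β ++ [t]) i 2
    have h7 := IsBigO.mul (isBigO_refl (fun w : ℝ => w ^ (-1 : ℤ)) (𝓝[>] (0 : ℝ))) h5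
    have h8 : (fun w : ℝ => w ^ (D + 1 - dg i (β ++ [t]))) =O[𝓝[>] (0 : ℝ)] fun w => w ^ 0 :=
      O_zpow (by push_cast; omega)
    have h9 := IsBigO.mul h8 h7
    refine IsBigO.congr' h9 ?_ ?_
    · filter_upwards [ev_pos] with w hw
      rw [← mul_assoc, ← mul_assoc, ← zpow_add₀ hw.ne', ← zpow_add₀ hw.ne']
      congr 2
      ring
    · filter_upwards [ev_pos] with w hw
      rw [_root_.zpow_neg_one]
      field_simp
  have hQ := Hd_one_sub_Q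
  have hsum : ∀ w, F3 (β ++ [t]) w = (1 - w + w ^ 2) / w * (H3_run (β ++ [t]) (H3_e 2) w 2 +
      (H3_run (β ++ [t]) (H3_e 0) w 0 + H3_run (β ++ [t]) (H3_e 1) w 1)) := by
    intro w
    rw [F3, H3_tr]
    ring
  have hsm : (fun w : ℝ => w ^ D * (H3_run (β ++ [t]) (H3_e 0) w 0 + H3_run (β ++ [t]) (H3_e 1) w 1))
      =O[𝓝[>] (0 : ℝ)] fun w => w ^ 4 := by
    refine ((hother 0 (by decide)).add (hother 1 (by decide))).congr_left fun w => ?_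
    ring
  refine ⟨s, D + 1, ?_, hs1, fun hs => ?_, ?_⟩
  · have h1 := hWV.1
    have h2 := O_tendsto_zero (k := 4) (by norm_num) hsm
    have h3 := hQ.tendsto.mul (h1.add h2)
    rw [add_zero, one_mul] at h3
    refine h3.congr' ?_
    filter_upwards [ev_pos] with w hw
    rw [hsum, zpow_one, zpow_add₀ hw.ne', zpow_one]
    ring
  · obtain ⟨c₁, c₂, c₃, r, hSI, hr, hL⟩ := hSV hs
    have h1 := hQ.mul (hSI.1.add_small hsm)
    have h2 := h1.congr (g := F3 (β ++ [t])) (Eventually.of_forall fun w => (hsum w).symm)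
    rw [one_mul, add_comm (1 : ℤ) D] at h2
    refine ⟨_, _, _, h2, ?_⟩
    rw [Lf_mul, Lf_one_sub_Q, zero_add]
    have h3 := (hA r hr).2.2.1
    have h4 : (0 : ℝ) ≤ pot r := by exact_mod_cast h3
    have h5 : ((0 + 18 * (β.length : ℤ) : ℤ) : ℝ) ≤ (B : ℝ) := by exact_mod_cast hB
    simp only [List.length_append, List.length_cons, List.length_nil]
    push_cast at h5 hL ⊢
    linarith
  · have h1 := dg_ge hyp 2
    omega

end Pool.Agent.FB.W8
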