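import Mathlib
import Pool.Agent.FB.W8.St
import Pool.Agent.FB.TOP

/-!
# FB/W8, module KEY: the identity of the two traces for a braid with `f = 1`
-/

set_option autoImplicit false

namespace Pool.Agent.FB.W8

open LaurentPolynomial Pool.RU Matrix
open Pool.Agent.FB.U5 (wts)

/-! ### the value of `A` -/

/-- the loop value -/
private noncomputable def KEY_dl (A : ℂ) : ℂ := -A ^ 2 - A⁻¹ ^ 2

/-- the weight -/
private noncomputable def KEY_q0 (A : ℂ) : ℂ := -A⁻¹ ^ 4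

/-- `1 + A ^ (-2 ε) δ = q ^ ε` -/
private theorem KEY_one_add {A : ℂ} (hA : A ≠ 0) (ε : ℤˣ) :
    1 + A ^ (-2 * (ε : ℤ)) * KEY_dl A = KEY_q0 A ^ (ε : ℤ) := by
  unfold KEY_dl KEY_q0
  rcases Int.units_eq_one_or ε with rfl | rfl
  · have e1 : A ^ (-2 * ((1 : ℤˣ) : ℤ)) = (A ^ 2)⁻¹ := by
      rw [Units.val_one, mul_one, _root_.zpow_neg]
      norm_cast
    rw [e1, Units.val_one, zpow_one]
    field_simp
    ring
  · have e1 : A ^ (-2 * ((-1 : ℤˣ) : ℤ)) = A ^ 2 := by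
      norm_num
    rw [e1]
    have e2 : (-A⁻¹ ^ 4 : ℂ) ^ ((-1 : ℤˣ) : ℤ) = -A ^ 4 := by
      rw [Units.val_neg, Units.val_one, _root_.zpow_neg_one, inv_pow, inv_neg, inv_inv]
    rw [e2]
    field_simp
    ring

section

variable {R : Type} [Ring R] [Algebra ℂ R]

private theorem KEY_fac_eq {A : ℂ} (hA : A ≠ 0) (e : Fin 3 → R) (i : Fin 3) (ε : ℤˣ) :
    TOP_fac A e (i, ε) = A ^ (ε : ℤ) • (1 + A ^ (-2 * (ε : ℤ)) • e i) := by
  unfold TOP_fac
  rw [smul_add, smul_smul, ← zpow_add₀ hA]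
  congr 3
  ring

/-- the block factor of a syllable -/
private noncomputable def KEY_blk (A : ℂ) (e : Fin 3 → R) (i : Fin 3) (a : ℤ) : R :=
  1 + ((KEY_q0 A ^ a - 1) / KEY_dl A) • e i

private theorem KEY_syllable {A : ℂ} (hA : A ≠ 0) (hδ : KEY_dl A ≠ 0) (e : Fin 3 → R)
    (he : ∀ i, e i * e i = KEY_dl A • e i) (i : Fin 3) (a : ℤ) :
    ((syllable i a).map (TOP_fac A e)).prod = A ^ a • KEY_blk A e i a := by
  unfold syllable
  set ε : ℤˣ := if 0 ≤ a then 1 else -1 with hε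
  have h1 : (ε : ℤ) * (a.natAbs : ℤ) = a := by
    rw [hε]
    split_ifs with h
    · rw [Units.val_one, one_mul]
      omega
    · rw [Units.val_neg, Units.val_one]
      omega
  rw [List.map_replicate, List.prod_replicate, KEY_fac_eq hA, smul_pow, TOP_pow _ _ hδ _ (he i),
    KEY_one_add hA, ← zpow_natCast, ← _root_.zpow_mul, h1, ← zpow_natCast,
    ← _root_.zpow_mul, h1]
  rfl

private theorem KEY_word {A : ℂ} (hA : A ≠ 0) (hδ : KEY_dl A ≠ 0) (e : Fin 3 → R)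
    (he : ∀ i, e i * e i = KEY_dl A • e i) (β : List (ℤ × ℤ × ℤ)) :
    ((word β).map (TOP_fac A e)).prod = A ^ TOP_tot β •
      (β.map fun t => KEY_blk A e 1 t.2.2 * (KEY_blk A e 0 t.1 * KEY_blk A e 2 t.2.1)).prod := by
  induction β with
  | nil => simp [word, TOP_tot]
  | cons t β ih =>
    have h1 : word (t :: β) = syllable 1 t.2.2 ++ (syllable 0 t.1 ++ syllable 2 t.2.1) ++ word β := by
      unfold word
      rw [List.map_cons, List.flatten_cons]
    have h2 : TOP_tot (t :: β) = (t.2.2 + (t.1 + t.2.1)) + TOP_tot β := by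
      unfold TOP_tot
      rw [List.map_cons, List.sum_cons]
    rw [h1, h2, List.map_append, List.map_append, List.map_append, List.prod_append,
      List.prod_append, List.prod_append, ih, KEY_syllable hA hδ e he, KEY_syllable hA hδ e he,
      KEY_syllable hA hδ e he, List.map_cons, List.prod_cons, zpow_add₀ hA,
      zpow_add₀ hA, zpow_add₀ hA]
    simp only [smul_mul_smul_comm]

end

/-! ### the theorem -/

private theorem KEY_val_T (A : ℂˣ) (k : ℤ) : ev A (T k) = (A : ℂ) ^ k := by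
  unfold ev
  rw [LaurentPolynomial.eval₂_T, Units.val_zpow_eq_zpow_val]

private theorem KEY_ev (A : ℂˣ) (f : ℤ[T;T⁻¹]) :
    ev A f = LaurentPolynomial.eval₂ (Int.castRingHom ℂ) A f := rfl

private theorem KEY_bracket (A : ℂˣ) (w : List (Fin 3 × ℤˣ)) :
    KEY_dl A * ev A (trivialClosure.insert w).bracket =
      TOP_S A w fun u => KEY_dl A ^ TOP_L u := by
  rw [← TOP_S_state]
  have h1 : ev A (trivialClosure.insert w).bracket =
      ∑ s : Fin (0 + w.length) → Bool, (∏ x, (A : ℂ) ^ (if s x then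
        ((trivialClosure.insert w).kind x : ℤ) else -((trivialClosure.insert w).kind x : ℤ))) *
          KEY_dl A ^ ((trivialClosure.insert w).curves (ways s) - 1) := by
    unfold Diagram.bracket
    have hd : ev A (-T 2 - T (-2)) = KEY_dl A := by
      rw [KEY_ev, map_sub, map_neg, ← KEY_ev, ← KEY_ev, KEY_val_T, KEY_val_T, _root_.zpow_neg]
      unfold KEY_dl
      rw [inv_pow]
      norm_cast
    rw [KEY_ev, map_sum]
    refine Finset.sum_congr rfl fun s _ => ?_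
    rw [map_mul, map_pow, map_prod, ← KEY_ev, hd]
    congr 1
    refine Finset.prod_congr rfl fun x _ => ?_
    rw [← KEY_ev, KEY_val_T]
  rw [h1, Finset.mul_sum]
  refine Finset.sum_congr rfl fun s _ => ?_
  rw [← TOP_curves w s, mul_left_comm, ← pow_succ',
    Nat.sub_add_cancel (curves_pos (trivialClosure.insert w) (ways s))]

private theorem KEY_EE (A : ℂˣ) (hδ : KEY_dl A ≠ 0) (β : List (ℤ × ℤ × ℤ)) :
    KEY_dl A * ev A (closure β).bracket =
      (A : ℂ) ^ TOP_tot β * U5.EE (KEY_dl A ^ 2) (β.map (wts (KEY_q0 A))) := by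
  have hA : (A : ℂ) ≠ 0 := A.ne_zero
  set δ : ℂ := KEY_dl A with hδd
  have e0 : (fun u => δ ^ TOP_L u) = fun u => (δ ^ 4 - 3 * δ ^ 2 + 1) * TOP_one u +
      ((δ ^ 2 - 1) * TOP_tr (TOP_E3 δ) u + TOP_tr (TOP_E2 δ) u) := by
    funext u
    exact TOP_curves_eq δ hδ u
  -- the three parts
  have p1 : TOP_S A (word β) TOP_one = (A : ℂ) ^ TOP_tot β := by
    have h2 := TOP_S_rep A (fun _ => (0 : ℂ)) (word β) LinearMap.id
    have h3 := KEY_word hA hδ (fun _ => (0 : ℂ)) (fun i => by simp) β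
    have h4 : (fun u : List (Fin 3) => (LinearMap.id : ℂ →ₗ[ℂ] ℂ) (u.map fun _ => (0 : ℂ)).prod) =
        TOP_one := rfl
    rw [h4] at h2
    rw [h2, LinearMap.id_apply, h3]
    have h5 : ∀ t : ℤ × ℤ × ℤ, KEY_blk (A : ℂ) (fun _ => (0 : ℂ)) 1 t.2.2 *
        (KEY_blk (A : ℂ) (fun _ => (0 : ℂ)) 0 t.1 * KEY_blk (A : ℂ) (fun _ => (0 : ℂ)) 2 t.2.1) =
          1 := by
      intro t
      simp [KEY_blk]
    simp only [h5]
    simp
  have p3 : TOP_S A (word β) (TOP_tr (TOP_E3 δ)) = (A : ℂ) ^ TOP_tot β *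
      ((β.map (wts (KEY_q0 A))).map (U5.T3 (δ ^ 2))).prod.trace := by
    have h2 := TOP_S_rep A (TOP_E3 δ) (word β) (Matrix.traceLinearMap (Fin 3) ℂ ℂ)
    have h3 := KEY_word hA hδ (TOP_E3 δ) (TOP_TL3 δ hδ).1 β
    have h4 : (fun u : List (Fin 3) => Matrix.traceLinearMap (Fin 3) ℂ ℂ (u.map (TOP_E3 δ)).prod) =
        TOP_tr (TOP_E3 δ) := rfl
    rw [h4] at h2
    rw [h2, h3, map_smul, smul_eq_mul, Matrix.traceLinearMap_apply, List.map_map]
    congr 4
    funext t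
    unfold U5.T3 KEY_blk
    simp only [Function.comp_apply, wts]
    ext a b
    fin_cases a <;> fin_cases b <;>
      simp [TOP_E3, Matrix.mul_apply, Fin.sum_univ_three, Matrix.diagonal, ← hδd] <;>
      field_simp <;> ring
  have p2 : TOP_S A (word β) (TOP_tr (TOP_E2 δ)) = (A : ℂ) ^ TOP_tot β *
      ((β.map (wts (KEY_q0 A))).map (U5.T2 (δ ^ 2))).prod.trace := by
    have h2 := TOP_S_rep A (TOP_E2 δ) (word β) (Matrix.traceLinearMap (Fin 2) ℂ ℂ)
    have h3 := KEY_word hA hδ (TOP_E2 δ) (TOP_TL2 δ hδ).1 β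
    have h4 : (fun u : List (Fin 3) => Matrix.traceLinearMap (Fin 2) ℂ ℂ (u.map (TOP_E2 δ)).prod) =
        TOP_tr (TOP_E2 δ) := rfl
    rw [h4] at h2
    rw [h2, h3, map_smul, smul_eq_mul, Matrix.traceLinearMap_apply, List.map_map]
    congr 4
    funext t
    unfold U5.T2 KEY_blk
    simp only [Function.comp_apply, wts]
    ext a b
    fin_cases a <;> fin_cases b <;>
      simp [TOP_E2, Matrix.mul_apply, Fin.sum_univ_two, Matrix.diagonal, ← hδd] <;>
      field_simp <;> ring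
  unfold closure
  rw [KEY_bracket, ← hδd, e0, TOP_S_add, TOP_S_mul, TOP_S_add, TOP_S_mul, p1, p2, p3]
  unfold U5.EE
  ring

/-! ### real values -/

private theorem KEY_tot (β : List (ℤ × ℤ × ℤ)) : TOP_tot β = tot β := by
  unfold TOP_tot tot
  congr 1
  refine List.map_congr_left fun t _ => ?_
  ring

/-- what `f = 1` says at a real number `q` -/
private theorem KEY_q (β : List (ℤ × ℤ × ℤ)) (o : Tip 3 (0 + (word β).length) → Bool)
    (hw : (closure β).writhe o = tot β) (hn : (closure β).normalized o = 1) (q : ℝ) (hq : 0 < q)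
    (hq1 : q ≠ 1) :
    ‖U5.EE (((2 - q - 1 / q : ℝ)) : ℂ) (β.map (wts (q : ℂ)))‖ ^ 2 =
      (1 - q) ^ 2 / q * q ^ (-tot β) := by
  set x : ℝ := q ^ (-(1 / 4) : ℝ) with hx
  have hx0 : 0 < x := Real.rpow_pos_of_pos hq _
  have hx4 : x ^ 4 = q⁻¹ := by
    rw [hx, ← Real.rpow_natCast, ← Real.rpow_mul hq.le, ← Real.rpow_neg_one]
    congr 1
    norm_num
  set a : ℂ := Complex.exp (((Real.pi / 4 : ℝ) : ℂ) * Complex.I) * (x : ℂ) with ha
  have hxc : (x : ℂ) ≠ 0 := Complex.ofReal_ne_zero.2 hx0.ne'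
  have ha0 : a ≠ 0 := mul_ne_zero (Complex.exp_ne_zero _) hxc
  have hqc : (q : ℂ) ≠ 0 := Complex.ofReal_ne_zero.2 hq.ne'
  have ha4 : a ^ 4 = -(q : ℂ)⁻¹ := by
    rw [ha, mul_pow, ← Complex.exp_nat_mul]
    have e1 : ((4 : ℕ) : ℂ) * (((Real.pi / 4 : ℝ) : ℂ) * Complex.I) = (Real.pi : ℂ) * Complex.I := by
      push_cast
      ring
    have e2 : ((x : ℂ)) ^ 4 = (q : ℂ)⁻¹ := by
      rw [← Complex.ofReal_pow, hx4, Complex.ofReal_inv]
    rw [e1, Complex.exp_pi_mul_I, e2]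
    ring
  have hna : ‖a‖ = x := by
    rw [ha, norm_mul, Complex.norm_exp_ofReal_mul_I, one_mul, Complex.norm_real, Real.norm_eq_abs,
      abs_of_pos hx0]
  let A : ℂˣ := Units.mk0 a ha0
  have hA : (A : ℂ) = a := rfl
  have hqA : KEY_q0 (A : ℂ) = (q : ℂ) := by
    unfold KEY_q0
    rw [hA, inv_pow, ha4, inv_neg, inv_inv, neg_neg]
  have hd2 : KEY_dl (A : ℂ) ^ 2 = (((2 - q - 1 / q : ℝ)) : ℂ) := by
    unfold KEY_dl
    rw [hA]
    have e1 : (-a ^ 2 - a⁻¹ ^ 2) ^ 2 = a ^ 4 + 2 + (a ^ 4)⁻¹ := by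
      field_simp
      ring
    rw [e1, ha4, inv_neg, inv_inv]
    push_cast
    rw [one_div]
    ring
  have hQ : (2 - q - 1 / q : ℝ) = -((1 - q) ^ 2 / q) := by
    field_simp
    ring
  have hQpos : 0 < (1 - q) ^ 2 / q := by
    have : 1 - q ≠ 0 := sub_ne_zero.2 hq1.symm
    positivity
  have hdl : KEY_dl (A : ℂ) ≠ 0 := by
    intro h
    rw [h, hQ] at hd2
    have : -((1 - q) ^ 2 / q) = 0 := by
      have h3 : (((-((1 - q) ^ 2 / q) : ℝ)) : ℂ) = 0 := by rw [← hd2]; norm_num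
      exact_mod_cast h3
    linarith
  have h2 := congrArg norm (KEY_EE A hdl β)
  rw [norm_mul, norm_mul, norm_zpow, hd2, hqA, hA, hna, KEY_tot] at h2
  have h3 : ‖ev A ((closure β).normalized o)‖ =
      ‖(A : ℂ)‖ ^ (-3 * (closure β).writhe o) * ‖ev A (closure β).bracket‖ := by
    unfold Diagram.normalized
    rw [KEY_ev, map_mul, map_mul, norm_mul, norm_mul, ← KEY_ev, ← KEY_ev, ← KEY_ev, KEY_val_T,
      norm_zpow]
    have h4 : ‖ev A (C (((-1 : ℤˣ) ^ (closure β).writhe o : ℤˣ) : ℤ))‖ = 1 := by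
      rw [KEY_ev, LaurentPolynomial.eval₂_C]
      rcases Int.units_eq_one_or ((-1 : ℤˣ) ^ (closure β).writhe o) with h | h
      · rw [h]
        simp
      · rw [h]
        simp
    rw [h4, one_mul]
  have h5 : ‖ev A ((closure β).normalized o)‖ = 1 := by
    rw [hn, KEY_ev, map_one, norm_one]
  rw [h5, hw, hA, hna] at h3
  -- the bracket
  have h6 : ‖ev A (closure β).bracket‖ = x ^ (3 * tot β) := by
    have e1 : x ^ (3 * tot β) * x ^ (-3 * tot β) = 1 := by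
      rw [← zpow_add₀ hx0.ne']
      have : 3 * tot β + -3 * tot β = 0 := by ring
      rw [this, zpow_zero]
    calc ‖ev A (closure β).bracket‖ =
        (x ^ (3 * tot β) * x ^ (-3 * tot β)) * ‖ev A (closure β).bracket‖ := by rw [e1, one_mul]
      _ = x ^ (3 * tot β) * (x ^ (-3 * tot β) * ‖ev A (closure β).bracket‖) := by ring
      _ = x ^ (3 * tot β) := by rw [← h3, mul_one]
  rw [h6] at h2
  have h7 : ‖U5.EE (((2 - q - 1 / q : ℝ)) : ℂ) (β.map (wts (q : ℂ)))‖ =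
      ‖KEY_dl a‖ * x ^ (2 * tot β) := by
    have hne : x ^ tot β ≠ 0 := zpow_ne_zero _ hx0.ne'
    apply mul_left_cancel₀ hne
    rw [← h2]
    have e1 : x ^ (3 * tot β) = x ^ tot β * x ^ (2 * tot β) := by
      rw [← zpow_add₀ hx0.ne']
      congr 1
      ring
    rw [e1]
    ring
  rw [hA] at hd2
  rw [h7, mul_pow, ← norm_pow, hd2, hQ, Complex.norm_real, Real.norm_eq_abs, abs_neg,
    abs_of_pos hQpos]
  congr 1
  have e1 : (x ^ (2 * tot β)) ^ 2 = (x ^ 4) ^ (tot β) := by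
    rw [← zpow_natCast (x ^ (2 * tot β)) 2, ← _root_.zpow_mul, ← zpow_natCast x 4,
      ← _root_.zpow_mul]
    congr 1
    push_cast
    ring
  rw [e1, hx4, _root_.inv_zpow, _root_.zpow_neg]

/-! ### the real matrices -/

private theorem KEY_u (w : ℝ) (h0 : 0 < w) (h1 : w < 1) : Qw w ≠ 0 ∧ u w = (Qw w)⁻¹ := by
  have h2 : (1 - w) ≠ 0 := by linarith
  constructor
  · unfold Qw
    exact div_ne_zero (neg_ne_zero.2 (pow_ne_zero _ h2)) h0.ne'
  · unfold u Qw
    field_simp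

private theorem KEY_B3 (w : ℝ) (h0 : 0 < w) (h1 : w < 1) (t : ℤ × ℤ × ℤ) (s : ℂ × ℂ × ℂ)
    (hs : s = (((w ^ (-t.1) : ℝ) : ℂ), ((w ^ (-t.2.1) : ℝ) : ℂ), ((w ^ (-t.2.2) : ℝ) : ℂ))) :
    U5.T3 ((Qw w : ℝ) : ℂ) s = Complex.ofRealHom.mapMatrix (B3 w t) := by
  obtain ⟨hQ, hu⟩ := KEY_u w h0 h1
  have hQc : ((Qw w : ℝ) : ℂ) ≠ 0 := Complex.ofReal_ne_zero.2 hQ
  subst hs
  unfold U5.T3 B3
  rw [hu]
  ext i j
  fin_cases i <;> fin_cases j <;>
    simp [Matrix.mul_apply, Matrix.diagonal] <;> field_simp <;> simp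

private theorem KEY_B2 (w : ℝ) (h0 : 0 < w) (h1 : w < 1) (t : ℤ × ℤ × ℤ) (s : ℂ × ℂ × ℂ)
    (hs : s = (((w ^ (-t.1) : ℝ) : ℂ), ((w ^ (-t.2.1) : ℝ) : ℂ), ((w ^ (-t.2.2) : ℝ) : ℂ))) :
    U5.T2 ((Qw w : ℝ) : ℂ) s = Complex.ofRealHom.mapMatrix (B2 w (t.1 + t.2.1, t.2.2)) := by
  obtain ⟨hQ, hu⟩ := KEY_u w h0 h1
  have hQc : ((Qw w : ℝ) : ℂ) ≠ 0 := Complex.ofReal_ne_zero.2 hQ
  have hwc : (w : ℂ) ≠ 0 := Complex.ofReal_ne_zero.2 h0.ne'
  have hz : w ^ (-(t.1 + t.2.1)) = w ^ (-t.1) * w ^ (-t.2.1) := by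
    rw [← zpow_add₀ h0.ne']
    congr 1
    ring
  subst hs
  unfold U5.T2 B2
  rw [hu]
  simp only [hz]
  ext i j
  fin_cases i <;> fin_cases j <;>
    simp [Matrix.mul_apply, Matrix.diagonal] <;> field_simp <;> simp

private theorem KEY_trace {n : ℕ} (M : Matrix (Fin n) (Fin n) ℝ) :
    (Complex.ofRealHom.mapMatrix M).trace = ((M.trace : ℝ) : ℂ) := by
  simp [Matrix.trace]

/-- `U5.EE` is the cast of the real expression -/
private theorem KEY_cast (w : ℝ) (h0 : 0 < w) (h1 : w < 1) (β β' : List (ℤ × ℤ × ℤ)) (q : ℂ)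
    (m : ℤ × ℤ × ℤ → ℤ × ℤ × ℤ) (hβ : β' = β.map m)
    (hq : ∀ t, wts q t = (((w ^ (-(m t).1) : ℝ) : ℂ), ((w ^ (-(m t).2.1) : ℝ) : ℂ),
      ((w ^ (-(m t).2.2) : ℝ) : ℂ))) :
    U5.EE ((Qw w : ℝ) : ℂ) (β.map (wts q)) =
      ((Qw w ^ 2 - 3 * Qw w + 1 - F3 β' w + tr2 β' w : ℝ) : ℂ) := by
  have e3 : (((β.map (wts q)).map (U5.T3 ((Qw w : ℝ) : ℂ))).prod).trace = ((tr3 β' w : ℝ) : ℂ) := by
    unfold tr3
    rw [← KEY_trace, map_list_prod, hβ, List.map_map, List.map_map, List.map_map]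
    congr 2
    refine List.map_congr_left fun t _ => ?_
    exact KEY_B3 w h0 h1 (m t) _ (hq t)
  have e2 : (((β.map (wts q)).map (U5.T2 ((Qw w : ℝ) : ℂ))).prod).trace = ((tr2 β' w : ℝ) : ℂ) := by
    unfold tr2 trB pr
    rw [← KEY_trace, map_list_prod, hβ, List.map_map, List.map_map, List.map_map, List.map_map]
    congr 2
    refine List.map_congr_left fun t _ => ?_
    exact KEY_B2 w h0 h1 (m t) _ (hq t)
  unfold U5.EE
  rw [e3, e2]
  have hF : F3 β' w = (1 - Qw w) * tr3 β' w := by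
    unfold F3 Qw
    have : w ≠ 0 := h0.ne'
    field_simp
    ring
  rw [hF]
  push_cast
  ring

private theorem KEY_mir (β : List (ℤ × ℤ × ℤ)) : tot (mir β) = -tot β := by
  unfold tot mir
  rw [List.map_map]
  induction β with
  | nil => simp
  | cons t β ih =>
    rw [List.map_cons, List.map_cons, List.sum_cons, List.sum_cons, ih]
    simp only [Function.comp_apply]
    ring

/-- **Module KEY** -/
theorem thm_Key : St_Wr → St_Key := by
  intro hW β o ho hk hn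
  have hw := hW β o ho hk
  constructor
  · intro w h0 h1
    have hq : (0 : ℝ) < w⁻¹ := inv_pos.2 h0
    have hq1 : w⁻¹ ≠ 1 := by
      intro h
      exact h1.ne (inv_eq_one.1 h)
    have h2 := KEY_q β o hw hn w⁻¹ hq hq1
    have hQ : (2 - w⁻¹ - 1 / w⁻¹ : ℝ) = Qw w := by
      unfold Qw
      have : w ≠ 0 := h0.ne'
      field_simp
      ring
    rw [hQ, KEY_cast w h0 h1 β β _ id (by simp) (fun t => by
      unfold wts
      simp [_root_.zpow_neg]), Complex.norm_real, Real.norm_eq_abs, sq_abs] at h2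
    rw [h2, zpow_sub_one₀ h0.ne', _root_.inv_zpow, _root_.zpow_neg, inv_inv]
    have : w ≠ 0 := h0.ne'
    field_simp
    ring
  · intro w h0 h1
    have h2 := KEY_q β o hw hn w h0 h1.ne
    have hQ : (2 - w - 1 / w : ℝ) = Qw w := by
      unfold Qw
      have : w ≠ 0 := h0.ne'
      field_simp
      ring
    have ht := KEY_mir β
    rw [hQ, KEY_cast w h0 h1 β (mir β) _ (fun t => (-t.1, -t.2.1, -t.2.2)) rfl (fun t => by
      unfold wts
      simp), Complex.norm_real, Real.norm_eq_abs, sq_abs] at h2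
    rw [h2, ht, zpow_sub_one₀ h0.ne']
    have : w ≠ 0 := h0.ne'
    field_simp

end Pool.Agent.FB.W8
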