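import Pool.Agent.FB.W8.HEAD

/-!
# FB/W8, module P1: part I (helper42)
-/

set_option autoImplicit false

open Filter Asymptotics Topology Matrix LaurentPolynomial Pool.RU

namespace Pool.Agent.FB.W8

/-! ### rotations -/

private theorem P1_tr3 (l₁ l₂ : List (ℤ × ℤ × ℤ)) (w : ℝ) : tr3 (l₁ ++ l₂) w = tr3 (l₂ ++ l₁) w := by
  unfold tr3
  rw [List.map_append, List.map_append, List.prod_append, List.prod_append, Matrix.trace_mul_comm]

private theorem P1_tr2 (l₁ l₂ : List (ℤ × ℤ × ℤ)) (w : ℝ) : tr2 (l₁ ++ l₂) w = tr2 (l₂ ++ l₁) w := by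
  unfold tr2 trB pr
  rw [List.map_append, List.map_append, List.map_append, List.map_append, List.prod_append,
    List.prod_append, Matrix.trace_mul_comm]

private theorem P1_tot_append (l₁ l₂ : List (ℤ × ℤ × ℤ)) : tot (l₁ ++ l₂) = tot l₁ + tot l₂ := by
  unfold tot
  rw [List.map_append, List.sum_append]

private theorem P1_key (l₁ l₂ : List (ℤ × ℤ × ℤ)) (h : Key (l₁ ++ l₂)) : Key (l₂ ++ l₁) := by
  intro w h0 h1
  have h2 := h w h0 h1
  unfold F3 at h2 ⊢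
  rw [P1_tr3 l₁ l₂, P1_tr2 l₁ l₂, P1_tot_append, add_comm (tot l₁), ← P1_tot_append] at h2
  exact h2

/-! ### the degree -/

private theorem P1_gr {t : ℤ × ℤ × ℤ} (h : Hyp t) : t.1 + t.2.1 + t.2.2 + 7 ≤ 2 * gr t := by
  obtain ⟨ha, hc, hb, hac⟩ := h
  unfold gr
  have h1 := le_max_left t.2.2 0
  have h2 := le_max_right t.2.2 0
  have h3 := le_max_left (max t.1 t.2.1) 0
  have h4 := le_max_right (max t.1 t.2.1) 0
  have h5 := le_max_left t.1 t.2.1
  have h6 := le_max_right t.1 t.2.1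
  rcases abs_cases t.1 with h7 | h7 <;> rcases abs_cases t.2.1 with h8 | h8 <;>
    rcases abs_cases t.2.2 with h9 | h9 <;> rcases abs_cases (t.1 - t.2.1) with h10 | h10 <;> omega

private theorem P1_gr' {t : ℤ × ℤ × ℤ} (h : Hyp t) (h1 : t.1 < 0) (h2 : t.2.1 < 0) :
    t.1 + t.2.1 + t.2.2 + 15 ≤ 2 * gr t := by
  obtain ⟨ha, hc, hb, -⟩ := h
  unfold gr
  have h3 := le_max_left t.2.2 0
  have h4 := le_max_right t.2.2 0
  have h5 := le_max_right (max t.1 t.2.1) 0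
  rcases abs_cases t.1 with h7 | h7 <;> rcases abs_cases t.2.1 with h8 | h8 <;>
    rcases abs_cases t.2.2 with h9 | h9 <;> omega

private theorem P1_sum : ∀ β : List (ℤ × ℤ × ℤ), (∀ x ∈ β, Hyp x) →
    tot β + 7 * β.length ≤ 2 * (β.map gr).sum
  | [], _ => by simp [tot]
  | t :: β, h => by
    have h1 := P1_sum β fun x hx => h x (List.mem_cons_of_mem _ hx)
    have h2 := P1_gr (h t List.mem_cons_self)
    have h3 : tot (t :: β) = (t.1 + t.2.1 + t.2.2) + tot β := by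
      unfold tot
      rw [List.map_cons, List.sum_cons]
    rw [h3, List.map_cons, List.sum_cons, List.length_cons]
    push_cast
    linarith

/-! ### the difference of the traces -/

private theorem P1_Q {w : ℝ} (h0 : 0 < w) (h1 : w < 1) :
    |Qw w ^ 2 - 3 * Qw w + 1| ≤ 5 * w ^ (-2 : ℤ) := by
  have e : Qw w ^ 2 - 3 * Qw w + 1 = ((1 - w) ^ 4 + 3 * w * (1 - w) ^ 2 + w ^ 2) * w ^ (-2 : ℤ) := by
    unfold Qw
    rw [_root_.zpow_neg, show (2 : ℤ) = ((2 : ℕ) : ℤ) from rfl, zpow_natCast]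
    field_simp
    ring
  rw [e, abs_mul, abs_of_pos (zpow_pos h0 _)]
  refine mul_le_mul_of_nonneg_right ?_ (zpow_pos h0 _).le
  have h2 : 0 ≤ 1 - w := by linarith
  have h3 : (1 - w) ^ 2 ≤ 1 := pow_le_one₀ h2 (by linarith)
  have h4 : (1 - w) ^ 4 ≤ 1 := pow_le_one₀ h2 (by linarith)
  have h5 : w ^ 2 ≤ 1 := pow_le_one₀ h0.le h1.le
  have h6 : 3 * w * (1 - w) ^ 2 ≤ 3 := by
    have h7 : w * (1 - w) ^ 2 ≤ 1 := mul_le_one₀ h1.le (by positivity) h3
    linarith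
  rw [abs_of_nonneg (by positivity)]
  linarith

private theorem P1_E {β : List (ℤ × ℤ × ℤ)} (hk : Key β) (he : 0 ≤ tot β) {w : ℝ} (h0 : 0 < w)
    (h1 : w < 1) : |Qw w ^ 2 - 3 * Qw w + 1 - F3 β w + tr2 β w| ≤ w ^ (-1 : ℤ) := by
  have h2 := hk w h0 h1
  have h3 : (1 - w) ^ 2 ≤ 1 := pow_le_one₀ (by linarith) (by linarith)
  have h4 : w ^ (tot β - 1) ≤ w ^ (-2 : ℤ) :=
    zpow_le_zpow_right_of_le_one₀ h0 h1.le (by omega)
  have h5 : w ^ (-2 : ℤ) = (w ^ (-1 : ℤ)) ^ 2 := by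
    rw [← zpow_natCast, ← _root_.zpow_mul]
    norm_num
  have h6 : (1 - w) ^ 2 * w ^ (tot β - 1) ≤ 1 * w ^ (-2 : ℤ) :=
    mul_le_mul h3 h4 (zpow_pos h0 _).le zero_le_one
  rw [← h2, one_mul, h5] at h6
  exact abs_le_of_sq_le_sq h6 (zpow_pos h0 _).le

private theorem P1_diff {β : List (ℤ × ℤ × ℤ)} (hk : Key β) (he : 0 ≤ tot β) {w : ℝ} (h0 : 0 < w)
    (h1 : w < 1) : |tr2 β w - F3 β w| ≤ 6 * w ^ (-2 : ℤ) := by
  have h2 := P1_E hk he h0 h1
  have h3 := P1_Q h0 h1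
  have h4 : w ^ (-1 : ℤ) ≤ w ^ (-2 : ℤ) := zpow_le_zpow_right_of_le_one₀ h0 h1.le (by norm_num)
  have e : tr2 β w - F3 β w = (Qw w ^ 2 - 3 * Qw w + 1 - F3 β w + tr2 β w) -
      (Qw w ^ 2 - 3 * Qw w + 1) := by ring
  rw [e]
  refine (abs_sub _ _).trans ?_
  linarith

private theorem P1_small {β : List (ℤ × ℤ × ℤ)} (hk : Key β) (he : 0 ≤ tot β) {D : ℤ}
    (hD : 6 ≤ D) :
    (fun w : ℝ => w ^ D * (tr2 β w - F3 β w)) =O[𝓝[>] (0 : ℝ)] fun w => w ^ 4 := by
  refine IsBigO.of_bound 6 ?_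
  filter_upwards [ev_pos, ev_lt one_pos] with w h0 h1
  rw [Real.norm_eq_abs, Real.norm_eq_abs, abs_mul, abs_of_pos (zpow_pos h0 _),
    abs_of_pos (pow_pos h0 4)]
  have h2 := mul_le_mul_of_nonneg_left (P1_diff hk he h0 h1) (zpow_pos h0 D).le
  have h3 : w ^ D * (6 * w ^ (-2 : ℤ)) = 6 * w ^ (D - 2) := by
    rw [sub_eq_add_neg, zpow_add₀ h0.ne']
    ring
  have h4 : w ^ (D - 2) ≤ w ^ (4 : ℤ) := zpow_le_zpow_right_of_le_one₀ h0 h1.le (by omega)
  have h5 : w ^ (4 : ℤ) = w ^ 4 := by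
    rw [show (4 : ℤ) = ((4 : ℕ) : ℤ) from rfl, zpow_natCast]
  rw [h3] at h2
  rw [h5] at h4
  linarith

private theorem P1_last (hH3 : St_H3) (hT2 : St_T2) (l : List (ℤ × ℤ × ℤ)) (t : ℤ × ℤ × ℤ)
    (hH : ∀ x ∈ l ++ [t], Hyp x) (h1 : t.1 < 0) (h2 : t.2.1 < 0) (he : 0 ≤ tot (l ++ [t]))
    (hk : Key (l ++ [t])) : False := by
  obtain ⟨s, D, hd, hs1, hL, hD⟩ := hH3 l t hH h1 h2
  have hs : s ≠ 0 := by
    rintro rfl
    rw [abs_zero] at hs1
    linarith
  -- the degree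
  have hD2 : tot (l ++ [t]) + 5 * ((l ++ [t]).length : ℤ) + 10 ≤ 2 * D := by
    have h3 := P1_sum l fun x hx => hH x (List.mem_append_left _ hx)
    have h4 := P1_gr' (hH t (by simp)) h1 h2
    have h5 : tot [t] = t.1 + t.2.1 + t.2.2 := by
      unfold tot
      simp
    have h6 : ((l ++ [t]).map gr).sum = (l.map gr).sum + gr t := by
      rw [List.map_append, List.sum_append]
      simp
    have h7 : ((l ++ [t]).length : ℤ) = l.length + 1 := by
      rw [List.length_append]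
      simp
    rw [h6, h7] at hD
    rw [P1_tot_append, h5, h7]
    linarith
  have hlen : (1 : ℤ) ≤ ((l ++ [t]).length : ℤ) := by
    rw [List.length_append]
    simp
  have hD6 : 6 ≤ D := by omega
  -- the second trace has the same leading term
  have hsm := P1_small hk he hD6
  have hd2 : Tendsto (fun w : ℝ => w ^ D * tr2 (l ++ [t]) w) (𝓝[>] 0) (𝓝 s) := by
    have h3 := hd.add (O_tendsto_zero (k := 4) (by norm_num) hsm)
    rw [add_zero] at h3
    refine h3.congr fun w => by ring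
  have hlenL : (pr (l ++ [t])).length = (l ++ [t]).length := by
    unfold pr
    rw [List.length_map]
  have htot : ((pr (l ++ [t])).map fun p => p.1 + p.2).sum = tot (l ++ [t]) := by
    unfold pr tot
    rw [List.map_map]
    rfl
  rcases hT2 (pr (l ++ [t])) with h0 | ⟨s', D', d₁, d₂, d₃, hs', hd', hL', h⟩
  · have h3 : Tendsto (fun w : ℝ => w ^ D * tr2 (l ++ [t]) w) (𝓝[>] 0) (𝓝 0) := by
      refine tendsto_const_nhds.congr' ?_
      filter_upwards [h0] with w hw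
      change tr2 (l ++ [t]) w = 0 at hw
      rw [hw, mul_zero]
    exact hs (tendsto_nhds_unique hd2 h3)
  · have hDD : D = D' := deg_unique hs hs' hd2 hd'.tendsto
    subst hDD
    have hss : s = s' := tendsto_nhds_unique hd2 hd'.tendsto
    subst hss
    rw [hlenL] at hL'
    rcases h with h | h
    · obtain ⟨c₁, c₂, c₃, hd3, hL3⟩ := hL h
      have hd4 : Hd (tr2 (l ++ [t])) s D c₁ c₂ c₃ :=
        (hd3.add_small hsm).congr (Eventually.of_forall fun w => by ring)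
      obtain ⟨-, -, rfl, rfl, rfl⟩ := hd4.unique hs hs' hd'
      linarith
    · rw [htot] at h
      have h3 : Tendsto (fun w : ℝ => (w ^ D * tr2 (l ++ [t]) w) ^ 2) (𝓝[>] 0) (𝓝 (s ^ 2)) :=
        hd2.pow 2
      have h4 : Tendsto (fun w : ℝ => (w ^ D * tr2 (l ++ [t]) w) ^ 2) (𝓝[>] 0) (𝓝 0) := by
        have h5 : Tendsto (fun w : ℝ => 4 * w ^ (2 * D - tot (l ++ [t]))) (𝓝[>] 0) (𝓝 0) := by
          have h6 := O_tendsto_zero (k := 1) le_rfl
            (O_zpow (n := 2 * D - tot (l ++ [t])) (k := 1) (by push_cast; omega))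
          have h7 := h6.const_mul 4
          rwa [mul_zero] at h7
        refine h5.congr' ?_
        filter_upwards [h, ev_pos] with w hw h0
        change tr2 (l ++ [t]) w ^ 2 = _ at hw
        rw [mul_pow, hw, sub_eq_add_neg, zpow_add₀ h0.ne', two_mul, zpow_add₀ h0.ne']
        ring
      have h5 := tendsto_nhds_unique h3 h4
      exact hs (pow_eq_zero_iff (two_ne_zero) |>.1 h5)

theorem thm_P1 : St_H3 → St_T2 → St_P1 := by
  intro hH3 hT2 β hH ⟨t, ht, h1, h2⟩ he hk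
  obtain ⟨l₁, l₂, rfl⟩ := List.append_of_mem ht
  have e1 : l₁ ++ t :: l₂ = (l₁ ++ [t]) ++ l₂ := by simp
  have e2 : l₂ ++ (l₁ ++ [t]) = (l₂ ++ l₁) ++ [t] := by simp
  rw [e1] at hk he hH
  have hk2 := P1_key _ _ hk
  rw [P1_tot_append, add_comm, ← P1_tot_append, e2] at he
  rw [e2] at hk2
  refine P1_last hH3 hT2 (l₂ ++ l₁) t (fun x hx => hH x ?_) h1 h2 he hk2
  simp only [List.mem_append, List.mem_singleton] at hx ⊢
  tauto

end Pool.Agent.FB.W8
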