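import Pool.Agent.FB.W8.St

/-!
# FB/W8: the step of part II (PST)
-/

set_option autoImplicit false

open Filter Asymptotics Topology Matrix

namespace Pool.Agent.FB.W8

/-! ### asymptotics near `0+` -/

/-- two coefficients -/
def PstP (f : ℝ → ℝ) (s c : ℝ) : Prop :=
  (fun w : ℝ => f w - s * (1 + c * w)) =O[𝓝[>] (0 : ℝ)] fun w => w ^ 2

theorem pst_ev : ∀ᶠ w : ℝ in 𝓝[>] (0 : ℝ), 0 < w ∧ w < 1 / 2 := by
  have h : Set.Ioo (0 : ℝ) (1 / 2) ∈ 𝓝[>] (0 : ℝ) := Ioo_mem_nhdsGT (by norm_num)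
  filter_upwards [h] with w hw
  exact ⟨hw.1, hw.2⟩

theorem pst_zpow {k : ℕ} {m : ℤ} (h : (k : ℤ) ≤ m) :
    (fun w : ℝ => w ^ m) =O[𝓝[>] (0 : ℝ)] fun w => w ^ k := by
  refine IsBigO.of_bound 1 ?_
  filter_upwards [pst_ev] with w hw
  rw [one_mul, Real.norm_eq_abs, Real.norm_eq_abs, abs_of_pos (zpow_pos hw.1 _),
    abs_of_pos (pow_pos hw.1 _), ← zpow_natCast]
  exact zpow_le_zpow_right_of_le_one₀ hw.1 (by linarith [hw.2]) h

theorem pst_pow {k n : ℕ} (h : k ≤ n) :
    (fun w : ℝ => w ^ n) =O[𝓝[>] (0 : ℝ)] fun w => w ^ k := by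
  have h1 := pst_zpow (k := k) (m := (n : ℤ)) (by exact_mod_cast h)
  simpa using h1

/-- `O(w^i) O(w^j) = O(w^k)` -/
theorem pst_mul {f g : ℝ → ℝ} {i j k : ℕ} (hf : f =O[𝓝[>] (0 : ℝ)] fun w => w ^ i)
    (hg : g =O[𝓝[>] (0 : ℝ)] fun w => w ^ j) (h : k ≤ i + j) :
    (fun w => f w * g w) =O[𝓝[>] (0 : ℝ)] fun w => w ^ k := by
  have h1 := hf.mul hg
  have h2 : (fun w : ℝ => w ^ i * w ^ j) = fun w => w ^ (i + j) := by
    funext w
    rw [pow_add]
  rw [h2] at h1
  exact h1.trans (pst_pow h)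

/-- `w^m O(w^j) = O(w^k)` -/
theorem pst_zmul {f : ℝ → ℝ} {m : ℤ} {j k : ℕ} (hf : f =O[𝓝[>] (0 : ℝ)] fun w => w ^ j)
    (h : (k : ℤ) ≤ m + j) : (fun w => w ^ m * f w) =O[𝓝[>] (0 : ℝ)] fun w => w ^ k := by
  have h1 : (fun w : ℝ => w ^ m * f w) =O[𝓝[>] (0 : ℝ)] fun w => w ^ m * w ^ j :=
    (isBigO_refl _ _).mul hf
  refine h1.trans ?_
  have h2 : (fun w : ℝ => w ^ m * w ^ j) =ᶠ[𝓝[>] (0 : ℝ)] fun w => w ^ (m + j) := by
    filter_upwards [pst_ev] with w hw
    rw [zpow_add₀ hw.1.ne', zpow_natCast]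
  exact h2.trans_isBigO (pst_zpow h)

theorem PstP.congr {f g : ℝ → ℝ} {s c : ℝ} (h : PstP f s c) (e : f =ᶠ[𝓝[>] (0 : ℝ)] g) :
    PstP g s c := by
  unfold PstP at h ⊢
  refine IsBigO.congr' h ?_ EventuallyEq.rfl
  filter_upwards [e] with w hw
  rw [hw]

theorem PstP.add {f g : ℝ → ℝ} {s c : ℝ} (h : PstP f s c)
    (hg : g =O[𝓝[>] (0 : ℝ)] fun w => w ^ 2) : PstP (fun w => f w + g w) s c := by
  unfold PstP at h ⊢
  have h1 := IsBigO.add h hg
  refine h1.congr_left fun w => ?_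
  ring

theorem pst_lin (s c : ℝ) : (fun w : ℝ => s * (1 + c * w)) =O[𝓝[>] (0 : ℝ)] fun w => w ^ 0 := by
  refine IsBigO.of_bound (|s| * (1 + |c|)) ?_
  filter_upwards [pst_ev] with w hw
  rw [pow_zero, norm_one, mul_one, norm_mul, Real.norm_eq_abs, Real.norm_eq_abs]
  refine mul_le_mul_of_nonneg_left ?_ (abs_nonneg s)
  calc |1 + c * w| ≤ |1| + |c * w| := abs_add_le _ _
    _ ≤ 1 + |c| := by
        rw [abs_one, abs_mul, abs_of_pos hw.1]
        have := abs_nonneg c
        nlinarith [hw.1, hw.2]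

theorem PstP.bdd {f : ℝ → ℝ} {s c : ℝ} (h : PstP f s c) :
    f =O[𝓝[>] (0 : ℝ)] fun w => w ^ 0 := by
  have h1 : (fun w : ℝ => f w - s * (1 + c * w)) =O[𝓝[>] (0 : ℝ)] fun w => w ^ 0 :=
    IsBigO.trans h (pst_pow (by norm_num))
  have h2 := h1.add (pst_lin s c)
  exact h2.congr_left fun w => by ring

theorem PstP.mul {f g : ℝ → ℝ} {s c s' c' : ℝ} (hf : PstP f s c) (hg : PstP g s' c') :
    PstP (fun w => f w * g w) (s * s') (c + c') := by
  have h1 := pst_mul (k := 2) (i := 2) (j := 0) hf hg.bdd (by norm_num)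
  have h2 := pst_mul (k := 2) (i := 0) (j := 2) (pst_lin s c) hg (by norm_num)
  have h3 : (fun w : ℝ => (s * s' * c * c') * w ^ 2) =O[𝓝[>] (0 : ℝ)] fun w => w ^ 2 :=
    (isBigO_refl _ _).const_mul_left _
  have h4 := (h1.add h2).add h3
  unfold PstP
  refine h4.congr_left fun w => ?_
  ring

theorem PstP.cmul {f : ℝ → ℝ} {s c : ℝ} (hf : PstP f s c) (a : ℝ) :
    PstP (fun w => a * f w) (a * s) c := by
  unfold PstP at hf ⊢
  have h1 := hf.const_mul_left a
  refine h1.congr_left fun w => ?_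
  ring

/-- `1 / (1 - w) ^ 2` -/
noncomputable def pstg (w : ℝ) : ℝ := 1 / (1 - w) ^ 2

theorem pst_g : PstP pstg 1 2 := by
  unfold PstP
  refine IsBigO.of_bound 12 ?_
  filter_upwards [pst_ev] with w hw
  have h1 : 0 < 1 - w := by linarith [hw.2]
  have h2 : pstg w - 1 * (1 + 2 * w) = (3 - 2 * w) * w ^ 2 / (1 - w) ^ 2 := by
    unfold pstg
    field_simp
    ring
  have h3 : (0 : ℝ) < (1 - w) ^ 2 := by positivity
  have h4 : (0 : ℝ) < 3 - 2 * w := by linarith [hw.2]
  have h5 : (1 : ℝ) / 4 ≤ (1 - w) ^ 2 := by nlinarith [hw.1, hw.2]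
  rw [h2, Real.norm_eq_abs, Real.norm_eq_abs, abs_of_nonneg (by positivity),
    abs_of_nonneg (by positivity), div_le_iff₀ h3]
  nlinarith [mul_nonneg (sq_nonneg w) hw.1.le, sq_nonneg w]

theorem pst_u (w : ℝ) : u w = -(w * pstg w) := by
  unfold u pstg
  rw [mul_one_div, neg_div]

theorem pst_uO : u =O[𝓝[>] (0 : ℝ)] fun w => w ^ 1 := by
  have h1 := pst_mul (k := 1) (i := 1) (j := 0) (isBigO_refl (fun w : ℝ => w ^ 1) _) pst_g.bdd
    (by norm_num)
  refine h1.neg_left.congr_left fun w => ?_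
  rw [pst_u, pow_one]

/-- `1 + a u ~ 1 - a w` -/
theorem pst_lu (a : ℝ) : PstP (fun w => 1 + a * u w) 1 (-a) := by
  have h1 := pst_mul (k := 2) (i := 1) (j := 1) (f := fun w : ℝ => w)
    (g := fun w => pstg w - 1) ?_ ?_ (by norm_num)
  · unfold PstP
    have h2 := h1.const_mul_left (-a)
    refine h2.congr_left fun w => ?_
    show -a * (w * (pstg w - 1)) = 1 + a * u w - 1 * (1 + -a * w)
    rw [pst_u]
    ring
  · exact (isBigO_refl (fun w : ℝ => w) _).congr_right fun w => (pow_one w).symm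
  · have h3 : (fun w : ℝ => pstg w - 1 * (1 + 2 * w)) =O[𝓝[>] (0 : ℝ)] fun w => w ^ 1 :=
      IsBigO.trans pst_g (pst_pow (by norm_num))
    have h4 : (fun w : ℝ => 2 * w) =O[𝓝[>] (0 : ℝ)] fun w => w ^ 1 := by
      have h5 := (isBigO_refl (fun w : ℝ => w) (𝓝[>] (0 : ℝ))).const_mul_left 2
      exact h5.congr_right fun w => (pow_one w).symm
    refine (h3.add h4).congr_left fun w => ?_
    ring

/-! ### the new vector -/

/-- the exponents -/
def pste (t : ℤ × ℤ × ℤ) : Fin 3 → ℤ := ![t.1, t.2.1, 0]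

/-- the weights -/
noncomputable def pstm (w : ℝ) : Fin 3 → ℝ := ![u w, u w, 1 - 2 * u w]

theorem pst_vec (v : Fin 3 → ℝ) (x y : ℝ) (k : Fin 3) :
    Matrix.vecMul v !![x, x, y; x, x, y; x, x, y] k = (v 0 + v 1 + v 2) * ![x, x, y] k := by
  have h : Matrix.vecMul v !![x, x, y; x, x, y; x, x, y] k =
      ∑ i, v i * !![x, x, y; x, x, y; x, x, y] i k := rfl
  rw [h, Fin.sum_univ_three]
  fin_cases k
  · show v 0 * x + v 1 * x + v 2 * x = (v 0 + v 1 + v 2) * x
    ring
  · show v 0 * x + v 1 * x + v 2 * x = (v 0 + v 1 + v 2) * x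
    ring
  · show v 0 * y + v 1 * y + v 2 * y = (v 0 + v 1 + v 2) * y
    ring

theorem pst_diag (t : ℤ × ℤ × ℤ) (w : ℝ) (k : Fin 3) :
    (![w ^ (-t.1), w ^ (-t.2.1), 1] : Fin 3 → ℝ) k = w ^ (-pste t k) := by
  fin_cases k
  · rfl
  · rfl
  · show (1 : ℝ) = w ^ (-(0 : ℤ))
    rw [neg_zero, zpow_zero]

theorem pst_stp (t : ℤ × ℤ × ℤ) (V : ℝ → Fin 3 → ℝ) (w : ℝ) (k : Fin 3) :
    stp t V w k = w ^ (-pste t k) * (V w k + (w ^ (-t.2.2) - 1) *
      ((V w 0 + V w 1 + V w 2) * pstm w k)) := by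
  unfold stp B3
  rw [← Matrix.vecMul_vecMul, Matrix.vecMul_diagonal, Matrix.vecMul_add, Matrix.vecMul_one,
    Matrix.vecMul_smul, Pi.add_apply, Pi.smul_apply, pst_vec, pst_diag, smul_eq_mul]
  exact mul_comm _ _

/-! ### the step -/

/-- the data before the step -/
structure PstD (X : Fin 3) (s c : ℝ) (x : Fin 3 → ℝ → ℝ) : Prop where
  main : PstP (x X) s c
  off : ∀ k, k ≠ X → x k =O[𝓝[>] (0 : ℝ)] fun w => w ^ 4

/-- the sum -/
noncomputable def psts (x : Fin 3 → ℝ → ℝ) (w : ℝ) : ℝ := x 0 w + x 1 w + x 2 w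

theorem PstD.bdd {X : Fin 3} {s c : ℝ} {x : Fin 3 → ℝ → ℝ} (h : PstD X s c x) (k : Fin 3) :
    x k =O[𝓝[>] (0 : ℝ)] fun w => w ^ 0 := by
  by_cases hk : k = X
  · subst hk
    exact h.main.bdd
  · exact (h.off k hk).trans (pst_pow (by norm_num))

/-- the sum minus the main term -/
theorem PstD.diff {X : Fin 3} {s c : ℝ} {x : Fin 3 → ℝ → ℝ} (h : PstD X s c x) :
    (fun w => psts x w - x X w) =O[𝓝[>] (0 : ℝ)] fun w => w ^ 4 := by
  have h1 := h.off
  unfold psts
  fin_cases X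
  · refine ((h1 1 (by decide)).add (h1 2 (by decide))).congr_left fun w => ?_
    show x 1 w + x 2 w = x 0 w + x 1 w + x 2 w - x 0 w
    ring
  · refine ((h1 0 (by decide)).add (h1 2 (by decide))).congr_left fun w => ?_
    show x 0 w + x 2 w = x 0 w + x 1 w + x 2 w - x 1 w
    ring
  · refine ((h1 0 (by decide)).add (h1 1 (by decide))).congr_left fun w => ?_
    show x 0 w + x 1 w = x 0 w + x 1 w + x 2 w - x 2 w
    ring

theorem PstD.sum {X : Fin 3} {s c : ℝ} {x : Fin 3 → ℝ → ℝ} (h : PstD X s c x) :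
    PstP (psts x) s c := by
  have h1 := h.main.add (h.diff.trans (pst_pow (by norm_num)))
  exact h1.congr (Eventually.of_forall fun w => by ring)

theorem pst_m01 (w : ℝ) (k : Fin 3) (hk : k ≠ 2) : pstm w k = u w := by
  fin_cases k
  · rfl
  · rfl
  · exact absurd rfl hk

theorem pst_m2 (w : ℝ) : pstm w 2 = 1 - 2 * u w := rfl

/-- the new vector up to powers of `w` -/
noncomputable def pstR (x : Fin 3 → ℝ → ℝ) (m : ℤ) (k : Fin 3) (w : ℝ) : ℝ :=
  x k w + (w ^ m - 1) * (psts x w * pstm w k)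

theorem pst_mO (k : Fin 3) : (fun w => pstm w k) =O[𝓝[>] (0 : ℝ)] fun w => w ^ 0 := by
  by_cases hk : k = 2
  · subst hk
    have h1 := (pst_lu (-2)).bdd
    refine h1.congr_left fun w => ?_
    rw [pst_m2]
    ring
  · have h1 : u =O[𝓝[>] (0 : ℝ)] fun w => w ^ 0 := pst_uO.trans (pst_pow (by norm_num))
    exact h1.congr_left fun w => (pst_m01 w k hk).symm

theorem PstD.smO {X : Fin 3} {s c : ℝ} {x : Fin 3 → ℝ → ℝ} (h : PstD X s c x) (k : Fin 3) :
    (fun w => psts x w * pstm w k) =O[𝓝[>] (0 : ℝ)] fun w => w ^ 0 :=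
  pst_mul h.sum.bdd (pst_mO k) (by norm_num)

theorem pst_Rb {X : Fin 3} {s c : ℝ} {x : Fin 3 → ℝ → ℝ} (h : PstD X s c x) {m : ℤ} (hm : 0 ≤ m)
    (k : Fin 3) : pstR x m k =O[𝓝[>] (0 : ℝ)] fun w => w ^ 0 := by
  have h1 := h.bdd k
  have h2 := pst_zmul (m := m) (k := 0) (h.smO k) (by push_cast; omega)
  have h3 := (h1.add h2).sub (h.smO k)
  refine h3.congr_left fun w => ?_
  unfold pstR
  ring

/-- `b > 0`, coordinate `2` -/
theorem pst_P2 {X : Fin 3} {s c : ℝ} {x : Fin 3 → ℝ → ℝ} (h : PstD X s c x) {b : ℤ} (hb : 5 ≤ b) :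
    PstP (fun w => w ^ b * pstR x (-b) 2 w) s (c + 2) := by
  have h1 := h.sum.mul (pst_lu (-2))
  have h2 : (fun w => x 2 w - psts x w * pstm w 2) =O[𝓝[>] (0 : ℝ)] fun w => w ^ 0 :=
    (h.bdd 2).sub (h.smO 2)
  have h3 := pst_zmul (m := b) (k := 2) h2 (by push_cast; omega)
  have h4 := h1.add h3
  have h5 : s * 1 = s := mul_one s
  have h6 : c + -(-2) = c + 2 := by ring
  rw [h5, h6] at h4
  refine h4.congr ?_
  filter_upwards [pst_ev] with w hw
  have h7 : w ^ b * w ^ (-b) = 1 := by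
    rw [← zpow_add₀ hw.1.ne', add_neg_cancel, zpow_zero]
  unfold pstR
  rw [pst_m2]
  linear_combination -(psts x w * (1 - 2 * u w)) * h7

/-- `b > 0`, coordinates `0`, `1` -/
theorem pst_Pk {X : Fin 3} {s c : ℝ} {x : Fin 3 → ℝ → ℝ} (h : PstD X s c x) {b : ℤ} (hb : 5 ≤ b)
    {k : Fin 3} (hk : k ≠ 2) :
    PstP (fun w => w ^ (-1 : ℤ) * (w ^ b * pstR x (-b) k w)) (-s) (c + 2) := by
  have h1 := (h.sum.mul pst_g).cmul (-1)
  have h2 := pst_zmul (m := b - 1) (k := 2) (h.bdd k) (by push_cast; omega)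
  have h3 := pst_zmul (m := b) (k := 2) (h.sum.mul pst_g).bdd (by push_cast; omega)
  have h4 := (h1.add h2).add h3
  have h5 : -1 * (s * 1) = -s := by ring
  rw [h5] at h4
  refine h4.congr ?_
  filter_upwards [pst_ev] with w hw
  have h7 : w ^ b * w ^ (-b) = 1 := by
    rw [← zpow_add₀ hw.1.ne', add_neg_cancel, zpow_zero]
  have h8 : w ^ (b - 1) = w ^ (-1 : ℤ) * w ^ b := by
    rw [← zpow_add₀ hw.1.ne']
    congr 1
    ring
  have h9 : w ^ (-1 : ℤ) * w = 1 := by
    rw [_root_.zpow_neg_one, inv_mul_cancel₀ hw.1.ne']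
  unfold pstR
  rw [pst_m01 w k hk, pst_u, h8]
  linear_combination (w ^ (-1 : ℤ) * w * psts x w * pstg w) * h7 +
    (psts x w * pstg w - psts x w * pstg w * w ^ b) * h9

/-- `b < 0`, coordinate `2`, state `2` -/
theorem pst_M22 {s c : ℝ} {x : Fin 3 → ℝ → ℝ} (h : PstD 2 s c x) {n : ℤ} (hn : 5 ≤ n) :
    PstP (fun w => w ^ (-1 : ℤ) * pstR x n 2 w) (-2 * s) (c + 2) := by
  have h1 := (h.main.mul pst_g).cmul (-2)
  have h2 : (fun w => (psts x w - x 2 w) * pstm w 2) =O[𝓝[>] (0 : ℝ)] fun w => w ^ 4 :=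
    pst_mul h.diff (pst_mO 2) (by norm_num)
  have h3 := pst_zmul (m := -1) (k := 2) h2 (by norm_num)
  have h4 := pst_zmul (m := n - 1) (k := 2) (h.smO 2) (by push_cast; omega)
  have h5 := (h1.add h3.neg_left).add h4
  have h6 : -2 * (s * 1) = -2 * s := by ring
  rw [h6] at h5
  refine h5.congr ?_
  filter_upwards [pst_ev] with w hw
  have h8 : w ^ (n - 1) = w ^ (-1 : ℤ) * w ^ n := by
    rw [← zpow_add₀ hw.1.ne']
    congr 1
    ring
  have h9 : w ^ (-1 : ℤ) * w = 1 := by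
    rw [_root_.zpow_neg_one, inv_mul_cancel₀ hw.1.ne']
  unfold pstR
  rw [pst_m2, pst_u, h8]
  linear_combination (2 * x 2 w * pstg w) * h9

/-- `b < 0`, coordinate `2`, state `0` or `1` -/
theorem pst_M2 {X : Fin 3} {s c : ℝ} {x : Fin 3 → ℝ → ℝ} (h : PstD X s c x) (hX : X ≠ 2) {n : ℤ}
    (hn : 5 ≤ n) : PstP (pstR x n 2) (-s) (c + 2) := by
  have h1 := (h.sum.mul (pst_lu (-2))).cmul (-1)
  have h2 : x 2 =O[𝓝[>] (0 : ℝ)] fun w => w ^ 2 := (h.off 2 hX.symm).trans (pst_pow (by norm_num))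
  have h3 := pst_zmul (m := n) (k := 2) (h.smO 2) (by push_cast; omega)
  have h4 := (h1.add h2).add h3
  have h5 : -1 * (s * 1) = -s := by ring
  have h6 : c + -(-2) = c + 2 := by ring
  rw [h5, h6] at h4
  refine h4.congr (Eventually.of_forall fun w => ?_)
  unfold pstR
  beta_reduce
  rw [pst_m2]
  ring

/-- `b < 0`, coordinates `0`, `1`, same state -/
theorem pst_MX {X : Fin 3} {s c : ℝ} {x : Fin 3 → ℝ → ℝ} (h : PstD X s c x) (hX : X ≠ 2) {n : ℤ}
    (hn : 5 ≤ n) : PstP (pstR x n X) s (c + 1) := by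
  have h1 := h.main.mul (pst_lu (-1))
  have h2 : (fun w => (psts x w - x X w) * u w) =O[𝓝[>] (0 : ℝ)] fun w => w ^ 2 :=
    pst_mul h.diff pst_uO (by norm_num)
  have h3 := pst_zmul (m := n) (k := 2) (h.smO X) (by push_cast; omega)
  have h4 := (h1.add h2.neg_left).add h3
  have h5 : s * 1 = s := mul_one s
  have h6 : c + -(-1) = c + 1 := by ring
  rw [h5, h6] at h4
  refine h4.congr (Eventually.of_forall fun w => ?_)
  unfold pstR
  beta_reduce
  rw [pst_m01 w X hX]
  ring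

/-- `b < 0`, coordinates `0`, `1`, other state -/
theorem pst_Mk {X : Fin 3} {s c : ℝ} {x : Fin 3 → ℝ → ℝ} (h : PstD X s c x) {k : Fin 3}
    (hk : k ≠ 2) (hX : k ≠ X) {n : ℤ} (hn : 5 ≤ n) :
    PstP (fun w => w ^ (-1 : ℤ) * pstR x n k w) s (c + 2) := by
  have h1 := h.sum.mul pst_g
  have h2 := pst_zmul (m := -1) (k := 2) (h.off k hX) (by norm_num)
  have h3 := pst_zmul (m := n) (k := 2) (h.sum.mul pst_g).bdd (by push_cast; omega)
  have h4 := (h1.add h2).add h3.neg_left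
  have h5 : s * 1 = s := mul_one s
  rw [h5] at h4
  refine h4.congr ?_
  filter_upwards [pst_ev] with w hw
  have h9 : w ^ (-1 : ℤ) * w = 1 := by
    rw [_root_.zpow_neg_one, inv_mul_cancel₀ hw.1.ne']
  unfold pstR
  rw [pst_m01 w k hk, pst_u]
  linear_combination (w ^ n * psts x w * pstg w - psts x w * pstg w) * h9

/-- the new vector -/
theorem pst_asm (t : ℤ × ℤ × ℤ) (V : ℝ → Fin 3 → ℝ) (D δ : ℤ) (k : Fin 3) {w : ℝ} (hw : 0 < w) :
    w ^ (D + δ) * stp t V w k =
      w ^ (δ - pste t k) * pstR (fun k w => w ^ D * V w k) (-t.2.2) k w := by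
  rw [pst_stp]
  unfold pstR psts
  have h1 : w ^ (D + δ) * w ^ (-pste t k) = w ^ (δ - pste t k) * w ^ D := by
    rw [← zpow_add₀ hw.ne', ← zpow_add₀ hw.ne']
    congr 1
    ring
  linear_combination (V w k + (w ^ (-t.2.2) - 1) * ((V w 0 + V w 1 + V w 2) * pstm w k)) * h1

theorem pst_Pb {X : Fin 3} {s c : ℝ} {x : Fin 3 → ℝ → ℝ} (h : PstD X s c x) {b : ℤ} (hb : 5 ≤ b)
    (k : Fin 3) : (fun w => w ^ b * pstR x (-b) k w) =O[𝓝[>] (0 : ℝ)] fun w => w ^ 0 := by
  have h1 := pst_zmul (m := b) (k := 0) (h.bdd k) (by push_cast; omega)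
  have h2 := pst_zmul (m := b) (k := 0) (h.smO k) (by push_cast; omega)
  have h3 := (h1.sub h2).add (h.smO k)
  refine h3.congr' ?_ EventuallyEq.rfl
  filter_upwards [pst_ev] with w hw
  have h7 : w ^ b * w ^ (-b) = 1 := by
    rw [← zpow_add₀ hw.1.ne', add_neg_cancel, zpow_zero]
  unfold pstR
  linear_combination -(psts x w * pstm w k) * h7

theorem pst_ty {t : ℤ × ℤ × ℤ} (h : Hyp t) (hp : ¬ (0 < t.1 ∧ 0 < t.2.1)) :
    (ty t = 2 ∧ ∀ k, k ≠ 2 → pste t k ≤ -5) ∨
    (ty t ≠ 2 ∧ pste t (ty t) = max t.1 t.2.1 ∧ 5 ≤ max t.1 t.2.1 ∧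
      ∀ k, k ≠ 2 → k ≠ ty t → pste t k ≤ -5) := by
  have e0 : pste t 0 = t.1 := rfl
  have e1 : pste t 1 = t.2.1 := rfl
  rcases le_abs.1 h.1 with ha | ha
  · rcases le_abs.1 h.2.1 with hc | hc
    · exact absurd ⟨by omega, by omega⟩ hp
    · right
      have hty : ty t = 0 := by
        unfold ty
        rw [if_neg (by omega), if_pos (by omega)]
      rw [hty, e0, max_eq_left (by omega)]
      refine ⟨by decide, rfl, ha, fun k h2 h0 => ?_⟩
      have hk : k = 1 := by
        fin_cases k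
        · exact absurd rfl h0
        · rfl
        · exact absurd rfl h2
      rw [hk, e1]
      omega
  · rcases le_abs.1 h.2.1 with hc | hc
    · right
      have hty : ty t = 1 := by
        unfold ty
        rw [if_neg (by omega), if_neg (by omega)]
      rw [hty, e1, max_eq_right (by omega)]
      refine ⟨by decide, rfl, hc, fun k h2 h0 => ?_⟩
      have hk : k = 0 := by
        fin_cases k
        · rfl
        · exact absurd rfl h0
        · exact absurd rfl h2
      rw [hk, e0]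
      omega
    · left
      have hty : ty t = 2 := by
        unfold ty
        rw [if_pos (by omega)]
      refine ⟨hty, fun k h2 => ?_⟩
      fin_cases k
      · show pste t 0 ≤ -5
        rw [e0]
        omega
      · show pste t 1 ≤ -5
        rw [e1]
        omega
      · exact absurd rfl h2

theorem pst_fin (t : ℤ × ℤ × ℤ) (V : ℝ → Fin 3 → ℝ) (D δ : ℤ) (Y : Fin 3) (s' c' : ℝ)
    (hm : PstP (fun w => w ^ (δ - pste t Y) * pstR (fun k w => w ^ D * V w k) (-t.2.2) Y w) s' c')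
    (ho : ∀ k, k ≠ Y → (fun w => w ^ (δ - pste t k) *
      pstR (fun k w => w ^ D * V w k) (-t.2.2) k w) =O[𝓝[>] (0 : ℝ)] fun w => w ^ 4) :
    PInv Y (D + δ) s' c' (stp t V) := by
  constructor
  · have h1 : PstP (fun w => w ^ (D + δ) * stp t V w Y) s' c' := by
      refine hm.congr ?_
      filter_upwards [pst_ev] with w hw
      exact (pst_asm t V D δ Y hw.1).symm
    exact h1
  · intro k hk
    refine (ho k hk).congr' ?_ EventuallyEq.rfl
    filter_upwards [pst_ev] with w hw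
    exact (pst_asm t V D δ k hw.1).symm

theorem thm_PS : St_PS := by
  intro X D s c₁ V t hH hp hI
  have hD : PstD X s c₁ (fun k w => w ^ D * V w k) := ⟨hI.1, hI.2⟩
  have e2 : pste t 2 = 0 := rfl
  rcases le_abs.1 hH.2.2.1 with hb | hb
  · -- `b > 0`
    have hoff : ∀ (δ : ℤ) (k : Fin 3), 4 ≤ δ - pste t k - t.2.2 → (fun w => w ^ (δ - pste t k) *
        pstR (fun k w => w ^ D * V w k) (-t.2.2) k w) =O[𝓝[>] (0 : ℝ)] fun w => w ^ 4 := by
      intro δ k hk
      have h1 := pst_zmul (m := δ - pste t k - t.2.2) (k := 4) (pst_Pb hD hb k)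
        (by push_cast; omega)
      refine h1.congr' ?_ EventuallyEq.rfl
      filter_upwards [pst_ev] with w hw
      rw [← mul_assoc, ← zpow_add₀ hw.1.ne']
      congr 2
      ring
    rcases pst_ty hH hp with ⟨hty, he⟩ | ⟨hty, heY, h5, he⟩
    · have hdl : dl X t = t.2.2 := by
        unfold dl
        rw [if_pos (by omega), if_pos hty]
      refine ⟨s, c₁ + 2, ?_, le_refl _, by linarith, fun _ _ => rfl⟩
      rw [hdl, hty]
      refine pst_fin t V D _ 2 _ _ ?_ fun k hk => hoff _ k ?_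
      · have h1 := pst_P2 hD hb
        rw [e2, sub_zero]
        exact h1
      · have := he k hk
        omega
    · have hdl : dl X t = t.2.2 + max t.1 t.2.1 - 1 := by
        unfold dl
        rw [if_pos (by omega), if_neg hty]
      refine ⟨-s, c₁ + 2, ?_, by rw [abs_neg], by linarith, fun _ h => absurd h hty⟩
      rw [hdl]
      refine pst_fin t V D _ (ty t) _ _ ?_ fun k hk => hoff _ k ?_
      · have h1 := pst_Pk hD hb hty
        refine h1.congr ?_
        filter_upwards [pst_ev] with w hw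
        rw [heY, ← mul_assoc, ← zpow_add₀ hw.1.ne']
        congr 2
        ring
      · by_cases h2 : k = 2
        · rw [h2, e2]
          omega
        · have := he k h2 hk
          omega
  · -- `b < 0`
    have hn : 5 ≤ -t.2.2 := hb
    have hoff : ∀ (δ : ℤ) (k : Fin 3), 4 ≤ δ - pste t k → (fun w => w ^ (δ - pste t k) *
        pstR (fun k w => w ^ D * V w k) (-t.2.2) k w) =O[𝓝[>] (0 : ℝ)] fun w => w ^ 4 := by
      intro δ k hk
      exact pst_zmul (pst_Rb hD (by omega) k) (by push_cast; omega)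
    rcases pst_ty hH hp with ⟨hty, he⟩ | ⟨hty, heY, h5, he⟩
    · by_cases hX : X = 2
      · subst hX
        have hdl : dl 2 t = -1 := by
          unfold dl
          rw [if_neg (by omega), if_pos hty, if_pos rfl]
        refine ⟨-2 * s, c₁ + 2, ?_, ?_, by linarith, fun _ _ => rfl⟩
        · rw [hdl, hty]
          refine pst_fin t V D _ 2 _ _ ?_ fun k hk => hoff _ k ?_
          · have h1 := pst_M22 hD hn
            rw [e2, sub_zero]
            exact h1
          · have := he k hk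
            omega
        · rw [abs_mul]
          have h1 : |(-2 : ℝ)| = 2 := by norm_num
          rw [h1]
          have := abs_nonneg s
          linarith
      · have hdl : dl X t = 0 := by
          unfold dl
          rw [if_neg (by omega), if_pos hty, if_neg hX]
        refine ⟨-s, c₁ + 2, ?_, by rw [abs_neg], by linarith, fun h => absurd h hX⟩
        rw [hdl, hty]
        refine pst_fin t V D _ 2 _ _ ?_ fun k hk => hoff _ k ?_
        · have h1 := pst_M2 hD hX hn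
          rw [e2, sub_zero]
          refine h1.congr (Eventually.of_forall fun w => ?_)
          beta_reduce
          rw [zpow_zero, one_mul]
        · have := he k hk
          omega
    · by_cases hX : X = ty t
      · have hdl : dl X t = max t.1 t.2.1 := by
          unfold dl
          rw [if_neg (by omega), if_neg hty, if_pos hX]
        refine ⟨s, c₁ + 1, ?_, le_refl _, le_refl _, fun _ h => absurd h hty⟩
        rw [hdl, ← hX]
        have hX2 : X ≠ 2 := by rw [hX]; exact hty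
        refine pst_fin t V D _ X _ _ ?_ fun k hk => hoff _ k ?_
        · have h1 := pst_MX hD hX2 hn
          rw [hX, heY, ← hX, sub_self]
          refine h1.congr (Eventually.of_forall fun w => ?_)
          beta_reduce
          rw [zpow_zero, one_mul]
        · by_cases h2 : k = 2
          · rw [h2, e2]
            omega
          · have := he k h2 (by rw [← hX]; exact hk)
            omega
      · have hdl : dl X t = max t.1 t.2.1 - 1 := by
          unfold dl
          rw [if_neg (by omega), if_neg hty, if_neg hX]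
        refine ⟨s, c₁ + 2, ?_, le_refl _, by linarith, fun _ h => absurd h hty⟩
        rw [hdl]
        refine pst_fin t V D _ (ty t) _ _ ?_ fun k hk => hoff _ k ?_
        · have h1 := pst_Mk hD hty (Ne.symm hX) hn
          rw [heY]
          have h2 : max t.1 t.2.1 - 1 - max t.1 t.2.1 = -1 := by ring
          rw [h2]
          exact h1
        · by_cases h2 : k = 2
          · rw [h2, e2]
            omega
          · have := he k h2 hk
            omega

end Pool.Agent.FB.W8
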