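import Pool.Agent.FB.W8.SSTF

/-!
# FB/W8, module SSTE: the strong step for `b > 0`

With `x_k = w ^ D V_k`, `S = x₀ + x₁ + x₂` and `β = w ^ b` the new vector is
`w ^ (D' - D - b - a_k) (β x_k + (1 - β) m_k S)`, `m = (u, u, 1 - 2 u)`; `b ≥ 5`, so only `S` matters.
-/

set_option autoImplicit false

open Filter Asymptotics Topology Matrix LaurentPolynomial Pool.RU

namespace Pool.Agent.FB.W8

/-- the sum of the coordinates before the step -/
theorem SSTE_in {X : Fin 3} {D : ℤ} {s c₁ c₂ c₃ : ℝ} {r : ℤ × ℤ × ℤ × ℤ}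
    {V : ℝ → Fin 3 → ℝ} (h : SInv X D s c₁ c₂ c₃ r V) :
    SSTF_T (fun w => w ^ D * V w 0 + w ^ D * V w 1 + w ^ D * V w 2) s (s * (c₁ + r.1))
      (s * (c₂ + c₁ * r.1 + r.2.1)) (s * (c₃ + c₂ * r.1 + c₁ * r.2.1 + r.2.2.1)) ∧
    ∀ k : Fin 3, ∃ a b c d, SSTF_T (fun w => w ^ D * V w k) a b c d := by
  rcases eq_or_ne X 2 with hX | hX
  · subst hX
    have hr : r = (0, 0, 0, 0) := (h.2.1 rfl).1
    obtain ⟨x2, xk⟩ := SSTF_in2 h
    refine ⟨(((xk 0 (by decide)).mulw.add (xk 1 (by decide)).mulw).add x2).coef ?_ ?_ ?_ ?_,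
      fun k => ?_⟩
    · ring
    · rw [hr]; push_cast; ring
    · rw [hr]; push_cast; ring
    · rw [hr]; push_cast; ring
    · rcases eq_or_ne k 2 with hk | hk
      · rw [hk]
        exact ⟨_, _, _, _, x2⟩
      · exact ⟨_, _, _, _, (xk k hk).mulw⟩
  · obtain ⟨g1, g2, g3⟩ := SSTF_sw hX
    obtain ⟨xi, xj, x2⟩ := SSTF_in hX h
    refine ⟨(((xi.add xj.mulw).add x2).congr fun w _ _ => ?_).coef ?_ ?_ ?_ ?_, fun k => ?_⟩
    · rw [g3 (fun k => w ^ D * V w k)]
    · ring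
    · ring
    · ring
    · ring
    · rcases eq_or_ne k 2 with hk | hk
      · rw [hk]
        exact ⟨_, _, _, _, x2⟩
      · rcases eq_or_ne k X with h2 | h2
        · rw [h2]
          exact ⟨_, _, _, _, xi⟩
        · have h3 : k = sw X := by
            fin_cases k <;> fin_cases X <;> first | rfl | exact absurd rfl h2 | exact absurd rfl hk |
              exact absurd rfl hX
          rw [h3]
          exact ⟨_, _, _, _, xj.mulw⟩

theorem SSTE_one {b : ℤ} (hb : 5 ≤ b) : SSTF_T (fun w => 1 - w ^ b) 1 0 0 0 := by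
  have h := SSTF_one (b := -b) (by omega)
  simpa only [neg_neg] using h

theorem SSTE_new (t : ℤ × ℤ × ℤ) (V : ℝ → Fin 3 → ℝ) (D e : ℤ) (w : ℝ) (hw : 0 < w) (k : Fin 3) :
    w ^ (D + e) * stp t V w k = w ^ (e - t.2.2 - SSTF_ex t k) * (w ^ t.2.2 * (w ^ D * V w k) +
      (1 - w ^ t.2.2) * SSTF_m w k * (w ^ D * V w 0 + w ^ D * V w 1 + w ^ D * V w 2)) := by
  have h1 : w ^ (e - SSTF_ex t k) = w ^ (e - t.2.2 - SSTF_ex t k) * w ^ t.2.2 := by
    rw [← zpow_add₀ hw.ne']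
    congr 1
    ring
  have h2 : w ^ t.2.2 * w ^ (-t.2.2) = 1 := by
    rw [← zpow_add₀ hw.ne', add_neg_cancel, zpow_zero]
  rw [SSTF_new t V D e w hw k, h1, mul_assoc]
  congr 1
  linear_combination (SSTF_m w k * (w ^ D * V w 0 + w ^ D * V w 1 + w ^ D * V w 2)) * h2

/-- **Module SSTE** -/
theorem thm_SE : St_SE := by
  intro X D s c₁ c₂ c₃ r V t ht hb _ h
  have hb5 : 5 ≤ t.2.2 := by
    have := ht.2.2.1
    rw [abs_of_pos hb] at this
    omega
  have he2 := ht.2.2.2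
  obtain ⟨hS, hx⟩ := SSTE_in h
  have hone := SSTE_one hb5
  rcases eq_or_ne (ty t) 2 with hty | hty
  · -- the new state is `2`
    obtain ⟨f1, f2⟩ := SSTF_facts2 t ht hty
    have hdl : dl X t = t.2.2 := by
      unfold dl
      rw [if_pos hb, if_pos hty]
    have hnx : nxt X t r = (0, 0, 0, 0) := by
      unfold nxt
      rw [if_pos hty]
    have hcs : cst X t r = 24 + cf r := by
      unfold cst
      rw [if_pos hty, if_pos (Or.inl hb)]
    obtain ⟨a2, b2, c2, d2, x2⟩ := hx 2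
    have y2 := (x2.z4 (n := t.2.2) (by omega)).add ((hone.mul SSTF_u2).mul hS)
    have hk : ∀ k : Fin 3, k ≠ 2 → SSTF_ex t k ≤ -5 → (fun w : ℝ => w ^ (D + t.2.2) * stp t V w k)
        =O[𝓝[>] (0 : ℝ)] fun w => w ^ 5 := by
      intro k hk hk5
      obtain ⟨a, b, c, d, xk⟩ := hx k
      have h0 := (xk.z4 (n := t.2.2) (by omega)).add ((hone.mul SSTF_u).mul hS)
      have h1 := h0.big5 (-SSTF_ex t k) (by omega)
      refine IsBigO.congr' h1 ?_ EventuallyEq.rfl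
      have h7 : Set.Ioo (0 : ℝ) 1 ∈ 𝓝[>] (0 : ℝ) := Ioo_mem_nhdsGT zero_lt_one
      filter_upwards [h7] with w hw
      rw [SSTE_new t V D _ w hw.1, SSTF_mu hk, sub_self, zero_sub]
    refine ⟨s, c₁ + r.1 + 2, c₂ + c₁ * r.1 + r.2.1 + 2 * (c₁ + r.1) + 4,
      c₃ + c₂ * r.1 + c₁ * r.2.1 + r.2.2.1 + 2 * (c₂ + c₁ * r.1 + r.2.1) + 4 * (c₁ + r.1) + 6,
      rfl, ?_, ?_⟩
    · rw [hdl, hnx, hty]
      refine SSTF_build2 _ _ _ _ _ _ ((y2.congr fun w hw _ => ?_).coef ?_ ?_ ?_ ?_)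
        (hk 0 (by decide) f1) (hk 1 (by decide) f2)
      · rw [SSTE_new t V D _ w hw, show SSTF_ex t 2 = 0 from rfl, sub_self, sub_zero, zpow_zero,
          one_mul]
        rfl
      all_goals ring
    · rw [hcs]
      unfold Lf cf
      push_cast
      ring
  · -- the new state is `0` or `1`
    obtain ⟨i, hi'⟩ : ∃ i, ty t = i := ⟨_, rfl⟩
    obtain ⟨f1, f2, f3⟩ := SSTF_facts t ht i (hi' ▸ hty) hi'
    rw [hi'] at hty ⊢
    obtain ⟨g1, g2, g3⟩ := SSTF_sw hty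
    have hdl : dl X t = t.2.2 + SSTF_ex t i - 1 := by
      unfold dl
      rw [if_pos hb, hi', if_neg hty, f1]
    have hnx : nxt X t r = nf |t.1 - t.2.1| := by
      unfold nxt
      rw [hi', if_neg hty, if_pos (Or.inl hb)]
    have hcs : cst X t r = 18 + cf r := by
      unfold cst
      rw [hi', if_neg hty, if_pos (Or.inl hb)]
    -- the two new coordinates, divided by `w`
    have key : ∀ k : Fin 3, k ≠ 2 → SSTF_T (fun w => w⁻¹ * (w ^ t.2.2 * (w ^ D * V w k) +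
        (1 - w ^ t.2.2) * SSTF_m w k * (w ^ D * V w 0 + w ^ D * V w 1 + w ^ D * V w 2)))
        (-s) (-s * (2 + (c₁ + r.1))) (-s * (3 + 2 * (c₁ + r.1) + (c₂ + c₁ * r.1 + r.2.1)))
        (-s * (4 + 3 * (c₁ + r.1) + 2 * (c₂ + c₁ * r.1 + r.2.1) +
          (c₃ + c₂ * r.1 + c₁ * r.2.1 + r.2.2.1))) := by
      intro k hk
      obtain ⟨a, b, c, d, xk⟩ := hx k
      refine (((xk.z4 (n := t.2.2 - 1) (by omega)).add
        ((hone.mul ((SSTF_poly (-1) 0 0 0).mul SSTF_v)).mul hS)).congr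
        fun w hw hw1 => ?_).coef ?_ ?_ ?_ ?_
      · rw [SSTF_mu hk, zpow_sub_one₀ hw.ne']
        unfold u
        have h1 : 1 - w ≠ 0 := by linarith
        have h2 := hw.ne'
        field_simp
        ring
      all_goals ring
    obtain ⟨a2, b2, c2, d2, x2⟩ := hx 2
    have y2 := (x2.z4 (n := t.2.2) (by omega)).add ((hone.mul SSTF_u2).mul hS)
    refine ⟨-s, 2 + (c₁ + r.1), 3 + 2 * (c₁ + r.1) + (c₂ + c₁ * r.1 + r.2.1),
      4 + 3 * (c₁ + r.1) + 2 * (c₂ + c₁ * r.1 + r.2.1) +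
          (c₃ + c₂ * r.1 + c₁ * r.2.1 + r.2.2.1), abs_neg s, ?_, ?_⟩
    · rw [hdl, hnx]
      have n1 : SSTF_T (fun w => w ^ (D + (t.2.2 + SSTF_ex t i - 1)) * stp t V w i)
          (-s) (-s * (2 + (c₁ + r.1))) (-s * (3 + 2 * (c₁ + r.1) + (c₂ + c₁ * r.1 + r.2.1)))
          (-s * (4 + 3 * (c₁ + r.1) + 2 * (c₂ + c₁ * r.1 + r.2.1) +
            (c₃ + c₂ * r.1 + c₁ * r.2.1 + r.2.2.1))) :=
        (key i hty).congr fun w hw _ => by
          rw [SSTE_new t V D _ w hw,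
            show t.2.2 + SSTF_ex t i - 1 - t.2.2 - SSTF_ex t i = -1 by ring, _root_.zpow_neg_one]
      have n3 : (fun w : ℝ => w ^ (D + (t.2.2 + SSTF_ex t i - 1)) * stp t V w 2)
          =O[𝓝[>] (0 : ℝ)] fun w => w ^ 4 :=
        ((SSTF_T.zero (y2.big (SSTF_ex t i - 1) (by omega))).congr fun w hw _ => by
          rw [SSTE_new t V D _ w hw, show SSTF_ex t 2 = 0 from rfl,
            show t.2.2 + SSTF_ex t i - 1 - t.2.2 - 0 = SSTF_ex t i - 1 by ring]
          rfl).isBigO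
      have n2 : ∀ e : ℤ, e = |t.1 - t.2.1| → ∀ w : ℝ, 0 < w →
          w ^ (D + (t.2.2 + SSTF_ex t i - 1) - 1) * stp t V w (sw i) = w ^ (e - 1) * (w⁻¹ *
          (w ^ t.2.2 * (w ^ D * V w (sw i)) + (1 - w ^ t.2.2) * SSTF_m w (sw i) *
            (w ^ D * V w 0 + w ^ D * V w 1 + w ^ D * V w 2))) := by
        intro e he w hw
        have e1 : w ^ (t.2.2 + SSTF_ex t i - 1 - 1 - t.2.2 - SSTF_ex t (sw i)) =
            w ^ (e - 1) * w⁻¹ := by
          rw [← zpow_sub_one₀ hw.ne']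
          congr 1
          rw [he, ← f3]
          ring
        rw [add_sub_assoc, SSTE_new t V D _ w hw, e1, mul_assoc]
      obtain ⟨e, he⟩ : ∃ e : ℤ, e = |t.1 - t.2.1| := ⟨_, rfl⟩
      have k2 := key (sw i) g1
      rw [← he] at he2 ⊢
      unfold nf
      rcases eq_or_ne e 2 with h2 | h2
      · refine SSTF_build i hty _ (-s) _ _ _ _ _ n1 (k2.z1.congr fun w hw _ => ?_) ?_ ?_ ?_ ?_ n3
        · rw [n2 e he w hw, h2]
          norm_num
        all_goals simp [h2]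
      · rcases eq_or_ne e 3 with h3 | h3
        · refine SSTF_build i hty _ (-s) _ _ _ _ _ n1 (k2.z2.congr fun w hw _ => ?_) ?_ ?_ ?_ ?_ n3
          · rw [n2 e he w hw, h3]
            norm_num
          all_goals simp [h3]
        · rcases eq_or_ne e 4 with h4 | h4
          · refine SSTF_build i hty _ (-s) _ _ _ _ _ n1 (k2.z3.congr fun w hw _ => ?_)
              ?_ ?_ ?_ ?_ n3
            · rw [n2 e he w hw, h4]
              norm_num
            all_goals simp [h4]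
          · refine SSTF_build i hty _ (-s) _ _ _ _ _ n1
              ((k2.z4 (n := e - 1) (by omega)).congr fun w hw _ => ?_) ?_ ?_ ?_ ?_ n3
            · rw [n2 e he w hw]
            all_goals simp [h2, h3, h4]
    · rw [hcs]
      unfold Lf cf
      push_cast
      ring

end Pool.Agent.FB.W8
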