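import Pool.Agent.FB.W8.St

/-!
# FB/W8, module SSTF: the strong step for `b < 0`

Statement: see `St_SF` in `Pool/Agent/FB/W8/St.lean`.  With `x_k = w ^ D V_k`, `S = x₀ + x₁ + x₂` and
`β = w ^ (-b)` the new vector is `w ^ (D' - D - a_k) (x_k - (1 - β) m_k S)`, `m = (u, u, 1 - 2 u)`.  All functions
are computed modulo `w ^ 4` (`SSTF_T`: four coefficients).
-/

set_option autoImplicit false

open Filter Asymptotics Topology Matrix LaurentPolynomial Pool.RU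

namespace Pool.Agent.FB.W8

/-! ### functions modulo `w ^ 4` -/

/-- four coefficients -/
def SSTF_T (f : ℝ → ℝ) (a b c d : ℝ) : Prop :=
  (fun w : ℝ => f w - (a + b * w + c * w ^ 2 + d * w ^ 3)) =O[𝓝[>] (0 : ℝ)] fun w => w ^ 4

theorem SSTF_cont {f : ℝ → ℝ} (h : ContinuousAt f 0) :
    f =O[𝓝[>] (0 : ℝ)] fun _ => (1 : ℝ) :=
  (h.tendsto.mono_left nhdsWithin_le_nhds).isBigO_one ℝ

theorem SSTF_zpow (n : ℤ) (k : ℕ) (h : (k : ℤ) ≤ n) :
    (fun w : ℝ => w ^ n) =O[𝓝[>] (0 : ℝ)] fun w => w ^ k := by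
  refine IsBigO.of_bound 1 ?_
  have h1 : Set.Ioo (0 : ℝ) 1 ∈ 𝓝[>] (0 : ℝ) := Ioo_mem_nhdsGT zero_lt_one
  filter_upwards [h1] with w hw
  rw [one_mul, Real.norm_eq_abs, Real.norm_eq_abs, abs_of_pos (zpow_pos hw.1 n),
    abs_of_pos (pow_pos hw.1 k), ← zpow_natCast]
  exact zpow_le_zpow_right_of_le_one₀ hw.1 hw.2.le h

theorem SSTF_pow (n k : ℕ) (h : k ≤ n) :
    (fun w : ℝ => w ^ n) =O[𝓝[>] (0 : ℝ)] fun w => w ^ k := by
  have h1 := SSTF_zpow n k (by exact_mod_cast h)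
  simpa only [zpow_natCast] using h1

theorem SSTF_T.bdd {f : ℝ → ℝ} {a b c d : ℝ} (h : SSTF_T f a b c d) :
    f =O[𝓝[>] (0 : ℝ)] fun _ => (1 : ℝ) := by
  have h1 : (fun w : ℝ => f w - (a + b * w + c * w ^ 2 + d * w ^ 3)) =O[𝓝[>] (0 : ℝ)]
      fun _ => (1 : ℝ) := by
    refine IsBigO.trans h ?_
    simpa using SSTF_pow 4 0 (by norm_num)
  have h2 : (fun w : ℝ => a + b * w + c * w ^ 2 + d * w ^ 3) =O[𝓝[>] (0 : ℝ)]
      fun _ => (1 : ℝ) := SSTF_cont (by fun_prop)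
  refine (h1.add h2).congr_left fun w => ?_
  ring

theorem SSTF_T.congr {f g : ℝ → ℝ} {a b c d : ℝ} (h : SSTF_T f a b c d)
    (hfg : ∀ w : ℝ, 0 < w → w < 1 → f w = g w) : SSTF_T g a b c d := by
  refine IsBigO.congr' h ?_ EventuallyEq.rfl
  have h1 : Set.Ioo (0 : ℝ) 1 ∈ 𝓝[>] (0 : ℝ) := Ioo_mem_nhdsGT zero_lt_one
  filter_upwards [h1] with w hw
  rw [hfg w hw.1 hw.2]

theorem SSTF_T.coef {f : ℝ → ℝ} {a b c d a' b' c' d' : ℝ} (h : SSTF_T f a b c d) (ha : a = a')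
    (hb : b = b') (hc : c = c') (hd : d = d') : SSTF_T f a' b' c' d' := by
  subst ha hb hc hd
  exact h

theorem SSTF_T.add {f g : ℝ → ℝ} {a b c d a' b' c' d' : ℝ} (h : SSTF_T f a b c d)
    (h' : SSTF_T g a' b' c' d') :
    SSTF_T (fun w => f w + g w) (a + a') (b + b') (c + c') (d + d') := by
  refine (IsBigO.add h h').congr_left fun w => ?_
  ring

theorem SSTF_T.sub {f g : ℝ → ℝ} {a b c d a' b' c' d' : ℝ} (h : SSTF_T f a b c d)
    (h' : SSTF_T g a' b' c' d') :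
    SSTF_T (fun w => f w - g w) (a - a') (b - b') (c - c') (d - d') := by
  refine (IsBigO.sub h h').congr_left fun w => ?_
  ring

theorem SSTF_T.mul {f g : ℝ → ℝ} {a b c d a' b' c' d' : ℝ} (h : SSTF_T f a b c d)
    (h' : SSTF_T g a' b' c' d') :
    SSTF_T (fun w => f w * g w) (a * a') (a * b' + b * a') (a * c' + b * b' + c * a')
      (a * d' + b * c' + c * b' + d * a') := by
  have h1 : (fun w : ℝ => (f w - (a + b * w + c * w ^ 2 + d * w ^ 3)) * g w)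
      =O[𝓝[>] (0 : ℝ)] fun w => w ^ 4 * 1 := IsBigO.mul h h'.bdd
  have h2 : (fun w : ℝ => (g w - (a' + b' * w + c' * w ^ 2 + d' * w ^ 3)) *
      (a + b * w + c * w ^ 2 + d * w ^ 3)) =O[𝓝[>] (0 : ℝ)] fun w => w ^ 4 * 1 :=
    IsBigO.mul h' (SSTF_cont (by fun_prop))
  have h3 : (fun w : ℝ => w ^ 4 * ((b * d' + c * c' + d * b') + (c * d' + d * c') * w +
      d * d' * w ^ 2)) =O[𝓝[>] (0 : ℝ)] fun w => w ^ 4 * 1 :=
    (isBigO_refl _ _).mul (SSTF_cont (by fun_prop))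
  simp only [mul_one] at h1 h2 h3
  refine ((h1.add h2).add h3).congr_left fun w => ?_
  ring

theorem SSTF_T.zero {f : ℝ → ℝ} (h : f =O[𝓝[>] (0 : ℝ)] fun w => w ^ 4) : SSTF_T f 0 0 0 0 := by
  refine IsBigO.congr_left h fun w => ?_
  ring

theorem SSTF_T.isBigO {f : ℝ → ℝ} (h : SSTF_T f 0 0 0 0) : f =O[𝓝[>] (0 : ℝ)] fun w => w ^ 4 := by
  refine IsBigO.congr_left h fun w => ?_
  ring

theorem SSTF_poly (a b c d : ℝ) : SSTF_T (fun w => a + b * w + c * w ^ 2 + d * w ^ 3) a b c d := by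
  unfold SSTF_T
  simp only [sub_self]
  exact isBigO_zero _ _

/-- multiplication by a power of `w` -/
theorem SSTF_T.shift {f : ℝ → ℝ} {a b c d : ℝ} (h : SSTF_T f a b c d) :
    SSTF_T (fun w => w * f w) 0 a b c := by
  refine ((SSTF_poly 0 1 0 0).mul h |>.congr fun w _ _ => ?_).coef ?_ ?_ ?_ ?_ <;> ring

theorem SSTF_T.big {f : ℝ → ℝ} {a b c d : ℝ} (h : SSTF_T f a b c d) (n : ℤ) (hn : 4 ≤ n) :
    (fun w => w ^ n * f w) =O[𝓝[>] (0 : ℝ)] fun w => w ^ 4 := by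
  have h1 := (SSTF_zpow n 4 (by exact_mod_cast hn)).mul h.bdd
  simpa only [mul_one] using h1

theorem SSTF_T.big5 {f : ℝ → ℝ} {a b c d : ℝ} (h : SSTF_T f a b c d) (n : ℤ) (hn : 5 ≤ n) :
    (fun w => w ^ n * f w) =O[𝓝[>] (0 : ℝ)] fun w => w ^ 5 := by
  have h1 := (SSTF_zpow n 5 (by exact_mod_cast hn)).mul h.bdd
  simpa only [mul_one] using h1

/-- `(1 - w) ^ (-2)` -/
theorem SSTF_v : SSTF_T (fun w => 1 / (1 - w) ^ 2) 1 2 3 4 := by
  have h1 : (fun w : ℝ => w ^ 4 * ((5 - 4 * w) / (1 - w) ^ 2)) =O[𝓝[>] (0 : ℝ)]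
      fun w => w ^ 4 * 1 := by
    refine (isBigO_refl _ _).mul (SSTF_cont ?_)
    refine ContinuousAt.div (by fun_prop) (by fun_prop) (by norm_num)
  simp only [mul_one] at h1
  refine IsBigO.congr' h1 ?_ EventuallyEq.rfl
  have h2 : Set.Ioo (0 : ℝ) 1 ∈ 𝓝[>] (0 : ℝ) := Ioo_mem_nhdsGT zero_lt_one
  filter_upwards [h2] with w hw
  have h3 : (1 - w) ≠ 0 := by linarith [hw.2]
  field_simp
  ring

theorem SSTF_T.z0 {f : ℝ → ℝ} {a b c d : ℝ} (h : SSTF_T f a b c d) :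
    SSTF_T (fun w => w ^ (0 : ℤ) * f w) a b c d :=
  h.congr fun w _ _ => by rw [zpow_zero, one_mul]

theorem SSTF_T.z1 {f : ℝ → ℝ} {a b c d : ℝ} (h : SSTF_T f a b c d) :
    SSTF_T (fun w => w ^ (1 : ℤ) * f w) 0 a b c :=
  h.shift.congr fun w _ _ => by rw [zpow_one]

theorem SSTF_T.z2 {f : ℝ → ℝ} {a b c d : ℝ} (h : SSTF_T f a b c d) :
    SSTF_T (fun w => w ^ (2 : ℤ) * f w) 0 0 a b :=
  h.shift.shift.congr fun w _ _ => by
    rw [show (2 : ℤ) = ((2 : ℕ) : ℤ) from rfl, zpow_natCast]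
    ring

theorem SSTF_T.z3 {f : ℝ → ℝ} {a b c d : ℝ} (h : SSTF_T f a b c d) :
    SSTF_T (fun w => w ^ (3 : ℤ) * f w) 0 0 0 a :=
  h.shift.shift.shift.congr fun w _ _ => by
    rw [show (3 : ℤ) = ((3 : ℕ) : ℤ) from rfl, zpow_natCast]
    ring

theorem SSTF_T.z4 {f : ℝ → ℝ} {a b c d : ℝ} (h : SSTF_T f a b c d) {n : ℤ} (hn : 4 ≤ n) :
    SSTF_T (fun w => w ^ n * f w) 0 0 0 0 :=
  SSTF_T.zero (h.big n hn)

/-! ### the step -/

/-- the exponents -/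
def SSTF_ex (t : ℤ × ℤ × ℤ) : Fin 3 → ℤ := ![t.1, t.2.1, 0]

/-- the row of the matrix -/
noncomputable def SSTF_m (w : ℝ) : Fin 3 → ℝ := ![u w, u w, 1 - 2 * u w]

theorem SSTF_stp (t : ℤ × ℤ × ℤ) (V : ℝ → Fin 3 → ℝ) (w : ℝ) (k : Fin 3) :
    stp t V w k = (V w k + (w ^ (-t.2.2) - 1) * SSTF_m w k * (V w 0 + V w 1 + V w 2)) *
      w ^ (-(SSTF_ex t k)) := by
  unfold stp B3 SSTF_m SSTF_ex
  rw [← Matrix.vecMul_vecMul, Matrix.vecMul_diagonal, Matrix.vecMul_add, Matrix.vecMul_one,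
    Matrix.vecMul_smul]
  fin_cases k
  · simp [Matrix.vecHead, Matrix.vecTail]
    left
    ring
  · simp [Matrix.vecHead, Matrix.vecTail]
    left
    ring
  · simp [Matrix.vecHead, Matrix.vecTail]
    ring

theorem SSTF_new (t : ℤ × ℤ × ℤ) (V : ℝ → Fin 3 → ℝ) (D e : ℤ) (w : ℝ) (hw : 0 < w) (k : Fin 3) :
    w ^ (D + e) * stp t V w k = w ^ (e - SSTF_ex t k) * (w ^ D * V w k -
      (1 - w ^ (-t.2.2)) * SSTF_m w k * (w ^ D * V w 0 + w ^ D * V w 1 + w ^ D * V w 2)) := by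
  rw [SSTF_stp, sub_eq_add_neg e, zpow_add₀ hw.ne', zpow_add₀ hw.ne']
  ring

theorem SSTF_build (i : Fin 3) (hi : i ≠ 2) (D : ℤ) (s c₁ c₂ c₃ : ℝ) (r : ℤ × ℤ × ℤ × ℤ)
    (V : ℝ → Fin 3 → ℝ) {a b c d : ℝ}
    (h1 : SSTF_T (fun w => w ^ D * V w i) s (s * c₁) (s * c₂) (s * c₃))
    (h2 : SSTF_T (fun w => w ^ (D - 1) * V w (sw i)) a b c d)
    (ha : a = r.1 * s) (hb : b = r.1 * (s * c₁) + r.2.1 * s)
    (hc : c = r.1 * (s * c₂) + r.2.1 * (s * c₁) + r.2.2.1 * s)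
    (hd : d = r.1 * (s * c₃) + r.2.1 * (s * c₂) + r.2.2.1 * (s * c₁) + r.2.2.2 * s)
    (h3 : (fun w : ℝ => w ^ D * V w 2) =O[𝓝[>] (0 : ℝ)] fun w => w ^ 4) :
    SInv i D s c₁ c₂ c₃ r V := by
  refine ⟨?_, fun h => absurd h hi, fun _ => ⟨?_, h3⟩⟩
  · refine IsBigO.congr_left h1 fun w => ?_
    ring
  · have h4 := h2.sub ((SSTF_poly r.1 r.2.1 r.2.2.1 r.2.2.2).mul h1)
    have h5 : SSTF_T (fun w => w ^ (D - 1) * V w (sw i) -
        (r.1 + r.2.1 * w + r.2.2.1 * w ^ 2 + r.2.2.2 * w ^ 3) * (w ^ D * V w i)) 0 0 0 0 := by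
      refine h4.coef ?_ ?_ ?_ ?_
      · rw [ha]; ring
      · rw [hb]; ring
      · rw [hc]; ring
      · rw [hd]; ring
    have h6 := (isBigO_refl (fun w : ℝ => w) (𝓝[>] (0 : ℝ))).mul h5.isBigO
    refine IsBigO.congr' h6 ?_ ?_
    · have h7 : Set.Ioo (0 : ℝ) 1 ∈ 𝓝[>] (0 : ℝ) := Ioo_mem_nhdsGT zero_lt_one
      filter_upwards [h7] with w hw
      have h8 : w ^ D = w * w ^ (D - 1) := by
        rw [mul_comm, zpow_sub_one₀ hw.1.ne', inv_mul_cancel_right₀ hw.1.ne']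
      rw [h8]
      ring
    · filter_upwards with w
      ring

theorem SSTF_build2 (D : ℤ) (s c₁ c₂ c₃ : ℝ) (V : ℝ → Fin 3 → ℝ)
    (h1 : SSTF_T (fun w => w ^ D * V w 2) s (s * c₁) (s * c₂) (s * c₃))
    (h2 : (fun w : ℝ => w ^ D * V w 0) =O[𝓝[>] (0 : ℝ)] fun w => w ^ 5)
    (h3 : (fun w : ℝ => w ^ D * V w 1) =O[𝓝[>] (0 : ℝ)] fun w => w ^ 5) :
    SInv 2 D s c₁ c₂ c₃ (0, 0, 0, 0) V := by
  refine ⟨?_, fun _ => ⟨rfl, h2, h3⟩, fun h => absurd rfl h⟩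
  refine IsBigO.congr_left h1 fun w => ?_
  ring

theorem SSTF_facts (t : ℤ × ℤ × ℤ) (ht : Hyp t) (i : Fin 3) (hi : i ≠ 2) (h : ty t = i) :
    max t.1 t.2.1 = SSTF_ex t i ∧ 5 ≤ SSTF_ex t i ∧
      SSTF_ex t i - SSTF_ex t (sw i) = |t.1 - t.2.1| := by
  obtain ⟨h1, h2, -, h4⟩ := ht
  obtain ⟨a, c, b⟩ := t
  simp only at h1 h2 h4 ⊢
  unfold ty at h
  simp only at h
  split_ifs at h with h5 h6
  · exact absurd h.symm hi
  · subst h
    have e1 : SSTF_ex (a, c, b) 0 = a := rfl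
    have e2 : SSTF_ex (a, c, b) (sw 0) = c := rfl
    rw [e1, e2]
    have h7 : 0 ≤ a := by
      by_contra h8
      exact h5 ⟨by omega, by omega⟩
    rw [abs_of_nonneg h7] at h1
    rw [abs_of_pos (by omega)]
    exact ⟨max_eq_left h6.le, h1, rfl⟩
  · subst h
    have e1 : SSTF_ex (a, c, b) 1 = c := rfl
    have e2 : SSTF_ex (a, c, b) (sw 1) = a := rfl
    rw [e1, e2]
    have h7 : 0 ≤ c := by
      by_contra h8
      exact h5 ⟨by omega, by omega⟩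
    rw [abs_of_nonneg h7] at h2
    rw [abs_of_nonpos (by omega)]
    exact ⟨max_eq_right (by omega), h2, by omega⟩

theorem SSTF_facts2 (t : ℤ × ℤ × ℤ) (ht : Hyp t) (h : ty t = 2) :
    SSTF_ex t 0 ≤ -5 ∧ SSTF_ex t 1 ≤ -5 := by
  obtain ⟨h1, h2, -, -⟩ := ht
  obtain ⟨a, c, b⟩ := t
  simp only at h1 h2
  unfold ty at h
  simp only at h
  split_ifs at h with h5 h6
  · have e1 : SSTF_ex (a, c, b) 0 = a := rfl
    have e2 : SSTF_ex (a, c, b) 1 = c := rfl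
    rw [e1, e2]
    rw [abs_of_neg h5.1] at h1
    rw [abs_of_neg h5.2] at h2
    constructor <;> omega
  · exact absurd h (by decide)
  · exact absurd h (by decide)

theorem SSTF_one {b : ℤ} (hb : b ≤ -5) : SSTF_T (fun w => 1 - w ^ (-b)) 1 0 0 0 := by
  have h1 : (fun w : ℝ => w ^ (-b)) =O[𝓝[>] (0 : ℝ)] fun w => w ^ 4 :=
    SSTF_zpow _ 4 (by push_cast; omega)
  exact ((SSTF_poly 1 0 0 0).sub (SSTF_T.zero h1)).congr (fun w _ _ => by ring) |>.coef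
    (by ring) (by ring) (by ring) (by ring)

theorem SSTF_u : SSTF_T u 0 (-1) (-2) (-3) := by
  refine (((SSTF_poly 0 (-1) 0 0).mul SSTF_v).congr fun w _ _ => ?_).coef ?_ ?_ ?_ ?_
  · unfold u
    ring
  all_goals ring

theorem SSTF_u2 : SSTF_T (fun w => 1 - 2 * u w) 1 2 4 6 := by
  refine ((SSTF_poly 1 0 0 0).sub ((SSTF_poly 2 0 0 0).mul SSTF_u)).congr (fun w _ _ => by ring)
    |>.coef ?_ ?_ ?_ ?_ <;> ring

theorem SSTF_mu {w : ℝ} {k : Fin 3} (hk : k ≠ 2) : SSTF_m w k = u w := by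
  fin_cases k
  · rfl
  · rfl
  · exact absurd rfl hk

theorem SSTF_sw {i : Fin 3} (hi : i ≠ 2) : sw i ≠ 2 ∧ sw (sw i) = i ∧ ∀ g : Fin 3 → ℝ,
    g 0 + g 1 = g i + g (sw i) := by
  fin_cases i
  · exact ⟨by decide, by decide, fun g => rfl⟩
  · exact ⟨by decide, by decide, fun g => add_comm _ _⟩
  · exact absurd rfl hi

/-- division by `w` -/
theorem SSTF_div {f : ℝ → ℝ} (h : f =O[𝓝[>] (0 : ℝ)] fun w => w ^ 5) :
    (fun w => w⁻¹ * f w) =O[𝓝[>] (0 : ℝ)] fun w => w ^ 4 := by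
  have h1 := (isBigO_refl (fun w : ℝ => w⁻¹) (𝓝[>] (0 : ℝ))).mul h
  refine IsBigO.congr' h1 EventuallyEq.rfl ?_
  have h7 : Set.Ioo (0 : ℝ) 1 ∈ 𝓝[>] (0 : ℝ) := Ioo_mem_nhdsGT zero_lt_one
  filter_upwards [h7] with w hw
  have := hw.1.ne'
  field_simp

/-- the vector before the step in the state `2` -/
theorem SSTF_in2 {D : ℤ} {s c₁ c₂ c₃ : ℝ} {r : ℤ × ℤ × ℤ × ℤ} {V : ℝ → Fin 3 → ℝ}
    (h : SInv 2 D s c₁ c₂ c₃ r V) :
    SSTF_T (fun w => w ^ D * V w 2) s (s * c₁) (s * c₂) (s * c₃) ∧ ∀ k : Fin 3, k ≠ 2 →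
      SSTF_T (fun w => w⁻¹ * (w ^ D * V w k)) 0 0 0 0 := by
  obtain ⟨h1, h2, -⟩ := h
  obtain ⟨-, h3, h4⟩ := h2 rfl
  refine ⟨?_, fun k hk => SSTF_T.zero (SSTF_div ?_)⟩
  · refine IsBigO.congr_left h1 fun w => ?_
    ring
  · fin_cases k
    · exact h3
    · exact h4
    · exact absurd rfl hk

/-- the vector before the step in the state `i ≠ 2` -/
theorem SSTF_in {i : Fin 3} (hi : i ≠ 2) {D : ℤ} {s c₁ c₂ c₃ : ℝ} {r : ℤ × ℤ × ℤ × ℤ}
    {V : ℝ → Fin 3 → ℝ} (h : SInv i D s c₁ c₂ c₃ r V) :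
    SSTF_T (fun w => w ^ D * V w i) s (s * c₁) (s * c₂) (s * c₃) ∧
      SSTF_T (fun w => w⁻¹ * (w ^ D * V w (sw i))) (r.1 * s) (r.1 * (s * c₁) + r.2.1 * s)
        (r.1 * (s * c₂) + r.2.1 * (s * c₁) + r.2.2.1 * s)
        (r.1 * (s * c₃) + r.2.1 * (s * c₂) + r.2.2.1 * (s * c₁) + r.2.2.2 * s) ∧
      SSTF_T (fun w => w ^ D * V w 2) 0 0 0 0 := by
  obtain ⟨h1, -, h2⟩ := h
  obtain ⟨h3, h4⟩ := h2 hi
  have h5 : SSTF_T (fun w => w ^ D * V w i) s (s * c₁) (s * c₂) (s * c₃) := by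
    refine IsBigO.congr_left h1 fun w => ?_
    ring
  refine ⟨h5, ?_, SSTF_T.zero h4⟩
  refine (((SSTF_T.zero (SSTF_div h3)).add
    ((SSTF_poly r.1 r.2.1 r.2.2.1 r.2.2.2).mul h5)).congr fun w hw _ => ?_).coef ?_ ?_ ?_ ?_
  · have := hw.ne'
    field_simp
    ring
  all_goals ring

/-- multiplication by `w` of a quotient -/
theorem SSTF_T.mulw {f : ℝ → ℝ} {a b c d : ℝ} (h : SSTF_T (fun w => w⁻¹ * f w) a b c d) :
    SSTF_T f 0 a b c :=
  h.shift.congr fun w hw _ => by rw [← mul_assoc, mul_inv_cancel₀ hw.ne', one_mul]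

/-! ### the cases -/

/-- the case `2 → i` -/
theorem SSTF_A {D : ℤ} {s c₁ c₂ c₃ : ℝ} {r : ℤ × ℤ × ℤ × ℤ} {V : ℝ → Fin 3 → ℝ} {t : ℤ × ℤ × ℤ}
    (ht : Hyp t) (hb : t.2.2 < 0) (h : SInv 2 D s c₁ c₂ c₃ r V) (hi : ty t ≠ 2) :
    SInv (ty t) (D + dl 2 t) s (2 + c₁) (3 + 2 * c₁ + c₂) (4 + 3 * c₁ + 2 * c₂ + c₃)
      (nxt 2 t r) (stp t V) ∧
    Lf (2 + c₁) (3 + 2 * c₁ + c₂) (4 + 3 * c₁ + 2 * c₂ + c₃) =
      Lf c₁ c₂ c₃ + cst 2 t r := by
  have hb5 : t.2.2 ≤ -5 := by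
    have := ht.2.2.1
    rw [abs_of_neg hb] at this
    omega
  have he2 := ht.2.2.2
  obtain ⟨i, hi'⟩ : ∃ i, ty t = i := ⟨_, rfl⟩
  obtain ⟨f1, f2, f3⟩ := SSTF_facts t ht i (hi' ▸ hi) hi'
  rw [hi'] at hi ⊢
  obtain ⟨g1, g2, g3⟩ := SSTF_sw hi
  have hr : r = (0, 0, 0, 0) := (h.2.1 rfl).1
  obtain ⟨x2, xk⟩ := SSTF_in2 h
  have hdl : dl 2 t = SSTF_ex t i - 1 := by
    unfold dl
    rw [if_neg (by omega), hi', if_neg hi, if_neg (fun h => hi h.symm), f1]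
  have hnx : nxt 2 t r = nf |t.1 - t.2.1| := by
    unfold nxt
    rw [hi', if_neg hi, if_pos (Or.inr rfl)]
  have hcs : cst 2 t r = 18 := by
    unfold cst
    rw [hi', if_neg hi, if_pos (Or.inr (Or.inr rfl)), hr]
    rfl
  have hS : SSTF_T (fun w => w ^ D * V w i + w ^ D * V w (sw i) + w ^ D * V w 2) s (s * c₁)
      (s * c₂) (s * c₃) :=
    (((xk i hi).mulw.add (xk (sw i) g1).mulw).add x2).coef (by ring) (by ring) (by ring) (by ring)
  have hS' : ∀ w : ℝ, w ^ D * V w 0 + w ^ D * V w 1 + w ^ D * V w 2 =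
      w ^ D * V w i + w ^ D * V w (sw i) + w ^ D * V w 2 := fun w => by
    rw [g3 (fun k => w ^ D * V w k)]
  -- the two new coordinates, divided by `w`
  have key : ∀ k : Fin 3, k ≠ 2 → SSTF_T (fun w => w⁻¹ * (w ^ D * V w k -
      (1 - w ^ (-t.2.2)) * SSTF_m w k * (w ^ D * V w 0 + w ^ D * V w 1 + w ^ D * V w 2)))
      s (s * (2 + c₁)) (s * (3 + 2 * c₁ + c₂)) (s * (4 + 3 * c₁ + 2 * c₂ + c₃)) := by
    intro k hk
    refine (((xk k hk).add (((SSTF_one hb5).mul SSTF_v).mul hS)).congr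
      fun w hw hw1 => ?_).coef ?_ ?_ ?_ ?_
    · rw [hS', SSTF_mu hk]
      unfold u
      have h1 : 1 - w ≠ 0 := by linarith
      have h2 := hw.ne'
      field_simp
      ring
    all_goals ring
  have y2 : SSTF_T (fun w => w ^ D * V w 2 - (1 - w ^ (-t.2.2)) * SSTF_m w 2 *
      (w ^ D * V w 0 + w ^ D * V w 1 + w ^ D * V w 2)) _ _ _ _ :=
    (x2.sub (((SSTF_one hb5).mul SSTF_u2).mul hS)).congr fun w _ _ => by
      rw [hS']
      rfl
  refine ⟨?_, ?_⟩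
  · rw [hdl, hnx]
    have n1 : SSTF_T (fun w => w ^ (D + (SSTF_ex t i - 1)) * stp t V w i)
        s (s * (2 + c₁)) (s * (3 + 2 * c₁ + c₂)) (s * (4 + 3 * c₁ + 2 * c₂ + c₃)) :=
      (key i hi).congr fun w hw _ => by
        rw [SSTF_new t V D _ w hw, show SSTF_ex t i - 1 - SSTF_ex t i = -1 by ring, _root_.zpow_neg_one]
    have n3 : (fun w : ℝ => w ^ (D + (SSTF_ex t i - 1)) * stp t V w 2) =O[𝓝[>] (0 : ℝ)]
        fun w => w ^ 4 :=
      ((SSTF_T.zero (y2.big (SSTF_ex t i - 1) (by omega))).congr fun w hw _ => by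
        rw [SSTF_new t V D _ w hw, show SSTF_ex t 2 = 0 from rfl, sub_zero]).isBigO
    have n2 : ∀ e : ℤ, e = |t.1 - t.2.1| → ∀ w : ℝ, 0 < w →
        w ^ (D + (SSTF_ex t i - 1) - 1) * stp t V w (sw i) = w ^ (e - 1) * (w⁻¹ *
        (w ^ D * V w (sw i) - (1 - w ^ (-t.2.2)) * SSTF_m w (sw i) *
          (w ^ D * V w 0 + w ^ D * V w 1 + w ^ D * V w 2))) := by
      intro e he w hw
      rw [add_sub_assoc, SSTF_new t V D _ w hw, ← mul_assoc, ← zpow_sub_one₀ hw.ne']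
      congr 2
      rw [he, ← f3]
      ring
    obtain ⟨e, he⟩ : ∃ e : ℤ, e = |t.1 - t.2.1| := ⟨_, rfl⟩
    have k2 := key (sw i) g1
    rw [← he] at he2 ⊢
    unfold nf
    rcases eq_or_ne e 2 with h2 | h2
    · refine SSTF_build i hi _ s _ _ _ _ _ n1 (k2.z1.congr fun w hw _ => ?_) ?_ ?_ ?_ ?_ n3
      · rw [n2 e he w hw, h2]
        norm_num
      all_goals simp [h2]
    · rcases eq_or_ne e 3 with h3 | h3
      · refine SSTF_build i hi _ s _ _ _ _ _ n1 (k2.z2.congr fun w hw _ => ?_) ?_ ?_ ?_ ?_ n3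
        · rw [n2 e he w hw, h3]
          norm_num
        all_goals simp [h3]
      · rcases eq_or_ne e 4 with h4 | h4
        · refine SSTF_build i hi _ s _ _ _ _ _ n1 (k2.z3.congr fun w hw _ => ?_) ?_ ?_ ?_ ?_ n3
          · rw [n2 e he w hw, h4]
            norm_num
          all_goals simp [h4]
        · refine SSTF_build i hi _ s _ _ _ _ _ n1
            ((k2.z4 (n := e - 1) (by omega)).congr fun w hw _ => ?_) ?_ ?_ ?_ ?_ n3
          · rw [n2 e he w hw]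
          all_goals simp [h2, h3, h4]
  · rw [hcs]
    unfold Lf
    push_cast
    ring

/-- the case `i → 2` -/
theorem SSTF_B {D : ℤ} {s c₁ c₂ c₃ : ℝ} {r : ℤ × ℤ × ℤ × ℤ} {V : ℝ → Fin 3 → ℝ} {t : ℤ × ℤ × ℤ}
    {i : Fin 3} (hi : i ≠ 2) (ht : Hyp t) (hb : t.2.2 < 0) (h : SInv i D s c₁ c₂ c₃ r V)
    (hty : ty t = 2) : ∃ c₁' c₂' c₃' : ℝ,
    SInv 2 (D + dl i t) (-s) c₁' c₂' c₃' (nxt i t r) (stp t V) ∧
    Lf c₁' c₂' c₃' = Lf c₁ c₂ c₃ + cst i t r := by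
  have hb5 : t.2.2 ≤ -5 := by
    have := ht.2.2.1
    rw [abs_of_neg hb] at this
    omega
  obtain ⟨f1, f2⟩ := SSTF_facts2 t ht hty
  obtain ⟨g1, g2, g3⟩ := SSTF_sw hi
  obtain ⟨xi, xj, x2⟩ := SSTF_in hi h
  have hdl : dl i t = 0 := by
    unfold dl
    rw [if_neg (by omega), if_pos hty, if_neg hi]
  have hnx : nxt i t r = (0, 0, 0, 0) := by
    unfold nxt
    rw [if_pos hty]
  have hcs : cst i t r = 24 + cf r := by
    unfold cst
    rw [if_pos hty, if_pos (Or.inr (Or.inl hty))]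
  have hS := (xi.add xj.mulw).add x2
  have hS' : ∀ w : ℝ, w ^ D * V w 0 + w ^ D * V w 1 + w ^ D * V w 2 =
      w ^ D * V w i + w ^ D * V w (sw i) + w ^ D * V w 2 := fun w => by
    rw [g3 (fun k => w ^ D * V w k)]
  have y2 := x2.sub (((SSTF_one hb5).mul SSTF_u2).mul hS)
  have hk : ∀ k : Fin 3, k ≠ 2 → SSTF_ex t k ≤ -5 → (fun w : ℝ => w ^ (D + 0) * stp t V w k)
      =O[𝓝[>] (0 : ℝ)] fun w => w ^ 5 := by
    intro k hk hk5
    have h1 : ∃ a b c d, SSTF_T (fun w => w ^ D * V w k) a b c d := by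
      rcases eq_or_ne k i with h2 | h2
      · rw [h2]
        exact ⟨_, _, _, _, xi⟩
      · have h3 : k = sw i := by
          fin_cases k <;> fin_cases i <;> first | rfl | exact absurd rfl h2 | exact absurd rfl hk |
            exact absurd rfl hi
        rw [h3]
        exact ⟨_, _, _, _, xj.mulw⟩
    obtain ⟨a, b, c, d, h1⟩ := h1
    have h0 := h1.sub (((SSTF_one hb5).mul SSTF_u).mul hS)
    have h1 := h0.big5 (-SSTF_ex t k) (by omega)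
    refine IsBigO.congr' h1 ?_ EventuallyEq.rfl
    have h7 : Set.Ioo (0 : ℝ) 1 ∈ 𝓝[>] (0 : ℝ) := Ioo_mem_nhdsGT zero_lt_one
    filter_upwards [h7] with w hw
    rw [SSTF_new t V D _ w hw.1, SSTF_mu hk, hS', zero_sub]
  refine ⟨c₁ + r.1 + 2, c₂ + c₁ * (r.1 + 2) + (r.2.1 + 2 * r.1 + 4),
    c₃ + c₂ * (r.1 + 2) + c₁ * (r.2.1 + 2 * r.1 + 4) + (r.2.2.1 + 2 * r.2.1 + 4 * r.1 + 6), ?_, ?_⟩
  · rw [hdl, hnx]
    refine SSTF_build2 _ _ _ _ _ _ ((y2.congr fun w hw _ => ?_).coef ?_ ?_ ?_ ?_)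
      (hk 0 (by decide) f1) (hk 1 (by decide) f2)
    · rw [SSTF_new t V D _ w hw, show SSTF_ex t 2 = 0 from rfl, sub_zero, zpow_zero, one_mul, hS']
      rfl
    all_goals ring
  · rw [hcs]
    unfold Lf cf
    push_cast
    ring

/-- the case `i → i` -/
theorem SSTF_C {D : ℤ} {s c₁ c₂ c₃ : ℝ} {r : ℤ × ℤ × ℤ × ℤ} {V : ℝ → Fin 3 → ℝ} {t : ℤ × ℤ × ℤ}
    {i : Fin 3} (hi : i ≠ 2) (ht : Hyp t) (hb : t.2.2 < 0) (h : SInv i D s c₁ c₂ c₃ r V)
    (hty : ty t = i) : ∃ c₁' c₂' c₃' : ℝ,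
    SInv i (D + dl i t) s c₁' c₂' c₃' (nxt i t r) (stp t V) ∧
    Lf c₁' c₂' c₃' = Lf c₁ c₂ c₃ + cst i t r := by
  have hb5 : t.2.2 ≤ -5 := by
    have := ht.2.2.1
    rw [abs_of_neg hb] at this
    omega
  have he2 := ht.2.2.2
  obtain ⟨f1, f2, f3⟩ := SSTF_facts t ht i hi hty
  obtain ⟨g1, g2, g3⟩ := SSTF_sw hi
  obtain ⟨xi, xj, x2⟩ := SSTF_in hi h
  have hdl : dl i t = SSTF_ex t i := by
    unfold dl
    rw [if_neg (by omega), hty, if_neg hi, if_pos rfl, f1]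
  have hnx : nxt i t r = ng |t.1 - t.2.1| r := by
    unfold nxt
    rw [hty, if_neg hi, if_neg (fun h => h.elim (by omega) hi), if_pos rfl]
  have hcs : cst i t r = 18 + cg r := by
    unfold cst
    rw [hty, if_neg hi, if_neg (fun h => h.elim (by omega) fun h => h.elim hi hi), if_pos rfl]
  have hS := (xi.add xj.mulw).add x2
  have hS' : ∀ w : ℝ, w ^ D * V w 0 + w ^ D * V w 1 + w ^ D * V w 2 =
      w ^ D * V w i + w ^ D * V w (sw i) + w ^ D * V w 2 := fun w => by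
    rw [g3 (fun k => w ^ D * V w k)]
  have yi := xi.sub (((SSTF_one hb5).mul SSTF_u).mul hS)
  have yj := xj.mulw.sub (((SSTF_one hb5).mul SSTF_u).mul hS)
  have y2 := x2.sub (((SSTF_one hb5).mul SSTF_u2).mul hS)
  refine ⟨c₁ + 1, c₂ + c₁ + (2 + r.1), c₃ + c₂ + c₁ * (2 + r.1) + (3 + 2 * r.1 + r.2.1), ?_, ?_⟩
  · rw [hdl, hnx]
    have n1 : SSTF_T (fun w => w ^ (D + SSTF_ex t i) * stp t V w i)
        s (s * (c₁ + 1)) (s * (c₂ + c₁ + (2 + r.1)))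
        (s * (c₃ + c₂ + c₁ * (2 + r.1) + (3 + 2 * r.1 + r.2.1))) := by
      refine (yi.congr fun w hw _ => ?_).coef ?_ ?_ ?_ ?_
      · rw [SSTF_new t V D _ w hw, sub_self, zpow_zero, one_mul, hS', SSTF_mu hi]
      all_goals ring
    have n3 : (fun w : ℝ => w ^ (D + SSTF_ex t i) * stp t V w 2) =O[𝓝[>] (0 : ℝ)]
        fun w => w ^ 4 :=
      ((SSTF_T.zero (y2.big (SSTF_ex t i) (by omega))).congr fun w hw _ => by
        rw [SSTF_new t V D _ w hw, show SSTF_ex t 2 = 0 from rfl, sub_zero, hS']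
        rfl).isBigO
    have n2 : ∀ e : ℤ, e = |t.1 - t.2.1| → ∀ w : ℝ, 0 < w →
        w ^ (D + SSTF_ex t i - 1) * stp t V w (sw i) = w ^ (e - 1) *
        (w ^ D * V w (sw i) - (1 - w ^ (-t.2.2)) * u w *
          (w ^ D * V w i + w ^ D * V w (sw i) + w ^ D * V w 2)) := by
      intro e he w hw
      rw [add_sub_assoc, SSTF_new t V D _ w hw, hS', SSTF_mu g1]
      congr 2
      rw [he, ← f3]
      ring
    obtain ⟨e, he⟩ : ∃ e : ℤ, e = |t.1 - t.2.1| := ⟨_, rfl⟩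
    rw [← he] at he2 ⊢
    unfold ng
    rcases eq_or_ne e 2 with h2 | h2
    · refine SSTF_build i hi _ s _ _ _ _ _ n1 (yj.z1.congr fun w hw _ => ?_) ?_ ?_ ?_ ?_ n3
      · rw [n2 e he w hw, h2]
        norm_num
      all_goals simp [h2]
      all_goals ring
    · rcases eq_or_ne e 3 with h3 | h3
      · refine SSTF_build i hi _ s _ _ _ _ _ n1 (yj.z2.congr fun w hw _ => ?_) ?_ ?_ ?_ ?_ n3
        · rw [n2 e he w hw, h3]
          norm_num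
        all_goals simp [h3]
        all_goals ring
      · rcases eq_or_ne e 4 with h4 | h4
        · refine SSTF_build i hi _ s _ _ _ _ _ n1 (yj.z3.congr fun w hw _ => ?_) ?_ ?_ ?_ ?_ n3
          · rw [n2 e he w hw, h4]
            norm_num
          all_goals simp [h4]
        · refine SSTF_build i hi _ s _ _ _ _ _ n1
            ((yj.z4 (n := e - 1) (by omega)).congr fun w hw _ => ?_) ?_ ?_ ?_ ?_ n3
          · rw [n2 e he w hw]
          all_goals simp [h2, h3]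
  · rw [hcs]
    unfold Lf cg
    push_cast
    ring

/-- the case `i → sw i` -/
theorem SSTF_D {D : ℤ} {s c₁ c₂ c₃ : ℝ} {r : ℤ × ℤ × ℤ × ℤ} {V : ℝ → Fin 3 → ℝ} {t : ℤ × ℤ × ℤ}
    {i : Fin 3} (hi : i ≠ 2) (ht : Hyp t) (hb : t.2.2 < 0) (h : SInv i D s c₁ c₂ c₃ r V)
    (hty : ty t = sw i) (hr : r.1 = 0) : ∃ c₁' c₂' c₃' : ℝ,
    SInv (sw i) (D + dl i t) s c₁' c₂' c₃' (nxt i t r) (stp t V) ∧
    Lf c₁' c₂' c₃' = Lf c₁ c₂ c₃ + cst i t r := by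
  have hb5 : t.2.2 ≤ -5 := by
    have := ht.2.2.1
    rw [abs_of_neg hb] at this
    omega
  have he2 := ht.2.2.2
  obtain ⟨g1, g2, g3⟩ := SSTF_sw hi
  obtain ⟨f1, f2, f3⟩ := SSTF_facts t ht (sw i) g1 hty
  rw [g2] at f3
  have hij : i ≠ sw i := by
    fin_cases i
    · decide
    · decide
    · exact absurd rfl hi
  obtain ⟨xi, xj, x2⟩ := SSTF_in hi h
  have hdl : dl i t = SSTF_ex t (sw i) - 1 := by
    unfold dl
    rw [if_neg (by omega), hty, if_neg g1, if_neg hij, f1]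
  have hnx : nxt i t r = nh |t.1 - t.2.1| r := by
    unfold nxt
    rw [hty, if_neg g1, if_neg (fun h => h.elim (by omega) hi), if_neg hij]
  have hcs : cst i t r = 18 + ch r := by
    unfold cst
    rw [hty, if_neg g1, if_neg (fun h => h.elim (by omega) fun h => h.elim g1 hi), if_neg hij]
  have hS := (xi.add xj.mulw).add x2
  have hS' : ∀ w : ℝ, w ^ D * V w 0 + w ^ D * V w 1 + w ^ D * V w 2 =
      w ^ D * V w i + w ^ D * V w (sw i) + w ^ D * V w 2 := fun w => by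
    rw [g3 (fun k => w ^ D * V w k)]
  have yi := xi.sub (((SSTF_one hb5).mul SSTF_u).mul hS)
  have yj := xj.add (((SSTF_one hb5).mul SSTF_v).mul hS)
  have y2 := x2.sub (((SSTF_one hb5).mul SSTF_u2).mul hS)
  have hr' : (r.1 : ℝ) = 0 := by rw [hr, Int.cast_zero]
  refine ⟨c₁ + (2 + r.2.1), c₂ + c₁ * (2 + r.2.1) + (3 + r.2.2.1 + r.2.1),
    c₃ + c₂ * (2 + r.2.1) + c₁ * (3 + r.2.2.1 + r.2.1) + (4 + r.2.2.2 + r.2.2.1 + 2 * r.2.1),
    ?_, ?_⟩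
  · rw [hdl, hnx]
    have n1 : SSTF_T (fun w => w ^ (D + (SSTF_ex t (sw i) - 1)) * stp t V w (sw i))
        s (s * (c₁ + (2 + r.2.1))) (s * (c₂ + c₁ * (2 + r.2.1) + (3 + r.2.2.1 + r.2.1)))
        (s * (c₃ + c₂ * (2 + r.2.1) + c₁ * (3 + r.2.2.1 + r.2.1) +
          (4 + r.2.2.2 + r.2.2.1 + 2 * r.2.1))) := by
      refine (yj.congr fun w hw hw1 => ?_).coef ?_ ?_ ?_ ?_
      · rw [SSTF_new t V D _ w hw, show SSTF_ex t (sw i) - 1 - SSTF_ex t (sw i) = -1 by ring,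
          _root_.zpow_neg_one, hS', SSTF_mu g1]
        unfold u
        have h1 : 1 - w ≠ 0 := by linarith
        have h2 := hw.ne'
        field_simp
        ring
      all_goals rw [hr']
      all_goals ring
    have n3 : (fun w : ℝ => w ^ (D + (SSTF_ex t (sw i) - 1)) * stp t V w 2) =O[𝓝[>] (0 : ℝ)]
        fun w => w ^ 4 :=
      ((SSTF_T.zero (y2.big (SSTF_ex t (sw i) - 1) (by omega))).congr fun w hw _ => by
        rw [SSTF_new t V D _ w hw, show SSTF_ex t 2 = 0 from rfl, sub_zero, hS']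
        rfl).isBigO
    have n2 : ∀ e : ℤ, e = |t.1 - t.2.1| → ∀ w : ℝ, 0 < w →
        w ^ (D + (SSTF_ex t (sw i) - 1) - 1) * stp t V w (sw (sw i)) = w ^ (e - 2) *
        (w ^ D * V w i - (1 - w ^ (-t.2.2)) * u w *
          (w ^ D * V w i + w ^ D * V w (sw i) + w ^ D * V w 2)) := by
      intro e he w hw
      rw [g2, add_sub_assoc, SSTF_new t V D _ w hw, hS', SSTF_mu hi]
      congr 2
      rw [he, ← f3]
      ring
    obtain ⟨e, he⟩ : ∃ e : ℤ, e = |t.1 - t.2.1| := ⟨_, rfl⟩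
    rw [← he] at he2 ⊢
    unfold nh
    rcases eq_or_ne e 2 with h2 | h2
    · refine SSTF_build (sw i) g1 _ s _ _ _ _ _ n1 (yi.z0.congr fun w hw _ => ?_) ?_ ?_ ?_ ?_ n3
      · rw [n2 e he w hw, h2]
        norm_num
      all_goals simp [h2, hr']
      all_goals ring
    · rcases eq_or_ne e 3 with h3 | h3
      · refine SSTF_build (sw i) g1 _ s _ _ _ _ _ n1 (yi.z1.congr fun w hw _ => ?_) ?_ ?_ ?_ ?_ n3
        · rw [n2 e he w hw, h3]
          norm_num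
        all_goals simp [h3, hr']
        all_goals ring
      · rcases eq_or_ne e 4 with h4 | h4
        · refine SSTF_build (sw i) g1 _ s _ _ _ _ _ n1 (yi.z2.congr fun w hw _ => ?_) ?_ ?_ ?_ ?_ n3
          · rw [n2 e he w hw, h4]
            norm_num
          all_goals simp [h4, hr']
          all_goals ring
        · rcases eq_or_ne e 5 with h5 | h5
          · refine SSTF_build (sw i) g1 _ s _ _ _ _ _ n1 (yi.z3.congr fun w hw _ => ?_)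
              ?_ ?_ ?_ ?_ n3
            · rw [n2 e he w hw, h5]
              norm_num
            all_goals simp [h5]
          · refine SSTF_build (sw i) g1 _ s _ _ _ _ _ n1
              ((yi.z4 (n := e - 2) (by omega)).congr fun w hw _ => ?_) ?_ ?_ ?_ ?_ n3
            · rw [n2 e he w hw]
            all_goals simp [h2, h3, h4, h5]
  · rw [hcs]
    unfold Lf ch
    push_cast
    ring

/-- **Module SSTF** -/
theorem thm_SF : St_SF := by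
  intro X D s c₁ c₂ c₃ r V t ht hb _ h hne hr
  rcases eq_or_ne X 2 with hX | hX
  · subst hX
    have hi : ty t ≠ 2 := fun h => hne ⟨h, rfl⟩
    obtain ⟨h1, h2⟩ := SSTF_A ht hb h hi
    exact ⟨s, _, _, _, rfl, h1, h2⟩
  · rcases eq_or_ne (ty t) 2 with h2 | h2
    · obtain ⟨c₁', c₂', c₃', h3, h4⟩ := SSTF_B hX ht hb h h2
      rw [h2]
      exact ⟨-s, c₁', c₂', c₃', abs_neg s, h3, h4⟩
    · rcases eq_or_ne (ty t) X with h3 | h3
      · obtain ⟨c₁', c₂', c₃', h4, h5⟩ := SSTF_C hX ht hb h h3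
        rw [h3]
        exact ⟨s, c₁', c₂', c₃', rfl, h4, h5⟩
      · have h4 : ty t = sw X := by
          generalize ty t = Y at h2 h3
          fin_cases X <;> fin_cases Y <;> first | rfl | exact absurd rfl h2 | exact absurd rfl h3 |
            exact absurd rfl hX
        obtain ⟨c₁', c₂', c₃', h5, h6⟩ := SSTF_D hX ht hb h h4 (hr h2 hX h3)
        rw [h4]
        exact ⟨s, c₁', c₂', c₃', rfl, h5, h6⟩

end Pool.Agent.FB.W8
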