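import Pool.Agent.FB.W8.T2I

/-!
# FB/W8: the `2 × 2` side, every word

`S(es) = 0`, or `L(S(es)) ≤ 0`, and the leading coefficient is `1` or `-1` unless `S(es) ^ 2 = 4 det`.
-/

set_option autoImplicit false

open scoped LaurentPolynomial Polynomial
open Polynomial (toLaurent X)
open Matrix

namespace Pool.Agent.FB.W8.T2X

/-- `2 - q - q⁻¹` -/
noncomputable def QL : ℚ[T;T⁻¹] := -(T (-1) * (1 - w) ^ 2)

theorem HLc_om : HLc (1 - w) 1 (-9) := by
  have h1 : Hd (1 : ℚ[T;T⁻¹]) 0 1 0 0 0 := ⟨0, by simp [T_zero]⟩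
  have h2 : Hd w 1 1 0 0 0 := ⟨0, by rw [T_one]; simp⟩
  have := HLc.of_Hd (h1.sub1 h2 (by norm_num)) one_ne_zero
  convert this using 1
  norm_num [Ls]

theorem HLc_T (n : ℤ) : HLc (T n) 1 0 :=
  ⟨one_ne_zero, n, 0, 0, 0, ⟨0, by simp⟩, by norm_num [Ls]⟩

theorem HLc_neg {x : ℚ[T;T⁻¹]} {c l : ℚ} (h : HLc x c l) : HLc (-x) (-c) l := by
  obtain ⟨hc, n, a, b, d, h, hl⟩ := h
  exact ⟨neg_ne_zero.2 hc, n, a, b, d, h.neg, hl⟩

theorem HLc_QL : HLc QL (-1) (-18) := by
  have := HLc_neg ((HLc_T (-1)).mul (HLc_om.mul HLc_om))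
  rw [← pow_two] at this
  rw [QL]
  convert this using 1 <;> norm_num

theorem mat_zero (e f : ℤ) : P e * P 0 * P f = QL • P (e + f) := by
  ext i j : 2
  have h1 : T (e + f - 1) = T (e - 1) * T (f - 1) * w := by
    rw [← T_one, ← T_add, ← T_add]; congr 1; ring
  have h2 := hu
  fin_cases i <;> fin_cases j <;>
    simp only [P, QL, Phi, Matrix.mul_fin_two, T_e e, T_e f, T_e (e + f), h1, T_zero, zero_sub,
      Matrix.smul_apply, smul_eq_mul, Fin.zero_eta, Fin.mk_one, Matrix.of_apply, Matrix.cons_val',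
      Matrix.cons_val_zero, Matrix.cons_val_one, Matrix.cons_val_fin_one, Fin.isValue] <;>
    grind

theorem mat_one (e f : ℤ) : P e * P 1 * P f = (w * (1 - w)) • (P (e - 1) * P (f - 1)) := by
  ext i j : 2
  have h1 : T (e - 1) = T (e - 1 - 1) * w := by
    rw [← T_one, ← T_add]; congr 1; ring
  have h2 : T (f - 1) = T (f - 1 - 1) * w := by
    rw [← T_one, ← T_add]; congr 1; ring
  fin_cases i <;> fin_cases j <;>
    simp only [P, Phi, Matrix.mul_fin_two, T_e e, T_e f, h1, h2, sub_self, T_zero, T_one,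
      Matrix.smul_apply, smul_eq_mul, Fin.zero_eta, Fin.mk_one, Matrix.of_apply, Matrix.cons_val',
      Matrix.cons_val_zero, Matrix.cons_val_one, Matrix.cons_val_fin_one, Fin.isValue] <;>
    grind

theorem mat_neg (e f : ℤ) :
    P e * P (-1) * P f = (-(T (-1) ^ 2 * (1 - w))) • (P (e + 1) * P (f + 1)) := by
  ext i j : 2
  have h1 : T (e + 1) = T (e - 1) * w ^ 2 := by
    rw [show (w : ℚ[T;T⁻¹]) ^ 2 = T 2 from (T_nat 2).symm, ← T_add]; congr 1; ring
  have h2 : T (f + 1) = T (f - 1) * w ^ 2 := by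
    rw [show (w : ℚ[T;T⁻¹]) ^ 2 = T 2 from (T_nat 2).symm, ← T_add]; congr 1; ring
  have h3 : T (-1 - 1) = T (-1) ^ 2 := by rw [show (-1 : ℤ) - 1 = -(2 : ℕ) by norm_num, uw]
  have h4 := hu
  fin_cases i <;> fin_cases j <;>
    simp only [P, Phi, Matrix.mul_fin_two, T_e e, T_e f, h1, h2, h3, add_sub_cancel_right,
      Matrix.smul_apply, smul_eq_mul, Fin.zero_eta, Fin.mk_one, Matrix.of_apply, Matrix.cons_val',
      Matrix.cons_val_zero, Matrix.cons_val_one, Matrix.cons_val_fin_one, Fin.isValue] <;>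
    grind

theorem S_append (l m : List ℤ) : S (l ++ m) = S (m ++ l) := by
  simp only [S, List.map_append, List.prod_append]
  exact Matrix.trace_mul_comm _ _

/-- the determinant of a word -/
noncomputable def dt (es : List ℤ) : ℚ[T;T⁻¹] := (es.map P).prod.det

theorem dt_append (l m : List ℤ) : dt (l ++ m) = dt (m ++ l) := by
  simp only [dt, List.map_append, List.prod_append, Matrix.det_mul]
  exact mul_comm _ _

theorem good_append {l m : List ℤ} (h : Good (l ++ m)) : Good (m ++ l) := by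
  have h1 := S_append m l
  have h2 : ((m ++ l).map P).prod.det = ((l ++ m).map P).prod.det := dt_append m l
  rw [Good, h1, h2]; exact h

theorem good_scale {es fs : List ℤ} {κ : ℚ[T;T⁻¹]} {c l : ℚ} (hκ : HLc κ c l) (hc : |c| = 1)
    (hl : l ≤ 0) (h1 : S es = κ * S fs) (h2 : dt es = κ ^ 2 * dt fs) (h : Good fs) : Good es := by
  rcases h with h | ⟨c', l', hl', h, h3⟩
  · left; rw [h1, h, mul_zero]
  · right
    refine ⟨c * c', l + l', by linarith, ?_, ?_⟩
    · rw [h1]; exact hκ.mul h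
    · rcases h3 with h3 | h3
      · left; rw [abs_mul, hc, h3, one_mul]
      · right
        change S es ^ 2 = 4 * dt es
        change S fs ^ 2 = 4 * dt fs at h3
        rw [h1, h2, mul_pow, h3]; ring

theorem prod_three {a b c : ℤ} {r : List ℤ} {X : Matrix (Fin 2) (Fin 2) ℚ[T;T⁻¹]}
    {κ : ℚ[T;T⁻¹]} (h : P a * P b * P c = κ • X) :
    ((a :: b :: c :: r).map P).prod = κ • (X * (r.map P).prod) := by
  simp only [List.map_cons, List.prod_cons, ← mul_assoc]
  rw [h, Matrix.smul_mul]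

theorem good_zero {e f : ℤ} {r : List ℤ} (h : Good ((e + f) :: r)) : Good (e :: 0 :: f :: r) := by
  have hp := prod_three (r := r) (mat_zero e f)
  refine good_scale HLc_QL (by norm_num) (by norm_num) ?_ ?_ h
  · rw [S, hp, Matrix.trace_smul, smul_eq_mul]; rfl
  · rw [dt, hp, Matrix.det_smul, Fintype.card_fin]; rfl

theorem HLc_k1 : HLc (w * (1 - w)) 1 (-9) := by
  have := (HLc_T 1).mul HLc_om
  rw [T_one] at this
  convert this using 1 <;> norm_num

theorem HLc_km : HLc (-(T (-1) ^ 2 * (1 - w))) (-1) (-9) := by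
  have := HLc_neg ((HLc_T (-(2 : ℕ))).mul HLc_om)
  rw [uw] at this
  convert this using 1 <;> norm_num

theorem good_pone {e f : ℤ} {r : List ℤ} (h : Good ((e - 1) :: (f - 1) :: r)) :
    Good (e :: 1 :: f :: r) := by
  have hp := prod_three (r := r) (mat_one e f)
  rw [mul_assoc] at hp
  refine good_scale HLc_k1 (by norm_num) (by norm_num) ?_ ?_ h
  · rw [S, hp, Matrix.trace_smul, smul_eq_mul]; rfl
  · rw [dt, hp, Matrix.det_smul, Fintype.card_fin]; rfl

theorem good_mone {e f : ℤ} {r : List ℤ} (h : Good ((e + 1) :: (f + 1) :: r)) :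
    Good (e :: -1 :: f :: r) := by
  have hp := prod_three (r := r) (mat_neg e f)
  rw [mul_assoc] at hp
  refine good_scale HLc_km (by norm_num) (by norm_num) ?_ ?_ h
  · rw [S, hp, Matrix.trace_smul, smul_eq_mul]; rfl
  · rw [dt, hp, Matrix.det_smul, Fintype.card_fin]; rfl

theorem dt_two (e f : ℤ) : dt [e, f] = T (e - 1) * T (f - 1) * (1 - w) ^ 4 := by
  simp only [dt, List.map_cons, List.map_nil, List.prod_cons, List.prod_nil, mul_one, Matrix.det_mul,
    P, Matrix.det_fin_two_of, T_e e, T_e f, Phi]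
  ring

theorem dt_one (e : ℤ) : dt [e] = T (e - 1) * (1 - w) ^ 2 := by
  simp only [dt, List.map_cons, List.map_nil, List.prod_cons, List.prod_nil, mul_one,
    P, Matrix.det_fin_two_of, T_e e, Phi]
  ring

theorem good_two_one (e : ℤ) : Good [e, 1] := by
  have h1 : T (e - 1) = w * T (e - 2) := by rw [← T_one, ← T_add]; congr 1; ring
  have h3 : T (e - 2) = w * T (e - 2 - 1) := by rw [← T_one, ← T_add]; congr 1; ring
  refine good_scale HLc_k1 (by norm_num) (by norm_num) ?_ ?_ (good_one (e - 2))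
  · rw [S_two, S_one, h1, sub_self, T_zero, Phi]; ring
  · rw [dt_two, dt_one, h1, h3, sub_self, T_zero]; ring

theorem good_two_mone (e : ℤ) : Good [e, -1] := by
  have h1 : T (e + 2) = w ^ 3 * T (e - 1) := by
    rw [show (w : ℚ[T;T⁻¹]) ^ 3 = T 3 from (T_nat 3).symm, ← T_add]; congr 1; ring
  have h2 : T (e + 2 - 1) = w ^ 2 * T (e - 1) := by
    rw [show (w : ℚ[T;T⁻¹]) ^ 2 = T 2 from (T_nat 2).symm, ← T_add]; congr 1; ring
  have h3 : T (-1 - 1) = T (-1) ^ 2 := by rw [show (-1 : ℤ) - 1 = -(2 : ℕ) by norm_num, uw]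
  have h4 := hu
  refine good_scale HLc_km (by norm_num) (by norm_num) ?_ ?_ (good_one (e + 2))
  · rw [S_two, S_one, h1, h3, Phi]; grind
  · rw [dt_two, dt_one, h2, h3]; grind

theorem good_two_zero (e : ℤ) : Good [e, 0] := by
  have h0 : S [e, 0] = QL * (1 + T e) := by
    have h4 := hu
    rw [S_two, QL, T_e e, zero_sub, Phi]; grind
  have h1 : Hd (1 : ℚ[T;T⁻¹]) 0 1 0 0 0 := ⟨0, by simp [T_zero]⟩
  have pos : ∀ k : ℕ, 0 < k → ∃ l ≤ 18, HLc (1 + w ^ k) 1 l := by
    intro k hk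
    rcases (by omega : k = 1 ∨ k = 2 ∨ k = 3 ∨ 4 ≤ k) with rfl | rfl | rfl | h
    · exact ⟨_, by norm_num [Ls], HLc.of_Hd (n := 0) (c := 1) (a := 1) (b := 0) (d := 0)
        ⟨0, by simp [T_zero]⟩ one_ne_zero⟩
    · exact ⟨_, by norm_num [Ls], HLc.of_Hd (n := 0) (c := 1) (a := 0) (b := 1) (d := 0)
        ⟨0, by simp [T_zero]⟩ one_ne_zero⟩
    · exact ⟨_, by norm_num [Ls], HLc.of_Hd (n := 0) (c := 1) (a := 0) (b := 0) (d := 1)
        ⟨0, by simp [T_zero]⟩ one_ne_zero⟩
    · have h2 : Hd (-w ^ k) k (-1) 0 0 0 := ⟨0, by rw [T_nat]; simp⟩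
      refine ⟨Ls 0 0 0, by norm_num [Ls], ?_⟩
      have := HLc.of_Hd (h1.sub4 one_ne_zero h2 (by omega)) one_ne_zero
      rwa [sub_neg_eq_add] at this
  have key : ∀ l ≤ 18, HLc (1 + T e) 1 l → Good [e, 0] := by
    intro l hl h
    right
    refine ⟨-1 * 1, -18 + l, by linarith, ?_, Or.inl (by norm_num)⟩
    rw [h0]; exact HLc_QL.mul h
  rcases lt_trichotomy e 0 with h | rfl | h
  · obtain ⟨k, rfl⟩ : ∃ k : ℕ, e = -k := ⟨e.natAbs, by omega⟩
    obtain ⟨l, hl, hh⟩ := pos k (by omega)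
    refine key l hl ?_
    have := (HLc_T (-k)).mul hh
    rw [one_mul, zero_add, mul_add, ← T_nat, T_neg_mul, mul_one, add_comm] at this
    exact this
  · right
    refine ⟨-1 * 2, -18, by norm_num, ?_, Or.inr ?_⟩
    · rw [h0, T_zero]
      have : HLc (1 + 1 : ℚ[T;T⁻¹]) 2 0 :=
        ⟨two_ne_zero, 0, 0, 0, 0, ⟨0, by simp [T_zero, map_ofNat]; norm_num⟩, by norm_num [Ls]⟩
      have h3 := HLc_QL.mul this
      rwa [add_zero] at h3
    · change S [0, 0] ^ 2 = 4 * dt [0, 0]
      rw [h0, dt_two, T_zero, QL, zero_sub]; ring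
  · obtain ⟨k, rfl⟩ : ∃ k : ℕ, e = k := ⟨e.natAbs, by omega⟩
    obtain ⟨l, hl, hh⟩ := pos k (by omega)
    exact key l hl (by rwa [T_nat])

theorem length_le_wt (es : List ℤ) (h : ∀ e ∈ es, 2 ≤ |e|) : (es.length : ℤ) ≤ wt es := by
  induction es with
  | nil => simp [wt]
  | cons e es ih =>
    have h1 := h e (by simp)
    have h2 := ih fun x hx => h x (by simp [hx])
    simp only [wt, List.map_cons, List.sum_cons, List.length_cons, Nat.cast_add, Nat.cast_one] at h2 ⊢
    omega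

theorem good_small2 {e f : ℤ} (he : 2 ≤ |e|) (hf : 2 ≤ |f|) (h : |e| + |f| ≤ 5) : Good [e, f] := by
  have h1 : (e = 2 ∨ e = -2) ∧ (f = 2 ∨ f = -2 ∨ f = 3 ∨ f = -3) ∨
      (e = 3 ∨ e = -3) ∧ (f = 2 ∨ f = -2) := by
    rcases abs_cases e with ⟨h1, h2⟩ | ⟨h1, h2⟩ <;> rcases abs_cases f with ⟨h3, h4⟩ | ⟨h3, h4⟩ <;>
      omega
  rcases h1 with ⟨rfl | rfl, rfl | rfl | rfl | rfl⟩ | ⟨rfl | rfl, rfl | rfl⟩
  · exact good_p2p2
  · exact good_p2m2
  · exact good_p2p3
  · exact good_p2m3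
  · exact good_comm _ _ good_p2m2
  · exact good_m2m2
  · exact good_m2p3
  · exact good_m2m3
  · exact good_comm _ _ good_p2p3
  · exact good_comm _ _ good_m2p3
  · exact good_comm _ _ good_p2m3
  · exact good_comm _ _ good_m2m3

theorem good_swap {e f g : ℤ} (h : Good [e, f, g]) : Good [f, e, g] := by
  have h1 : S [f, e, g] = S [e, f, g] := by rw [S_three, S_three]; ring
  have h2 : (([f, e, g] : List ℤ).map P).prod.det = (([e, f, g] : List ℤ).map P).prod.det := by
    simp only [List.map_cons, List.map_nil, List.prod_cons, List.prod_nil, mul_one, Matrix.det_mul]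
    ring
  rw [Good, h1, h2]; exact h

theorem good_rot {e f g : ℤ} (h : Good [e, f, g]) : Good [f, g, e] :=
  good_append (l := [e]) (m := [f, g]) h

theorem good_small3 {e f g : ℤ} (he : 2 ≤ |e|) (hf : 2 ≤ |f|) (hg : 2 ≤ |g|)
    (h : |e| + |f| + |g| ≤ 6) : Good [e, f, g] := by
  have k1 : |e| = 2 := by omega
  have k2 : |f| = 2 := by omega
  have k3 : |g| = 2 := by omega
  have h1 : (e = 2 ∨ e = -2) ∧ (f = 2 ∨ f = -2) ∧ (g = 2 ∨ g = -2) :=
    ⟨(abs_eq (by norm_num)).1 k1, (abs_eq (by norm_num)).1 k2, (abs_eq (by norm_num)).1 k3⟩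
  rcases h1 with ⟨rfl | rfl, rfl | rfl, rfl | rfl⟩
  · exact good_p2p2p2
  · exact good_p2p2m2
  · exact good_rot good_p2p2m2
  · exact good_p2m2m2
  · exact good_rot (good_rot good_p2p2m2)
  · exact good_swap good_p2m2m2
  · exact good_rot good_p2m2m2
  · exact good_m2m2m2

theorem good_long {es : List ℤ} (h : ∀ e ∈ es, 2 ≤ |e|) : Good es := by
  by_cases h4 : 4 ≤ wt es
  · obtain ⟨c, l, hc, hl, h5⟩ := S_long h h4
    exact Or.inr ⟨c, l, hl, h5, Or.inl hc⟩
  · have hlen := length_le_wt es h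
    match es, h, h4, hlen with
    | [], _, _, _ => exact good_nil
    | [e], _, _, _ => exact good_one e
    | [e, f], h, h4, _ =>
      simp only [wt, List.map_cons, List.map_nil, List.sum_cons, List.sum_nil] at h4
      exact good_small2 (h e (by simp)) (h f (by simp)) (by omega)
    | [e, f, g], h, h4, _ =>
      simp only [wt, List.map_cons, List.map_nil, List.sum_cons, List.sum_nil] at h4
      exact good_small3 (h e (by simp)) (h f (by simp)) (h g (by simp)) (by omega)
    | _ :: _ :: _ :: _ :: _, _, h4, hlen =>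
      simp only [List.length_cons, Nat.cast_add, Nat.cast_one] at hlen
      omega

theorem good_all (n : ℕ) : ∀ es : List ℤ, es.length = n → Good es := by
  induction n using Nat.strong_induction_on with
  | _ n ih =>
  intro es hn
  by_cases h : ∀ e ∈ es, 2 ≤ |e|
  · exact good_long h
  push Not at h
  obtain ⟨x, hx, hx2⟩ := h
  obtain ⟨l, r, rfl⟩ := List.append_of_mem hx
  have hx3 : x = 0 ∨ x = 1 ∨ x = -1 := by
    rcases abs_cases x with ⟨h1, h2⟩ | ⟨h1, h2⟩ <;> omega
  refine good_append (l := x :: r) (m := l) ?_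
  rw [List.cons_append]
  have hlen : (r ++ l).length + 1 = n := by
    simp only [List.length_append, List.length_cons] at hn ⊢; omega
  generalize r ++ l = t at hlen
  match t, hlen with
  | [], _ => exact good_one x
  | [e], _ =>
    refine good_append (l := [e]) (m := [x]) ?_
    rcases hx3 with rfl | rfl | rfl
    · exact good_two_zero e
    · exact good_two_one e
    · exact good_two_mone e
  | f :: g :: t, hlen =>
    obtain ⟨t', e, ht⟩ : ∃ (t' : List ℤ) (e : ℤ), g :: t = t' ++ [e] :=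
      ⟨(g :: t).dropLast, (g :: t).getLast (by simp), (List.dropLast_append_getLast (by simp)).symm⟩
    rw [ht] at hlen ⊢
    refine good_append (l := [e]) (m := x :: f :: t') ?_
    simp only [List.length_cons, List.length_append, List.length_nil] at hlen
    change Good (e :: x :: f :: t')
    rcases hx3 with rfl | rfl | rfl
    · exact good_zero (ih _ (by simp only [List.length_cons]; omega) _ rfl)
    · exact good_pone (ih _ (by simp only [List.length_cons]; omega) _ rfl)
    · exact good_mone (ih _ (by simp only [List.length_cons]; omega) _ rfl)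

/-- **every word** -/
theorem good (es : List ℤ) : Good es := good_all _ es rfl

end Pool.Agent.FB.W8.T2X
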