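import Mathlib
import Pool.Agent.FB.W8.HEAD
import Pool.Agent.FB.W8.T2J

/-!
# FB/W8, module T2: the second trace

`trB L = w ^ (- (sum of the exponents)) u ^ m S(b₁, h₁, …, b_m, h_m)`, where `S` is the trace of the words in the
normalised matrices of `FB/W8/T2G`; so the functional is at most `18 m`.
-/

set_option autoImplicit false

open Filter Asymptotics Topology Matrix

namespace Pool.Agent.FB.W8.T2Y

open scoped LaurentPolynomial Polynomial
open Polynomial (toLaurent)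

/-- the value at `w` -/
noncomputable def ev {w : ℝ} (h : w ≠ 0) : ℚ[T;T⁻¹] →+* ℝ :=
  LaurentPolynomial.eval₂ (algebraMap ℚ ℝ) (Units.mk0 w h)

theorem ev_T {w : ℝ} (h : w ≠ 0) (n : ℤ) : ev h (T2X.T n) = w ^ n := by
  rw [ev, T2X.T, LaurentPolynomial.eval₂_T, Units.val_zpow_eq_zpow_val, Units.val_mk0]

theorem ev_w {w : ℝ} (h : w ≠ 0) : ev h T2X.w = w := by
  have := ev_T h 1
  rwa [zpow_one] at this

theorem ev_K {w : ℝ} (h : w ≠ 0) (c : ℚ) : ev h (T2X.K c) = c := by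
  rw [ev, T2X.K, LaurentPolynomial.eval₂_C]; rfl

theorem ev_toL {w : ℝ} (h : w ≠ 0) (r : ℚ[X]) :
    ev h (toLaurent r) = (r.map (algebraMap ℚ ℝ)).eval w := by
  rw [ev, LaurentPolynomial.eval₂_toLaurent, Units.val_mk0, Polynomial.eval_map]

/-- the values of a Laurent polynomial -/
noncomputable def val (x : ℚ[T;T⁻¹]) (w : ℝ) : ℝ := if h : w = 0 then 0 else ev h x

theorem val_eq (x : ℚ[T;T⁻¹]) {w : ℝ} (h : w ≠ 0) : val x w = ev h x := dif_neg h

theorem head {x : ℚ[T;T⁻¹]} {c l : ℚ} (h : T2X.HLc x c l) : ∃ (D : ℤ) (c₁ c₂ c₃ : ℝ),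
    Hd (val x) c D c₁ c₂ c₃ ∧ Lf c₁ c₂ c₃ = l := by
  obtain ⟨hc, n, a, b, d, ⟨r, hr⟩, hl⟩ := h
  refine ⟨-n, a, b, d, ?_, ?_⟩
  · refine Hd_of_eq (F := fun w => c * (r.map (algebraMap ℚ ℝ)).eval w) ?_ fun w h0 h1 => ?_
    · exact (continuous_const.mul (Polynomial.continuous _)).continuousAt
    · have hw : w ≠ 0 := h0.ne'
      rw [val_eq x hw, hr]
      simp only [map_mul, map_add, map_pow, map_one, ev_T, ev_K, ev_w, ev_toL]
      rw [← mul_assoc, ← zpow_add₀ hw, neg_add_cancel, zpow_zero]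
      ring
  · rw [hl, T2X.Ls, Lf]; push_cast; ring

/-- the matrix of a syllable -/
noncomputable def PR (w : ℝ) (e : ℤ) : Matrix (Fin 2) (Fin 2) ℝ :=
  !![1, 1 - w + w ^ 2; -w ^ (e - 1), -w ^ e]

theorem map_P {w : ℝ} (h : w ≠ 0) (e : ℤ) : (ev h).mapMatrix (T2X.P e) = PR w e := by
  ext i j
  fin_cases i <;> fin_cases j <;>
    simp [T2X.P, PR, T2X.Phi, ev_T, ev_w]

/-- the list of syllables -/
def fl (L : List (ℤ × ℤ)) : List ℤ := L.flatMap fun p => [p.2, p.1]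

/-- the change of basis -/
noncomputable def G (w : ℝ) : Matrix (Fin 2) (Fin 2) ℝ := !![1, 1 - w + w ^ 2; 1, w]

theorem B2_G {w : ℝ} (h0 : 0 < w) (h1 : w < 1) (p : ℤ × ℤ) :
    B2 w p * G w = (u w * w ^ (-(p.1 + p.2))) • (G w * (PR w p.2 * PR w p.1)) := by
  have hw : w ≠ 0 := h0.ne'
  have h2 : 1 - w ≠ 0 := by linarith
  obtain ⟨h, b⟩ := p
  have ha : w ^ h ≠ 0 := zpow_ne_zero _ hw
  have hb : w ^ b ≠ 0 := zpow_ne_zero _ hw
  ext i j
  fin_cases i <;> fin_cases j <;>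
    simp [B2, G, PR, u, Matrix.mul_apply, Fin.sum_univ_two, Matrix.diagonal, zpow_sub₀ hw,
      zpow_add₀ hw, _root_.zpow_neg] <;>
    field_simp <;> ring

theorem det_G {w : ℝ} (h1 : w < 1) : (G w).det ≠ 0 := by
  have h2 : 1 - w ≠ 0 := by linarith
  rw [G, Matrix.det_fin_two_of]
  have : (1 : ℝ) * w - (1 - w + w ^ 2) * 1 = -(1 - w) ^ 2 := by ring
  rw [this]
  exact neg_ne_zero.2 (pow_ne_zero 2 h2)

theorem det_B2 {w : ℝ} (h0 : 0 < w) (p : ℤ × ℤ) : (B2 w p).det = w ^ (-(p.1 + p.2)) := by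
  obtain ⟨h, b⟩ := p
  rw [B2, Matrix.det_mul, neg_add, zpow_add₀ h0.ne', Matrix.det_diagonal, Fin.prod_univ_two]
  rw [Matrix.det_fin_two]
  simp
  ring

theorem zpow_sum {w : ℝ} (h0 : 0 < w) (p : ℤ × ℤ) (L : List (ℤ × ℤ)) :
    w ^ (-((p :: L).map fun p => p.1 + p.2).sum) =
      w ^ (-(p.1 + p.2)) * w ^ (-(L.map fun p => p.1 + p.2).sum) := by
  rw [← zpow_add₀ h0.ne', List.map_cons, List.sum_cons]; congr 1; ring

theorem det_prod {w : ℝ} (h0 : 0 < w) (L : List (ℤ × ℤ)) :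
    ((L.map (B2 w)).prod).det = w ^ (-(L.map fun p => p.1 + p.2).sum) := by
  induction L with
  | nil => simp
  | cons p L ih =>
    rw [List.map_cons, List.prod_cons, Matrix.det_mul, ih, det_B2 h0, zpow_sum h0]

theorem prod_G {w : ℝ} (h0 : 0 < w) (h1 : w < 1) (L : List (ℤ × ℤ)) :
    (L.map (B2 w)).prod * G w = (u w ^ L.length * w ^ (-(L.map fun p => p.1 + p.2).sum)) •
      (G w * ((fl L).map (PR w)).prod) := by
  induction L with
  | nil => simp [fl]
  | cons p L ih =>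
    have e1 : (fl (p :: L)).map (PR w) = PR w p.2 :: PR w p.1 :: (fl L).map (PR w) := by
      simp [fl]
    rw [List.map_cons, List.prod_cons, Matrix.mul_assoc, ih, Matrix.mul_smul, ← Matrix.mul_assoc,
      B2_G h0 h1, e1, List.prod_cons, List.prod_cons, Matrix.smul_mul, smul_smul, zpow_sum h0,
      List.length_cons, pow_succ]
    simp only [Matrix.mul_assoc]
    congr 1
    ring

theorem map_prod {w : ℝ} (h : w ≠ 0) (es : List ℤ) :
    (ev h).mapMatrix (es.map T2X.P).prod = (es.map (PR w)).prod := by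
  induction es with
  | nil => simp
  | cons e es ih => rw [List.map_cons, List.prod_cons, map_mul, ih, map_P, List.map_cons, List.prod_cons]

/-- the trace and the determinant -/
theorem both {w : ℝ} (h0 : 0 < w) (h1 : w < 1) (L : List (ℤ × ℤ)) :
    trB L w = u w ^ L.length * w ^ (-(L.map fun p => p.1 + p.2).sum) * val (T2X.S (fl L)) w ∧
    w ^ (-(L.map fun p => p.1 + p.2).sum) =
      (u w ^ L.length * w ^ (-(L.map fun p => p.1 + p.2).sum)) ^ 2 *
        val ((fl L).map T2X.P).prod.det w := by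
  have hG := det_G h1
  have hw := h0.ne'
  have e := prod_G h0 h1 L
  set κ := u w ^ L.length * w ^ (-(L.map fun p => p.1 + p.2).sum) with hκ
  have hu : IsUnit (G w).det := isUnit_iff_ne_zero.2 hG
  constructor
  · have e2 : (L.map (B2 w)).prod = κ • (G w * ((fl L).map (PR w)).prod * (G w)⁻¹) := by
      have := congrArg (fun M => M * (G w)⁻¹) e
      simp only [Matrix.mul_assoc, Matrix.mul_nonsing_inv _ hu, mul_one, Matrix.smul_mul] at this
      rw [this, Matrix.mul_assoc]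
    rw [trB, e2, Matrix.trace_smul, smul_eq_mul, Matrix.trace_mul_cycle, Matrix.nonsing_inv_mul _ hu,
      one_mul, ← map_prod hw, val_eq _ hw, T2X.S]
    congr 1
    simp [Matrix.trace, Fin.sum_univ_two]
  · have e3 := congrArg Matrix.det e
    rw [Matrix.det_mul, Matrix.det_smul, Matrix.det_mul, det_prod h0, Fintype.card_fin] at e3
    rw [val_eq _ hw, RingHom.map_det, map_prod hw]
    refine mul_right_cancel₀ hG ?_
    rw [e3]; ring

theorem Hd_u_pow (m : ℕ) : ∃ (s : ℝ) (D : ℤ) (c₁ c₂ c₃ : ℝ), |s| = 1 ∧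
    Hd (fun w => u w ^ m) s D c₁ c₂ c₃ ∧ Lf c₁ c₂ c₃ = 18 * m := by
  induction m with
  | zero =>
    refine ⟨1, 0, 0, 0, 0, abs_one, ?_, by norm_num [Lf]⟩
    refine Hd_of_eq (F := fun _ => 0) continuousAt_const fun w h0 h1 => ?_
    simp
  | succ m ih =>
    obtain ⟨s, D, c₁, c₂, c₃, hs, h, hL⟩ := ih
    refine ⟨s * -1, D + -1, c₁ + 2, c₂ + c₁ * 2 + 3, c₃ + c₂ * 2 + c₁ * 3 + 4, ?_, ?_,
      (Lf_mul c₁ c₂ c₃ 2 3 4).trans ?_⟩
    · rw [abs_mul, hs]; norm_num
    · have := h.mul Hd_u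
      simpa only [pow_succ] using this
    · rw [hL]; norm_num [Lf]; ring

end Pool.Agent.FB.W8.T2Y

namespace Pool.Agent.FB.W8

open T2Y in
/-- **Module T2** -/
theorem thm_T2 : St_T2 := by
  intro L
  have hsmall : ∀ᶠ w in 𝓝[>] (0 : ℝ), 0 < w ∧ w < 1 := ev_pos.and (ev_lt one_pos)
  rcases T2X.good (fl L) with h | ⟨c, l, hl, h, h3⟩
  · left
    filter_upwards [hsmall] with w hw
    rw [(both hw.1 hw.2 L).1, h, val_eq _ hw.1.ne', map_zero, mul_zero]
  · right
    obtain ⟨D, c₁, c₂, c₃, h1, h2⟩ := head h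
    obtain ⟨s, D', d₁, d₂, d₃, hs, h4, h5⟩ := Hd_u_pow L.length
    have hc : (c : ℝ) ≠ 0 := by exact_mod_cast h.1
    have hs0 : s ≠ 0 := by rintro rfl; norm_num at hs
    have key : Hd (trB L) (s * c) (D' + D - (-(L.map fun p => p.1 + p.2).sum)) (d₁ + c₁)
        (d₂ + d₁ * c₁ + c₂) (d₃ + d₂ * c₁ + d₁ * c₂ + c₃) := by
      refine ((h4.mul h1).zpow_mul (-(L.map fun p => p.1 + p.2).sum)).congr ?_
      filter_upwards [hsmall] with w hw
      rw [(both hw.1 hw.2 L).1]; ring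
    refine ⟨s * c, _, _, _, _, mul_ne_zero hs0 hc, key, ?_, ?_⟩
    · rw [Lf_mul, h2, h5]
      have : (l : ℝ) ≤ 0 := by exact_mod_cast hl
      linarith
    · rcases h3 with h3 | h3
      · left
        rw [abs_mul, hs, one_mul]
        exact_mod_cast h3
      · right
        filter_upwards [hsmall] with w hw
        obtain ⟨e1, e2⟩ := both hw.1 hw.2 L
        have hw0 := hw.1.ne'
        have e3 := congrArg (ev hw0) h3
        rw [map_pow, map_mul, map_ofNat, ← val_eq, ← val_eq] at e3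
        rw [e1, mul_pow, e3]
        conv_rhs => rw [e2]
        ring

end Pool.Agent.FB.W8
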