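import Pool.Agent.FB.W8.St

/-!
# FB/W8: the module T2P (the second trace in part II)
-/

set_option autoImplicit false

open Filter Asymptotics Topology Matrix

namespace Pool.Agent.FB.W8

/-- `f = O(w ^ K)` at `0+` -/
private def T2P_O (f : ℝ → ℝ) (K : ℤ) : Prop := f =O[𝓝[>] (0 : ℝ)] fun w => w ^ K

private lemma T2P_pos : ∀ᶠ w in 𝓝[>] (0 : ℝ), 0 < w ∧ w < 1 / 2 := by
  have h1 : ∀ᶠ w in 𝓝[>] (0 : ℝ), w ∈ Set.Ioi (0 : ℝ) := self_mem_nhdsWithin
  have h2 : ∀ᶠ w in 𝓝[>] (0 : ℝ), w ∈ Set.Iio (1 / 2 : ℝ) :=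
    nhdsWithin_le_nhds (Iio_mem_nhds (by norm_num))
  filter_upwards [h1, h2] with w h3 h4
  exact ⟨h3, h4⟩

private lemma T2P_mono {f : ℝ → ℝ} {K L : ℤ} (h : T2P_O f K) (hKL : L ≤ K) : T2P_O f L := by
  refine h.trans ?_
  apply IsBigO.of_bound 1
  filter_upwards [T2P_pos] with w hw
  rw [Real.norm_of_nonneg (zpow_pos hw.1 _).le, Real.norm_of_nonneg (zpow_pos hw.1 _).le, one_mul]
  exact zpow_le_zpow_right_of_le_one₀ hw.1 (by linarith) hKL

private lemma T2P_mul {f g : ℝ → ℝ} {K L M : ℤ} (hf : T2P_O f K) (hg : T2P_O g L)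
    (hM : M ≤ K + L) : T2P_O (fun w => f w * g w) M := by
  refine T2P_mono ?_ hM
  refine (IsBigO.mul hf hg).trans ?_
  apply IsBigO.of_bound 1
  filter_upwards [T2P_pos] with w hw
  rw [← zpow_add₀ hw.1.ne', one_mul]

private lemma T2P_add {f g : ℝ → ℝ} {K L M : ℤ} (hf : T2P_O f K) (hg : T2P_O g L)
    (h1 : M ≤ K) (h2 : M ≤ L) : T2P_O (fun w => f w + g w) M :=
  (T2P_mono hf h1).add (T2P_mono hg h2)

private lemma T2P_sub {f g : ℝ → ℝ} {K L M : ℤ} (hf : T2P_O f K) (hg : T2P_O g L)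
    (h1 : M ≤ K) (h2 : M ≤ L) : T2P_O (fun w => f w - g w) M :=
  (T2P_mono hf h1).sub (T2P_mono hg h2)

private lemma T2P_zpow (K : ℤ) : T2P_O (fun w => w ^ K) K := isBigO_refl _ _

private lemma T2P_const (c : ℝ) : T2P_O (fun _ => c) 0 := by
  unfold T2P_O
  simp only [zpow_zero]
  exact isBigO_const_const c one_ne_zero _

private lemma T2P_u : T2P_O (fun w => u w) 1 := by
  apply IsBigO.of_bound 4
  filter_upwards [T2P_pos] with w hw
  unfold u
  rw [zpow_one, norm_div, norm_neg, Real.norm_of_nonneg hw.1.le,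
    Real.norm_of_nonneg (sq_nonneg _), div_le_iff₀ (by nlinarith [hw.1, hw.2])]
  have h1 : (1 : ℝ) ≤ 4 * (1 - w) ^ 2 := by nlinarith [hw.1, hw.2]
  nlinarith [mul_le_mul_of_nonneg_left h1 hw.1.le]

private lemma T2P_u1 : T2P_O (fun w => 1 - u w) 0 :=
  T2P_sub (T2P_const 1) T2P_u le_rfl (by norm_num)

/-- invariant -/
private def T2P_Inv (X : Fin 3) (D K : ℤ) (p n : ℝ → ℝ) : Prop :=
  T2P_O p (K - D) ∧ T2P_O n (K - D) ∧ (X = 2 → T2P_O p (K - D + 1))

private noncomputable def T2P_p (t : ℤ × ℤ × ℤ) (p n : ℝ → ℝ) : ℝ → ℝ := fun w =>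
  w ^ (-(t.1 + t.2.1)) * (p w + (w ^ (-t.2.2) - 1) * u w * (p w + n w))

private noncomputable def T2P_n (t : ℤ × ℤ × ℤ) (p n : ℝ → ℝ) : ℝ → ℝ := fun w =>
  n w + (w ^ (-t.2.2) - 1) * (1 - u w) * (p w + n w)

private lemma T2P_ty (t : ℤ × ℤ × ℤ) : ty t = 2 ↔ t.1 < 0 ∧ t.2.1 < 0 := by
  unfold ty
  split_ifs with h1 h2
  · simp [h1]
  · simp [h1]
  · simp [h1]

private lemma T2P_step (X : Fin 3) (D K : ℤ) (p n : ℝ → ℝ) (t : ℤ × ℤ × ℤ) (ht : Hyp t)
    (ht' : ¬ (0 < t.1 ∧ 0 < t.2.1)) (h : T2P_Inv X D K p n) :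
    T2P_O (T2P_p t p n) (K + (if ty t = 2 then 0 else 4) - (D + dl X t)) ∧
    T2P_O (T2P_n t p n) (K + (if ty t = 2 then 0 else 4) - (D + dl X t)) ∧
    (ty t = 2 → T2P_O (T2P_p t p n) (K - (D + dl X t) + 9)) := by
  obtain ⟨hp, hn, hp2⟩ := h
  obtain ⟨ha, hc, hb, hac⟩ := ht
  -- numerical facts on the block
  have habs : ∀ x : ℤ, 5 ≤ |x| → 5 ≤ x ∨ x ≤ -5 := by
    intro x hx
    rcases abs_cases x with h1 | h1 <;> omega
  have ha' := habs _ ha
  have hc' := habs _ hc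
  have hb' := habs _ hb
  have hS : T2P_O (fun w => p w + n w) (K - D) := T2P_add hp hn le_rfl le_rfl
  rcases hb' with hb' | hb'
  · -- b > 0
    have hz : T2P_O (fun w => w ^ (-t.2.2) - 1) (-t.2.2) :=
      T2P_sub (T2P_zpow _) (T2P_const 1) le_rfl (by omega)
    have hzu : T2P_O (fun w => (w ^ (-t.2.2) - 1) * u w) (-t.2.2 + 1) :=
      T2P_mul hz T2P_u le_rfl
    have hzuS : T2P_O (fun w => (w ^ (-t.2.2) - 1) * u w * (p w + n w)) (-t.2.2 + 1 + (K - D)) :=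
      T2P_mul hzu hS le_rfl
    have hP0 : T2P_O (fun w => p w + (w ^ (-t.2.2) - 1) * u w * (p w + n w))
        (-t.2.2 + 1 + (K - D)) := T2P_add hp hzuS (by omega) le_rfl
    have hP : T2P_O (T2P_p t p n) (-(t.1 + t.2.1) + (-t.2.2 + 1 + (K - D))) :=
      T2P_mul (T2P_zpow _) hP0 le_rfl
    have hN : T2P_O (T2P_n t p n) (-t.2.2 + (K - D)) :=
      T2P_add hn (T2P_mul (T2P_mul hz T2P_u1 le_rfl) hS le_rfl) (by omega) (by omega)
    have hbpos : 0 < t.2.2 := by omega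
    by_cases hty : ty t = 2
    · have hty' := (T2P_ty t).1 hty
      have hdl : dl X t = t.2.2 := by
        unfold dl
        rw [if_pos hbpos, if_pos hty]
      rw [hdl, if_pos hty]
      exact ⟨T2P_mono hP (by omega), T2P_mono hN (by omega), fun _ => T2P_mono hP (by omega)⟩
    · have hty' : ¬ (t.1 < 0 ∧ t.2.1 < 0) := fun h => hty ((T2P_ty t).2 h)
      have hdl : dl X t = t.2.2 + max t.1 t.2.1 - 1 := by
        unfold dl
        rw [if_pos hbpos, if_neg hty]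
      rw [hdl, if_neg hty]
      rcases max_cases t.1 t.2.1 with h1 | h1 <;>
        exact ⟨T2P_mono hP (by omega), T2P_mono hN (by omega), fun h2 => absurd h2 hty⟩
  · -- b < 0
    have hwb : T2P_O (fun w => w ^ (-t.2.2)) (-t.2.2) := T2P_zpow _
    have hz : T2P_O (fun w => w ^ (-t.2.2) - 1) 0 :=
      T2P_sub hwb (T2P_const 1) (by omega) le_rfl
    have hzu : T2P_O (fun w => (w ^ (-t.2.2) - 1) * u w) 1 := T2P_mul hz T2P_u (by norm_num)
    have hzuS : T2P_O (fun w => (w ^ (-t.2.2) - 1) * u w * (p w + n w)) (1 + (K - D)) :=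
      T2P_mul hzu hS le_rfl
    have hcoef : T2P_O (fun w => w ^ (-t.2.2) - (w ^ (-t.2.2) - 1) * u w) 1 :=
      T2P_sub hwb hzu (by omega) le_rfl
    have hcn : T2P_O (fun w => (w ^ (-t.2.2) - (w ^ (-t.2.2) - 1) * u w) * n w) (1 + (K - D)) :=
      T2P_mul hcoef hn le_rfl
    have hzu1 : T2P_O (fun w => (w ^ (-t.2.2) - 1) * (1 - u w)) 0 :=
      T2P_mul hz T2P_u1 (by norm_num)
    have hNeq : T2P_n t p n = fun w => (w ^ (-t.2.2) - (w ^ (-t.2.2) - 1) * u w) * n w +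
        (w ^ (-t.2.2) - 1) * (1 - u w) * p w := by
      funext w
      unfold T2P_n
      ring
    have hbneg : ¬ 0 < t.2.2 := by omega
    -- general bounds for a given bound of `p`
    have gen : ∀ L : ℤ, L ≤ 1 + (K - D) → T2P_O p L →
        T2P_O (T2P_p t p n) (-(t.1 + t.2.1) + L) ∧ T2P_O (T2P_n t p n) L := by
      intro L hL hpL
      refine ⟨?_, ?_⟩
      · have hP0 : T2P_O (fun w => p w + (w ^ (-t.2.2) - 1) * u w * (p w + n w)) L :=
          T2P_add hpL hzuS le_rfl hL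
        exact T2P_mul (T2P_zpow _) hP0 le_rfl
      · rw [hNeq]
        exact T2P_add hcn (T2P_mul hzu1 hpL le_rfl) hL (by omega)
    obtain ⟨gP, gN⟩ := gen (K - D) (by omega) hp
    by_cases hty : ty t = 2
    · have hty' := (T2P_ty t).1 hty
      by_cases hX : X = 2
      · have hdl : dl X t = -1 := by
          unfold dl
          rw [if_neg hbneg, if_pos hty, if_pos hX]
        obtain ⟨gP', gN'⟩ := gen (K - D + 1) (by omega) (hp2 hX)
        rw [hdl, if_pos hty]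
        exact ⟨T2P_mono gP' (by omega), T2P_mono gN' (by omega), fun _ => T2P_mono gP' (by omega)⟩
      · have hdl : dl X t = 0 := by
          unfold dl
          rw [if_neg hbneg, if_pos hty, if_neg hX]
        rw [hdl, if_pos hty]
        exact ⟨T2P_mono gP (by omega), T2P_mono gN (by omega), fun _ => T2P_mono gP (by omega)⟩
    · have hty' : ¬ (t.1 < 0 ∧ t.2.1 < 0) := fun h => hty ((T2P_ty t).2 h)
      have hdl : dl X t ≤ max t.1 t.2.1 ∧ max t.1 t.2.1 - 1 ≤ dl X t := by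
        unfold dl
        rw [if_neg hbneg, if_neg hty]
        split_ifs <;> omega
      rw [if_neg hty]
      rcases max_cases t.1 t.2.1 with h1 | h1 <;>
        exact ⟨T2P_mono gP (by omega), T2P_mono gN (by omega), fun h2 => absurd h2 hty⟩

/-! ### Lists -/

private noncomputable def T2P_run : List (ℤ × ℤ × ℤ) → (ℝ → ℝ) × (ℝ → ℝ) → (ℝ → ℝ) × (ℝ → ℝ)
  | [], V => V
  | t :: β, V => T2P_run β (T2P_p t V.1 V.2, T2P_n t V.1 V.2)

private lemma T2P_vec (t : ℤ × ℤ × ℤ) (p n : ℝ → ℝ) (w : ℝ) :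
    Matrix.vecMul ![p w, n w] (B2 w (t.1 + t.2.1, t.2.2)) = ![T2P_p t p n w, T2P_n t p n w] := by
  unfold B2 T2P_p T2P_n
  ext i
  fin_cases i
  · simp [Matrix.vecMul, dotProduct, Fin.sum_univ_two, Matrix.mul_apply, Matrix.add_apply,
      Matrix.one_apply, Matrix.diagonal_apply]
    ring
  · simp [Matrix.vecMul, dotProduct, Fin.sum_univ_two, Matrix.mul_apply, Matrix.add_apply,
      Matrix.one_apply, Matrix.diagonal_apply]
    ring

private lemma T2P_runv (β : List (ℤ × ℤ × ℤ)) : ∀ (p n : ℝ → ℝ) (w : ℝ),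
    Matrix.vecMul ![p w, n w] (((pr β).map (B2 w)).prod) =
      ![(T2P_run β (p, n)).1 w, (T2P_run β (p, n)).2 w] := by
  induction β with
  | nil =>
    intro p n w
    simp [pr, T2P_run]
  | cons t β ih =>
    intro p n w
    have h1 : ((pr (t :: β)).map (B2 w)).prod =
        B2 w (t.1 + t.2.1, t.2.2) * ((pr β).map (B2 w)).prod := by
      simp [pr]
    rw [h1, ← Matrix.vecMul_vecMul, T2P_vec, ih]
    rfl

private lemma T2P_tr (β : List (ℤ × ℤ × ℤ)) (w : ℝ) :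
    tr2 β w = (T2P_run β (fun _ => 1, fun _ => 0)).1 w + (T2P_run β (fun _ => 0, fun _ => 1)).2 w := by
  unfold tr2 trB
  rw [Matrix.trace_fin_two]
  have h1 := T2P_runv β (fun _ => 1) (fun _ => 0) w
  have h2 := T2P_runv β (fun _ => 0) (fun _ => 1) w
  have h3 := congrFun h1 0
  have h4 := congrFun h2 1
  simp only [Matrix.cons_val_zero, Matrix.cons_val_one] at h3 h4
  rw [← h3, ← h4]
  simp [Matrix.vecMul, dotProduct, Fin.sum_univ_two]

private def T2P_fs : Fin 3 → List (ℤ × ℤ × ℤ) → Fin 3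
  | X, [] => X
  | _, t :: β => T2P_fs (ty t) β

private lemma T2P_fs_last (β : List (ℤ × ℤ × ℤ)) : ∀ (X : Fin 3) (h : β ≠ []),
    T2P_fs X β = ty (β.getLast h) := by
  induction β with
  | nil => intro X h; exact absurd rfl h
  | cons t β ih =>
    intro X h
    show T2P_fs (ty t) β = _
    by_cases hβ : β = []
    · subst hβ
      rfl
    · rw [ih (ty t) hβ, List.getLast_cons hβ]

private lemma T2P_list (β : List (ℤ × ℤ × ℤ)) : ∀ (X : Fin 3) (D K : ℤ) (p n : ℝ → ℝ),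
    (∀ x ∈ β, Hyp x) → (∀ x ∈ β, ¬ (0 < x.1 ∧ 0 < x.2.1)) → T2P_Inv X D K p n →
    T2P_Inv (T2P_fs X β) (D + dg X β) K (T2P_run β (p, n)).1 (T2P_run β (p, n)).2 ∧
    ((∃ x ∈ β, ty x ≠ 2) →
      T2P_Inv (T2P_fs X β) (D + dg X β) (K + 4) (T2P_run β (p, n)).1 (T2P_run β (p, n)).2) ∧
    (β ≠ [] → T2P_fs X β = 2 → T2P_O (T2P_run β (p, n)).1 (K - (D + dg X β) + 9)) := by
  induction β with
  | nil =>
    intro X D K p n _ _ h
    refine ⟨?_, ?_, ?_⟩
    · show T2P_Inv X (D + 0) K p n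
      rw [add_zero]
      exact h
    · rintro ⟨x, hx, -⟩
      exact absurd hx (List.not_mem_nil)
    · intro h1
      exact absurd rfl h1
  | cons t β ih =>
    intro X D K p n h1 h2 h
    obtain ⟨s1, s2, s3⟩ := T2P_step X D K p n t (h1 t (List.mem_cons_self)) (h2 t (List.mem_cons_self)) h
    have h1' : ∀ x ∈ β, Hyp x := fun x hx => h1 x (List.mem_cons_of_mem _ hx)
    have h2' : ∀ x ∈ β, ¬ (0 < x.1 ∧ 0 < x.2.1) := fun x hx => h2 x (List.mem_cons_of_mem _ hx)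
    have hD : D + dg X (t :: β) = D + dl X t + dg (ty t) β := by
      show D + (dl X t + dg (ty t) β) = _
      ring
    have hinv : ∀ K' : ℤ, K' ≤ K + (if ty t = 2 then 0 else 4) →
        T2P_Inv (ty t) (D + dl X t) K' (T2P_p t p n) (T2P_n t p n) := by
      intro K' hK'
      refine ⟨T2P_mono s1 (by omega), T2P_mono s2 (by omega), fun hty => ?_⟩
      rw [if_pos hty] at hK'
      exact T2P_mono (s3 hty) (by omega)
    have hbase : K ≤ K + (if ty t = 2 then 0 else 4) := by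
      split_ifs <;> omega
    obtain ⟨i1, i2, i3⟩ := ih (ty t) (D + dl X t) K (T2P_p t p n) (T2P_n t p n) h1' h2'
      (hinv K hbase)
    rw [hD]
    refine ⟨i1, ?_, ?_⟩
    · rintro ⟨x, hx, hx2⟩
      rcases List.mem_cons.1 hx with rfl | hx
      · obtain ⟨j1, -, -⟩ := ih (ty x) (D + dl X x) (K + 4) (T2P_p x p n) (T2P_n x p n) h1' h2'
          (hinv (K + 4) (by rw [if_neg hx2]))
        exact j1
      · exact i2 ⟨x, hx, hx2⟩
    · intro _ hfs
      by_cases hβ : β = []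
      · subst hβ
        have h3 : ty t = 2 := hfs
        show T2P_O (T2P_p t p n) (K - (D + dl X t + 0) + 9)
        rw [add_zero]
        exact s3 h3
      · exact i3 hβ hfs

/-! ### All blocks of type two -/

private lemma T2P_step2 (D : ℤ) (p n : ℝ → ℝ) (s : ℝ) (t : ℤ × ℤ × ℤ) (ht : Hyp t)
    (hty : ty t = 2) (hp : T2P_O p (2 - D)) (hn : T2P_O (fun w => w ^ D * n w - s) 1) :
    ∃ s' : ℝ, |s'| = |s| ∧ T2P_O (T2P_p t p n) (2 - (D + dl 2 t)) ∧
      T2P_O (fun w => w ^ (D + dl 2 t) * T2P_n t p n w - s') 1 := by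
  have hn0 : T2P_O n (0 - D) := by
    have h1 : T2P_O (fun w => w ^ D * n w) 0 := by
      have h2 : T2P_O (fun w => (w ^ D * n w - s) + s) 0 :=
        T2P_add hn (T2P_const s) (by norm_num) le_rfl
      simpa using h2
    have h3 : T2P_O (fun w => w ^ (-D) * (w ^ D * n w)) (0 - D) :=
      T2P_mul (T2P_zpow (-D)) h1 (by omega)
    refine IsBigO.congr' h3 ?_ (EventuallyEq.refl _ _)
    filter_upwards [T2P_pos] with w hw
    rw [← mul_assoc, ← zpow_add₀ hw.1.ne', neg_add_cancel, zpow_zero, one_mul]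
  have hInv : T2P_Inv 2 D 0 p n :=
    ⟨T2P_mono hp (by omega), hn0, fun _ => T2P_mono hp (by omega)⟩
  have hty' := (T2P_ty t).1 hty
  obtain ⟨-, -, s3⟩ := T2P_step 2 D 0 p n t ht (by omega) hInv
  have hP : T2P_O (T2P_p t p n) (2 - (D + dl 2 t)) := T2P_mono (s3 hty) (by omega)
  obtain ⟨ha, hc, hb, hac⟩ := ht
  have habs : ∀ x : ℤ, 5 ≤ |x| → 5 ≤ x ∨ x ≤ -5 := by
    intro x hx
    rcases abs_cases x with h1 | h1 <;> omega
  have hwp : T2P_O (fun w => w ^ D * p w) 2 := T2P_mul (T2P_zpow D) hp (by omega)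
  rcases habs _ hb with hb' | hb'
  · refine ⟨s, rfl, hP, ?_⟩
    have hdl : dl 2 t = t.2.2 := by
      unfold dl
      rw [if_pos (by omega), if_pos hty]
    rw [hdl]
    -- `w^(D+b) n' - s = w^b (w^D n) + (1 - w^b)(1-u)(w^D p + w^D n) - s`
    have h1 : T2P_O (fun w => w ^ t.2.2 * (w ^ D * n w)) 1 := by
      have h2 : T2P_O (fun w => w ^ D * n w) 0 := T2P_mul (T2P_zpow D) hn0 (by omega)
      exact T2P_mul (T2P_zpow t.2.2) h2 (by omega)
    have h3 : T2P_O (fun w => (1 - w ^ t.2.2) * (1 - u w)) 0 :=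
      T2P_mul (T2P_sub (T2P_const 1) (T2P_zpow t.2.2) (M := 0) le_rfl (by omega)) T2P_u1
        (by norm_num)
    have h4 : T2P_O (fun w => (1 - w ^ t.2.2) * (1 - u w) * (w ^ D * p w)) 1 :=
      T2P_mul h3 hwp (by norm_num)
    have h5 : T2P_O (fun w => (1 - w ^ t.2.2) * (1 - u w) * (w ^ D * n w - s)) 1 :=
      T2P_mul h3 hn (by norm_num)
    have h6 : T2P_O (fun w => (w ^ t.2.2 + u w - w ^ t.2.2 * u w) * s) 1 := by
      refine T2P_mul (K := 1) (L := 0) ?_ (T2P_const s) (by norm_num)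
      exact T2P_sub (T2P_add (T2P_zpow t.2.2) T2P_u (M := 1) (by omega) le_rfl)
        (T2P_mul (T2P_zpow t.2.2) T2P_u (M := 1) (by omega)) le_rfl le_rfl
    have h7 : T2P_O (fun w => (w ^ t.2.2 * (w ^ D * n w) +
        (1 - w ^ t.2.2) * (1 - u w) * (w ^ D * p w) +
        (1 - w ^ t.2.2) * (1 - u w) * (w ^ D * n w - s)) -
        (w ^ t.2.2 + u w - w ^ t.2.2 * u w) * s) 1 :=
      T2P_sub (T2P_add (T2P_add h1 h4 le_rfl le_rfl) h5 le_rfl le_rfl) h6 le_rfl le_rfl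
    refine IsBigO.congr' h7 ?_ (EventuallyEq.refl _ _)
    filter_upwards [T2P_pos] with w hw
    unfold T2P_n
    have h8 : w ^ (D + t.2.2) = w ^ D * w ^ t.2.2 := zpow_add₀ hw.1.ne' _ _
    have h9 : w ^ (-t.2.2) * w ^ t.2.2 = 1 := by
      rw [← zpow_add₀ hw.1.ne', neg_add_cancel, zpow_zero]
    rw [h8]
    linear_combination -(w ^ D * (1 - u w) * (p w + n w)) * h9
  · refine ⟨-s, abs_neg s, hP, ?_⟩
    have hdl : dl 2 t = -1 := by
      unfold dl
      rw [if_neg (by omega), if_pos hty, if_pos rfl]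
    rw [hdl]
    -- `u / w = -1 + O(w)`
    have hu1 : T2P_O (fun w => w ^ (-1 : ℤ) * u w + 1) 1 := by
      apply IsBigO.of_bound 8
      filter_upwards [T2P_pos] with w hw
      unfold u
      have hw1 : (1 - w) ^ 2 ≠ 0 := by
        have : 0 < 1 - w := by linarith [hw.2]
        positivity
      have h1 : w ^ (-1 : ℤ) * (-w / (1 - w) ^ 2) + 1 = -(w * (2 - w)) / (1 - w) ^ 2 := by
        rw [_root_.zpow_neg_one, eq_div_iff hw1, add_mul, mul_assoc, div_mul_cancel₀ _ hw1,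
          mul_neg, inv_mul_cancel₀ hw.1.ne']
        ring
      rw [h1, zpow_one, norm_div, norm_neg, Real.norm_of_nonneg (sq_nonneg (1 - w)),
        Real.norm_of_nonneg hw.1.le, Real.norm_of_nonneg (by nlinarith [hw.1, hw.2]),
        div_le_iff₀ (by nlinarith [hw.1, hw.2])]
      nlinarith [hw.1, hw.2, mul_pos hw.1 hw.1]
    have hz : T2P_O (fun w => w ^ (-t.2.2) - 1) 0 :=
      T2P_sub (T2P_zpow (-t.2.2)) (T2P_const 1) (by omega) le_rfl
    have hcoef : T2P_O (fun w => w ^ (-1 : ℤ) * (w ^ (-t.2.2) - w ^ (-t.2.2) * u w)) 1 :=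
      T2P_mul (T2P_zpow (-1)) (T2P_sub (T2P_zpow (-t.2.2))
        (T2P_mul (T2P_zpow (-t.2.2)) T2P_u (M := -t.2.2) (by omega)) le_rfl le_rfl) (by omega)
    -- the coefficient of `w^D n` is `-1 + O(w)`
    have hcoef2 : T2P_O (fun w => w ^ (-1 : ℤ) * (w ^ (-t.2.2) - w ^ (-t.2.2) * u w) +
        (w ^ (-1 : ℤ) * u w + 1)) 1 := T2P_add hcoef hu1 le_rfl le_rfl
    have hwn : T2P_O (fun w => w ^ D * n w) 0 := T2P_mul (T2P_zpow D) hn0 (by omega)
    have h2 : T2P_O (fun w => (w ^ (-1 : ℤ) * (w ^ (-t.2.2) - w ^ (-t.2.2) * u w) +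
        (w ^ (-1 : ℤ) * u w + 1)) * (w ^ D * n w)) 1 := T2P_mul hcoef2 hwn (by norm_num)
    have h3 : T2P_O (fun w => (w ^ (-1 : ℤ) * ((w ^ (-t.2.2) - 1) * (1 - u w))) *
        (w ^ D * p w)) 1 :=
      T2P_mul (T2P_mul (T2P_zpow (-1)) (T2P_mul hz T2P_u1 (M := 0) (by norm_num))
        (M := -1) (by norm_num)) hwp (by norm_num)
    have h4 : T2P_O (fun w => ((w ^ (-1 : ℤ) * (w ^ (-t.2.2) - w ^ (-t.2.2) * u w) +
        (w ^ (-1 : ℤ) * u w + 1)) * (w ^ D * n w) +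
        (w ^ (-1 : ℤ) * ((w ^ (-t.2.2) - 1) * (1 - u w))) * (w ^ D * p w)) -
        (w ^ D * n w - s)) 1 := T2P_sub (T2P_add h2 h3 le_rfl le_rfl) hn le_rfl le_rfl
    refine IsBigO.congr' h4 ?_ (EventuallyEq.refl _ _)
    filter_upwards [T2P_pos] with w hw
    unfold T2P_n
    have h8 : w ^ (D + -1) = w ^ D * w ^ (-1 : ℤ) := zpow_add₀ hw.1.ne' _ _
    rw [h8]
    ring

private lemma T2P_list2 (β : List (ℤ × ℤ × ℤ)) : ∀ (D : ℤ) (p n : ℝ → ℝ) (s : ℝ),
    (∀ x ∈ β, Hyp x) → (∀ x ∈ β, ty x = 2) → T2P_O p (2 - D) →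
    T2P_O (fun w => w ^ D * n w - s) 1 →
    ∃ s' : ℝ, |s'| = |s| ∧
      T2P_O (fun w => w ^ (D + dg 2 β) * (T2P_run β (p, n)).2 w - s') 1 := by
  induction β with
  | nil =>
    intro D p n s _ _ _ hn
    refine ⟨s, rfl, ?_⟩
    show T2P_O (fun w => w ^ (D + 0) * n w - s) 1
    rw [add_zero]
    exact hn
  | cons t β ih =>
    intro D p n s h1 h2 hp hn
    obtain ⟨s1, hs1, hp1, hn1⟩ := T2P_step2 D p n s t (h1 t List.mem_cons_self)
      (h2 t List.mem_cons_self) hp hn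
    obtain ⟨s2, hs2, hn2⟩ := ih (D + dl 2 t) (T2P_p t p n) (T2P_n t p n) s1
      (fun x hx => h1 x (List.mem_cons_of_mem _ hx)) (fun x hx => h2 x (List.mem_cons_of_mem _ hx))
      hp1 hn1
    refine ⟨s2, hs2.trans hs1, ?_⟩
    have hD : D + dg 2 (t :: β) = D + dl 2 t + dg 2 β := by
      show D + (dl 2 t + dg (ty t) β) = _
      rw [h2 t List.mem_cons_self]
      ring
    rw [hD]
    exact hn2

/-- the module T2P -/
theorem thm_T2P : St_T2P := by
  intro β h h1 h2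
  set X := ty (β.getLast h) with hX
  have hfs : ∀ Y, T2P_fs Y β = X := fun Y => T2P_fs_last β Y h
  -- the start `(1, 0)`
  have hone : ∃ K : ℤ, -1 ≤ K ∧ T2P_Inv X 0 K (fun _ => 1) (fun _ => 0) := by
    by_cases hX2 : X = 2
    · refine ⟨-1, le_rfl, T2P_mono (T2P_const 1) (by norm_num),
        T2P_mono (T2P_const 0) (by norm_num), fun _ => T2P_mono (T2P_const 1) (by norm_num)⟩
    · exact ⟨0, by norm_num, T2P_mono (T2P_const 1) (by norm_num),
        T2P_mono (T2P_const 0) (by norm_num), fun h3 => absurd h3 hX2⟩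
  have hzero : T2P_Inv X 0 0 (fun _ => 0) (fun _ => 1) := by
    refine ⟨T2P_mono (T2P_const 0) (by norm_num), T2P_mono (T2P_const 1) (by norm_num), fun _ => ?_⟩
    exact isBigO_zero _ _
  obtain ⟨K, hK, hInv⟩ := hone
  obtain ⟨a1, a2, a3⟩ := T2P_list β X 0 K _ _ h1 h2 hInv
  obtain ⟨b1, b2, b3⟩ := T2P_list β X 0 0 _ _ h1 h2 hzero
  rw [zero_add] at a1 a2 a3 b1 b2 b3
  constructor
  · intro hex
    obtain ⟨c1, -, -⟩ := a2 hex
    obtain ⟨-, d2, -⟩ := b2 hex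
    have e1 : T2P_O (fun w => w ^ (dg X β) * (T2P_run β (fun _ => 1, fun _ => 0)).1 w) 1 :=
      T2P_mul (T2P_zpow _) c1 (by omega)
    have e2 : T2P_O (fun w => w ^ (dg X β) * (T2P_run β (fun _ => 0, fun _ => 1)).2 w) 1 :=
      T2P_mul (T2P_zpow _) d2 (by omega)
    have e3 : T2P_O (fun w => w ^ (dg X β) * (T2P_run β (fun _ => 1, fun _ => 0)).1 w +
        w ^ (dg X β) * (T2P_run β (fun _ => 0, fun _ => 1)).2 w) 1 :=
      T2P_add e1 e2 le_rfl le_rfl
    have e4 : (fun w : ℝ => w ^ (dg X β) * tr2 β w) = fun w =>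
        w ^ (dg X β) * (T2P_run β (fun _ => 1, fun _ => 0)).1 w +
        w ^ (dg X β) * (T2P_run β (fun _ => 0, fun _ => 1)).2 w := by
      funext w
      rw [T2P_tr]
      ring
    rw [e4]
    have e5 := e3
    unfold T2P_O at e5
    simp only [zpow_one] at e5
    exact e5
  · intro hall
    have hX2 : X = 2 := hall _ (List.getLast_mem h)
    have c1 : T2P_O (T2P_run β (fun _ => 1, fun _ => 0)).1 (K - dg X β + 9) :=
      a3 h ((hfs X).trans hX2)
    have e1 : T2P_O (fun w => w ^ (dg X β) * (T2P_run β (fun _ => 1, fun _ => 0)).1 w) 1 :=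
      T2P_mul (T2P_zpow _) c1 (by omega)
    obtain ⟨s', hs', e2⟩ := T2P_list2 β 0 (fun _ => 0) (fun _ => 1) 1 h1 hall (isBigO_zero _ _)
      (by
        have h3 : (fun w : ℝ => w ^ (0 : ℤ) * (1 : ℝ) - 1) = fun _ => (0 : ℝ) := by
          funext w
          simp
        rw [h3]
        exact isBigO_zero _ _)
    rw [zero_add] at e2
    refine ⟨s', ?_, ?_⟩
    · rw [hs', abs_one]
    · rw [hX2] at e1 ⊢
      have e3 : T2P_O (fun w => w ^ (dg 2 β) * (T2P_run β (fun _ => 1, fun _ => 0)).1 w +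
          (w ^ (dg 2 β) * (T2P_run β (fun _ => 0, fun _ => 1)).2 w - s')) 1 :=
        T2P_add e1 e2 le_rfl le_rfl
      have e4 : (fun w : ℝ => w ^ (dg 2 β) * tr2 β w - s') = fun w =>
          w ^ (dg 2 β) * (T2P_run β (fun _ => 1, fun _ => 0)).1 w +
          (w ^ (dg 2 β) * (T2P_run β (fun _ => 0, fun _ => 1)).2 w - s') := by
        funext w
        rw [T2P_tr]
        ring
      rw [e4]
      have e5 := e3
      unfold T2P_O at e5
      simp only [zpow_one] at e5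
      exact e5

end Pool.Agent.FB.W8
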