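import Mathlib
import Pool.Agent.FB.W8.HEAD

/-!
# FB/W8, module WST: the weak step
-/

set_option autoImplicit false

open Filter Asymptotics Topology Matrix

namespace Pool.Agent.FB.W8

/-- the exponent of the coordinate -/
def WST_ex (t : ℤ × ℤ × ℤ) (k : Fin 3) : ℤ := if k = 0 then t.1 else t.2.1

theorem WST_stp (t : ℤ × ℤ × ℤ) (V : ℝ → Fin 3 → ℝ) (w : ℝ) (k : Fin 3) (hk : k ≠ 2) :
    stp t V w k = w ^ (-(WST_ex t k)) *
      (V w k + (w ^ (-t.2.2) - 1) * (u w * (V w 0 + V w 1 + V w 2))) := by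
  fin_cases k
  · exact stp_zero t V w
  · exact stp_one t V w
  · exact absurd rfl hk

theorem WST_zpow {n : ℤ} (h : 1 ≤ n) : Tendsto (fun w : ℝ => w ^ n) (𝓝[>] (0 : ℝ)) (𝓝 0) :=
  O_tendsto_zero (k := 1) le_rfl (O_zpow (by push_cast; omega))

theorem WST_z (b : ℤ) (hb : b ≠ 0) : Tendsto (fun w : ℝ => w ^ (max b 0) * (w ^ (-b) - 1))
    (𝓝[>] (0 : ℝ)) (𝓝 (if 0 < b then 1 else -1)) := by
  by_cases h : 0 < b
  · rw [if_pos h, max_eq_left h.le]
    have h1 : Tendsto (fun w : ℝ => 1 - w ^ b) (𝓝[>] (0 : ℝ)) (𝓝 (1 - 0)) :=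
      (WST_zpow (by omega)).const_sub 1
    rw [sub_zero] at h1
    refine h1.congr' ?_
    filter_upwards [ev_pos] with w hw
    rw [mul_sub, ← zpow_add₀ hw.ne', add_neg_cancel, zpow_zero, mul_one]
  · rw [if_neg h, max_eq_right (not_lt.1 h)]
    have h1 : Tendsto (fun w : ℝ => w ^ (-b) - 1) (𝓝[>] (0 : ℝ)) (𝓝 (0 - 1)) :=
      (WST_zpow (by omega)).sub_const 1
    rw [zero_sub] at h1
    refine h1.congr' ?_
    filter_upwards [ev_pos] with w hw
    rw [zpow_zero, one_mul]

/-- all coordinates -/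
theorem WST_V {X : Fin 3} {D : ℤ} {s κ : ℝ} {V : ℝ → Fin 3 → ℝ} (h : WInv X D s κ V) (k : Fin 3) :
    Tendsto (fun w : ℝ => w ^ D * V w k) (𝓝[>] 0) (𝓝 (if k = X then s else 0)) := by
  obtain ⟨h1, -, h3, h4⟩ := h
  by_cases hk : k = X
  · rw [if_pos hk, hk]
    exact h1
  rw [if_neg hk]
  by_cases hX : X = 2
  · obtain ⟨h5, h6⟩ := h3 hX
    have h7 : k = 0 ∨ k = 1 := by
      rw [hX] at hk
      fin_cases k
      · left; rfl
      · right; rfl
      · exact absurd rfl hk
    rcases h7 with h7 | h7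
    · rw [h7]
      exact O_tendsto_zero (by norm_num) h5
    · rw [h7]
      exact O_tendsto_zero (by norm_num) h6
  · obtain ⟨h5, h6⟩ := h4 hX
    by_cases h7 : k = 2
    · rw [h7]
      exact O_tendsto_zero (by norm_num) h6
    · have h8 : k = sw X := by
        unfold sw
        fin_cases k <;> fin_cases X <;> simp_all
      rw [h8]
      have h9 := tendsto_w.mul h5
      rw [zero_mul] at h9
      refine h9.congr' ?_
      filter_upwards [ev_pos] with w hw
      rw [← mul_assoc, ← zpow_one_add₀ hw.ne', add_sub_cancel]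

theorem WST_S {X : Fin 3} {D : ℤ} {s κ : ℝ} {V : ℝ → Fin 3 → ℝ} (h : WInv X D s κ V) :
    Tendsto (fun w : ℝ => w ^ D * (V w 0 + V w 1 + V w 2)) (𝓝[>] 0) (𝓝 s) := by
  have h1 := ((WST_V h 0).add (WST_V h 1)).add (WST_V h 2)
  have h2 : (if (0 : Fin 3) = X then s else 0) + (if (1 : Fin 3) = X then s else 0) +
      (if (2 : Fin 3) = X then s else 0) = s := by
    fin_cases X <;> simp
  rw [h2] at h1
  refine h1.congr fun w => ?_
  ring

theorem WST_P {D E b : ℤ} {s ζ : ℝ} {S : ℝ → ℝ}
    (hz : Tendsto (fun w : ℝ => w ^ E * (w ^ (-b) - 1)) (𝓝[>] (0 : ℝ)) (𝓝 ζ))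
    (hS : Tendsto (fun w : ℝ => w ^ D * S w) (𝓝[>] 0) (𝓝 s)) :
    Tendsto (fun w : ℝ => w ^ (D + E - 1) * ((w ^ (-b) - 1) * (u w * S w))) (𝓝[>] 0)
      (𝓝 (-(ζ * s))) := by
  have h1 := (hz.mul tendsto_u_div).mul hS
  have h2 : ζ * -1 * s = -(ζ * s) := by ring
  rw [h2] at h1
  refine h1.congr' ?_
  filter_upwards [ev_pos] with w hw
  have h3 : w ^ (D + E - 1) = w ^ D * w ^ E * w ^ (-1 : ℤ) := by
    rw [← zpow_add₀ hw.ne', ← zpow_add₀ hw.ne']
    rfl
  rw [h3]
  ring

theorem WST_Q {D E b : ℤ} {s ζ : ℝ} {S : ℝ → ℝ}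
    (hz : Tendsto (fun w : ℝ => w ^ E * (w ^ (-b) - 1)) (𝓝[>] (0 : ℝ)) (𝓝 ζ))
    (hS : Tendsto (fun w : ℝ => w ^ D * S w) (𝓝[>] 0) (𝓝 s)) :
    Tendsto (fun w : ℝ => w ^ (D + E) * ((w ^ (-b) - 1) * ((1 - 2 * u w) * S w))) (𝓝[>] 0)
      (𝓝 (ζ * s)) := by
  have h0 : Tendsto (fun w : ℝ => 1 - 2 * u w) (𝓝[>] (0 : ℝ)) (𝓝 (1 - 2 * 0)) :=
    (tendsto_u.const_mul 2).const_sub 1
  have h1 := (hz.mul h0).mul hS
  have h2 : ζ * (1 - 2 * 0) * s = ζ * s := by ring
  rw [h2] at h1
  refine h1.congr' ?_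
  filter_upwards [ev_pos] with w hw
  rw [zpow_add₀ hw.ne']
  ring

/-- product with a power -/
theorem WST_O {f : ℝ → ℝ} {x : ℝ} {D : ℤ} (n : ℤ) (k : ℕ) (hn : (k : ℤ) ≤ n)
    (hf : Tendsto (fun w : ℝ => w ^ D * f w) (𝓝[>] 0) (𝓝 x)) :
    (fun w : ℝ => w ^ (D + n) * f w) =O[𝓝[>] (0 : ℝ)] fun w => w ^ k := by
  have h1 := O_mul (O_zpow hn) (O_of_tendsto hf)
  rw [add_zero] at h1
  refine IsBigO.congr' h1 ?_ (Eventually.of_forall fun _ => rfl)
  filter_upwards [ev_pos] with w hw
  rw [← mul_assoc, ← zpow_add₀ hw.ne', add_comm n D]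

theorem WST_T {f : ℝ → ℝ} {x : ℝ} {D : ℤ} (n : ℤ) (hn : 1 ≤ n)
    (hf : Tendsto (fun w : ℝ => w ^ D * f w) (𝓝[>] 0) (𝓝 x)) :
    Tendsto (fun w : ℝ => w ^ (D + n) * f w) (𝓝[>] (0 : ℝ)) (𝓝 0) :=
  O_tendsto_zero (k := 1) le_rfl (WST_O n 1 (by push_cast; omega) hf)

theorem WST_ty2 {t : ℤ × ℤ × ℤ} (h : Hyp t) (h2 : ty t = 2) (k : Fin 3) : 5 ≤ -(WST_ex t k) := by
  obtain ⟨h3, h4, h5, h6⟩ := h
  obtain ⟨h7, h8⟩ := (ty_two_iff t).1 h2
  unfold WST_ex
  rw [abs_of_neg h7] at h3
  rw [abs_of_neg h8] at h4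
  split_ifs <;> assumption

theorem WST_ty {t : ℤ × ℤ × ℤ} (h : Hyp t) (h2 : ty t ≠ 2) :
    WST_ex t (ty t) = max t.1 t.2.1 ∧ 5 ≤ WST_ex t (ty t) ∧
      WST_ex t (sw (ty t)) + 2 ≤ WST_ex t (ty t) ∧ sw (ty t) ≠ 2 := by
  obtain ⟨h3, h4, h5, h6⟩ := h
  have h7 : ¬ (t.1 < 0 ∧ t.2.1 < 0) := fun h => h2 ((ty_two_iff t).2 h)
  have h8 : ty t = if t.2.1 < t.1 then 0 else 1 := by
    unfold ty
    rw [if_neg h7]
  rw [h8]
  by_cases h9 : t.2.1 < t.1
  · rw [if_pos h9]
    have e1 : WST_ex t 0 = t.1 := rfl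
    have e2 : WST_ex t (sw 0) = t.2.1 := rfl
    rw [e1, e2]
    refine ⟨(max_eq_left h9.le).symm, ?_, ?_, by decide⟩
    · rcases abs_cases t.1 with ⟨e3, _⟩ | ⟨e3, _⟩ <;> omega
    · rcases abs_cases (t.1 - t.2.1) with ⟨e3, _⟩ | ⟨e3, _⟩ <;> omega
  · rw [if_neg h9]
    have e1 : WST_ex t 1 = t.2.1 := rfl
    have e2 : WST_ex t (sw 1) = t.1 := rfl
    rw [e1, e2]
    refine ⟨(max_eq_right (not_lt.1 h9)).symm, ?_, ?_, by decide⟩
    · rcases abs_cases t.2.1 with ⟨e3, _⟩ | ⟨e3, _⟩ <;> omega
    · rcases abs_cases (t.1 - t.2.1) with ⟨e3, _⟩ | ⟨e3, _⟩ <;> omega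

theorem WST_nb {t : ℤ × ℤ × ℤ} (h : Hyp t) : 5 ≤ |t.2.2| := h.2.2.1

/-- the other coordinates at a block of type `2` -/
theorem WST_two {t : ℤ × ℤ × ℤ} (h : Hyp t) (h2 : ty t = 2) {D' : ℤ} {V : ℝ → Fin 3 → ℝ} {x : ℝ}
    (k : Fin 3) (hk : k ≠ 2)
    (hf : Tendsto (fun w : ℝ => w ^ D' *
      (V w k + (w ^ (-t.2.2) - 1) * (u w * (V w 0 + V w 1 + V w 2)))) (𝓝[>] 0) (𝓝 x)) :
    (fun w : ℝ => w ^ D' * stp t V w k) =O[𝓝[>] (0 : ℝ)] fun w => w ^ 5 := by
  have h1 := WST_O (-(WST_ex t k)) 5 (by exact_mod_cast WST_ty2 h h2 k) hf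
  refine IsBigO.congr' h1 ?_ (Eventually.of_forall fun _ => rfl)
  filter_upwards [ev_pos] with w hw
  rw [WST_stp t V w k hk, zpow_add₀ hw.ne', mul_assoc]

theorem thm_W : St_W := by
  intro X D s κ V t ht hs hV
  obtain ⟨b, hb⟩ : ∃ b, b = t.2.2 := ⟨_, rfl⟩
  have hb5 : 5 ≤ |b| := by rw [hb]; exact WST_nb ht
  have hb0 : b ≠ 0 := by
    intro h
    rw [h, abs_zero] at hb5
    omega
  obtain ⟨E, hE⟩ : ∃ E, E = max b 0 := ⟨_, rfl⟩
  obtain ⟨ζ, hζ⟩ : ∃ ζ : ℝ, ζ = if 0 < b then 1 else -1 := ⟨_, rfl⟩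
  have hz := WST_z b hb0
  rw [← hE, ← hζ] at hz
  have hS := WST_S hV
  have hP := WST_P hz hS
  have hQ := WST_Q hz hS
  have hζ1 : |ζ| = 1 := by
    rw [hζ]
    split_ifs
    · exact abs_one
    · rw [abs_neg, abs_one]
  -- `w^(D+E) z u S` is small
  have hP' : Tendsto (fun w : ℝ => w ^ (D + E) * ((w ^ (-b) - 1) * (u w * (V w 0 + V w 1 + V w 2))))
      (𝓝[>] 0) (𝓝 0) := by
    have h1 := WST_T 1 le_rfl hP
    rw [sub_add_cancel] at h1
    exact h1
  -- the vector is bounded in degree `D + E`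
  have hVE : ∀ k, ∃ x, Tendsto (fun w : ℝ => w ^ (D + E) * V w k) (𝓝[>] 0) (𝓝 x) := by
    intro k
    by_cases hb1 : 0 < b
    · rw [max_eq_left hb1.le] at hE
      exact ⟨_, WST_T E (by omega) (WST_V hV k)⟩
    · rw [max_eq_right (not_lt.1 hb1)] at hE
      rw [hE, add_zero]
      exact ⟨_, WST_V hV k⟩
  have hbr2 : ∃ x, Tendsto (fun w : ℝ => w ^ (D + E) * stp t V w 2) (𝓝[>] 0) (𝓝 x) := by
    obtain ⟨x, hx⟩ := hVE 2
    refine ⟨_, (hx.add hQ).congr fun w => ?_⟩
    rw [stp_two, hb]
    ring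
  by_cases h2 : ty t = 2
  · by_cases hB : b < 0 ∧ X = 2
    · -- case B
      obtain ⟨hb1, hX⟩ := hB
      have hE0 : E = 0 := by rw [hE]; exact max_eq_right hb1.le
      have hζ' : ζ = -1 := by rw [hζ, if_neg (not_lt.2 hb1.le)]
      rw [hE0, add_zero] at hP' hP hQ
      obtain ⟨h3, -, h5, -⟩ := hV
      obtain ⟨h6, h7⟩ := h5 hX
      have hdl : dl X t = -1 := by
        unfold dl
        rw [if_neg (by rw [← hb]; omega), if_pos h2, if_pos hX]
      have hsm : ∀ k : Fin 3, k ≠ 2 → Tendsto (fun w : ℝ => w ^ (D - 1) * V w k) (𝓝[>] 0) (𝓝 0) := by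
        intro k hk
        have h8 : (fun w : ℝ => w ^ D * V w k) =O[𝓝[>] (0 : ℝ)] fun w => w ^ 5 := by
          fin_cases k
          · exact h6
          · exact h7
          · exact absurd rfl hk
        have h9 : (fun w : ℝ => w ^ (-1 : ℤ) * (w ^ D * V w k)) =O[𝓝[>] (0 : ℝ)]
            fun w => w ^ (-1 : ℤ) * w ^ 5 := IsBigO.mul (isBigO_refl _ _) h8
        refine O_tendsto_zero (k := 4) (by norm_num) (IsBigO.congr' h9 ?_ ?_)
        · filter_upwards [ev_pos] with w hw
          rw [← mul_assoc, ← zpow_add₀ hw.ne']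
          congr 2
          ring
        · filter_upwards [ev_pos] with w hw
          rw [_root_.zpow_neg_one]
          field_simp
      refine ⟨-2 * s, 0, ⟨?_, le_rfl, ?_, ?_⟩, ?_⟩
      · rw [h2, hdl]
        -- `V2' = 2 u V2 - (1 - 2u)(V0 + V1) + w^(-b) (1 - 2u) S`
        have h8 : Tendsto (fun w : ℝ => 1 - 2 * u w) (𝓝[>] (0 : ℝ)) (𝓝 (1 - 2 * 0)) :=
          (tendsto_u.const_mul 2).const_sub 1
        have h9 : Tendsto (fun w : ℝ => w ^ D * V w 2) (𝓝[>] 0) (𝓝 s) := by
          rw [← hX]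
          exact h3
        have h10 := (tendsto_u_div.mul h9).const_mul 2
        have h11 := h8.mul ((hsm 0 (by decide)).add (hsm 1 (by decide)))
        have h12 : Tendsto (fun w : ℝ => w ^ (-b - 1)) (𝓝[>] (0 : ℝ)) (𝓝 0) :=
          WST_zpow (by rw [abs_of_neg hb1] at hb5; omega)
        have h13 := (h12.mul h8).mul hS
        have h14 := (h10.sub h11).add h13
        have h15 : 2 * (-1 * s) - (1 - 2 * 0) * (0 + 0) + 0 * (1 - 2 * 0) * s = -2 * s := by ring
        rw [h15] at h14
        refine h14.congr' ?_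
        filter_upwards [ev_pos] with w hw
        rw [stp_two, ← hb]
        have e1 : w ^ (D + -1) = w ^ D * w⁻¹ := by rw [zpow_add₀ hw.ne', _root_.zpow_neg_one]
        have e2 : w ^ (D - 1) = w ^ D * w⁻¹ := by rw [zpow_sub_one₀ hw.ne']
        have e3 : w ^ (-b - 1) = w ^ (-b) * w⁻¹ := by rw [zpow_sub_one₀ hw.ne']
        rw [e1, e2, e3, _root_.zpow_neg_one]
        ring
      · intro _
        rw [hdl]
        constructor
        · refine WST_two ht h2 0 (by decide) (x := 0 + -(ζ * s)) ?_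
          refine ((hsm 0 (by decide)).add hP).congr fun w => ?_
          rw [← hb]
          show _ = w ^ (D - 1) * _
          ring
        · refine WST_two ht h2 1 (by decide) (x := 0 + -(ζ * s)) ?_
          refine ((hsm 1 (by decide)).add hP).congr fun w => ?_
          rw [← hb]
          show _ = w ^ (D - 1) * _
          ring
      · intro h
        exact absurd h2 h
      · rw [if_pos ⟨by rw [← hb]; exact hb1, h2, hX⟩, abs_mul, abs_neg, abs_two, mul_comm]
    · -- case A
      have hdl : dl X t = E := by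
        unfold dl
        rw [if_pos h2, if_pos h2, ← hb]
        by_cases hb1 : 0 < b
        · rw [if_pos hb1, hE, max_eq_left hb1.le]
        · rw [if_neg hb1, hE, max_eq_right (not_lt.1 hb1), if_neg]
          exact fun h => hB ⟨lt_of_le_of_ne (not_lt.1 hb1) hb0, h⟩
      have h3 : Tendsto (fun w : ℝ => w ^ (D + E) * V w 2) (𝓝[>] 0) (𝓝 0) := by
        by_cases hb1 : 0 < b
        · rw [max_eq_left hb1.le] at hE
          exact WST_T E (by omega) (WST_V hV 2)
        · rw [max_eq_right (not_lt.1 hb1)] at hE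
          rw [hE, add_zero]
          have h4 := WST_V hV 2
          rwa [if_neg] at h4
          exact fun h => hB ⟨lt_of_le_of_ne (not_lt.1 hb1) hb0, h.symm⟩
      refine ⟨ζ * s, 0, ⟨?_, le_rfl, ?_, ?_⟩, ?_⟩
      · rw [h2, hdl]
        have h4 := h3.add hQ
        rw [zero_add] at h4
        refine h4.congr fun w => ?_
        rw [stp_two, hb]
        ring
      · intro _
        rw [hdl]
        constructor
        · obtain ⟨x, hx⟩ := hVE 0
          refine WST_two ht h2 0 (by decide) (x := x + 0) ((hx.add hP').congr fun w => ?_)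
          rw [← hb]
          ring
        · obtain ⟨x, hx⟩ := hVE 1
          refine WST_two ht h2 1 (by decide) (x := x + 0) ((hx.add hP').congr fun w => ?_)
          rw [← hb]
          ring
      · intro h
        exact absurd h2 h
      · rw [if_neg, if_neg, abs_mul, hζ1, one_mul, mul_one]
        · exact fun h => h.2.1 h2
        · exact fun h => hB ⟨by rw [hb]; exact h.1, h.2.2⟩
  · -- `ty t = i ≠ 2`
    obtain ⟨e1, e2, e3, e4⟩ := WST_ty ht h2
    obtain ⟨i, hi⟩ : ∃ i, i = ty t := ⟨_, rfl⟩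
    rw [← hi] at e1 e2 e3 e4 h2
    -- the coordinate `2`
    have h2c : ∀ n : ℤ, 4 ≤ n → (fun w : ℝ => w ^ (D + E + n) * stp t V w 2) =O[𝓝[>] (0 : ℝ)]
        fun w => w ^ 4 := by
      intro n hn
      obtain ⟨x, hx⟩ := hbr2
      exact WST_O n 4 (by exact_mod_cast hn) hx
    -- the coordinates
    have hco : ∀ (k : Fin 3) (hk : k ≠ 2) (n : ℤ) (w : ℝ), 0 < w →
        w ^ n * (V w k + (w ^ (-b) - 1) * (u w * (V w 0 + V w 1 + V w 2))) =
          w ^ (n + WST_ex t k) * stp t V w k := by
      intro k hk n w hw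
      rw [WST_stp t V w k hk, ← hb, ← mul_assoc (w ^ (n + WST_ex t k)), ← zpow_add₀ hw.ne',
        add_neg_cancel_right]
    by_cases hC : 0 < b ∨ X = 2
    · -- case C
      have hdl : dl X t = E + WST_ex t i - 1 := by
        unfold dl
        rw [← hi, ← e1, ← hb, if_neg h2, if_neg h2]
        by_cases hb1 : 0 < b
        · rw [if_pos hb1, hE, max_eq_left hb1.le]
        · rw [if_neg hb1, hE, max_eq_right (not_lt.1 hb1), if_neg, zero_add]
          intro h
          rcases hC with h3 | h3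
          · exact hb1 h3
          · exact h2 (h.symm.trans h3)
      have hsm : ∀ k : Fin 3, k ≠ 2 →
          Tendsto (fun w : ℝ => w ^ (D + E - 1) * V w k) (𝓝[>] 0) (𝓝 0) := by
        intro k hk
        by_cases hb1 : 0 < b
        · have h3 : D + E - 1 = D + (E - 1) := by ring
          rw [h3]
          refine WST_T (E - 1) ?_ (WST_V hV k)
          rw [hE, max_eq_left hb1.le]
          rw [abs_of_pos hb1] at hb5
          omega
        · have hX : X = 2 := hC.resolve_left hb1
          have hE0 : E = 0 := by rw [hE]; exact max_eq_right (not_lt.1 hb1)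
          rw [hE0, add_zero]
          obtain ⟨-, -, h5, -⟩ := hV
          obtain ⟨h6, h7⟩ := h5 hX
          have h8 : (fun w : ℝ => w ^ D * V w k) =O[𝓝[>] (0 : ℝ)] fun w => w ^ 5 := by
            fin_cases k
            · exact h6
            · exact h7
            · exact absurd rfl hk
          have h9 : (fun w : ℝ => w ^ (-1 : ℤ) * (w ^ D * V w k)) =O[𝓝[>] (0 : ℝ)]
              fun w => w ^ (-1 : ℤ) * w ^ 5 := IsBigO.mul (isBigO_refl _ _) h8
          refine O_tendsto_zero (k := 4) (by norm_num) (IsBigO.congr' h9 ?_ ?_)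
          · filter_upwards [ev_pos] with w hw
            rw [← mul_assoc, ← zpow_add₀ hw.ne']
            congr 2
            ring
          · filter_upwards [ev_pos] with w hw
            rw [_root_.zpow_neg_one]
            field_simp
      refine ⟨-(ζ * s), 0, ⟨?_, le_rfl, ?_, ?_⟩, ?_⟩
      · rw [← hi, hdl]
        have h4 := (hsm i h2).add hP
        rw [zero_add] at h4
        refine h4.congr' ?_
        filter_upwards [ev_pos] with w hw
        rw [← mul_add, hco i h2 _ w hw]
        congr 2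
        ring
      · intro h
        rw [← hi] at h
        exact absurd h h2
      · intro _
        rw [← hi, hdl]
        constructor
        · rw [zero_mul]
          have h4 := (hsm (sw i) e4).add hP
          have h5 := WST_T (f := fun w => V w (sw i) + (w ^ (-b) - 1) *
            (u w * (V w 0 + V w 1 + V w 2))) (D := D + E - 1)
            (WST_ex t i - 1 - WST_ex t (sw i)) (by omega) (h4.congr fun w => by ring)
          refine h5.congr' ?_
          filter_upwards [ev_pos] with w hw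
          rw [hco (sw i) e4 _ w hw]
          congr 2
          ring
        · have h4 := h2c (WST_ex t i - 1) (by omega)
          have h5 : D + (E + WST_ex t i - 1) = D + E + (WST_ex t i - 1) := by ring
          rw [h5]
          exact h4
      · rw [if_neg, if_neg, abs_neg, abs_mul, hζ1, one_mul, mul_one]
        · intro h
          rcases hC with h3 | h3
          · rw [hb] at h3
            exact absurd h3 (not_lt.2 h.1.le)
          · exact h.2.2.1 h3
        · intro h
          rw [← hi] at h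
          exact h2 h.2.1
    · -- `b < 0`, `X ≠ 2`
      push Not at hC
      obtain ⟨hb1, hX⟩ := hC
      have hb1' : b < 0 := lt_of_le_of_ne hb1 hb0
      have hE0 : E = 0 := by rw [hE]; exact max_eq_right hb1
      have hζ' : ζ = -1 := by rw [hζ, if_neg (not_lt.2 hb1)]
      rw [hE0, add_zero] at hP' hP hQ h2c
      rw [hζ'] at hP
      have hP2 : -(-1 * s) = s := by ring
      rw [hP2] at hP
      have hVV := WST_V hV
      obtain ⟨h3, h3', -, h5⟩ := hV
      obtain ⟨h6, h7⟩ := h5 hX
      by_cases hiX : i = X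
      · -- case D
        have hdl : dl X t = WST_ex t i := by
          unfold dl
          rw [← hi, ← e1, ← hb, if_neg (not_lt.2 hb1), if_neg h2, if_pos hiX.symm]
        refine ⟨s, 0, ⟨?_, le_rfl, ?_, ?_⟩, ?_⟩
        · rw [← hi, hdl]
          have h8 := h3.add hP'
          rw [add_zero, ← hiX] at h8
          refine h8.congr' ?_
          filter_upwards [ev_pos] with w hw
          rw [← mul_add, hco i h2 _ w hw]
        · intro h
          rw [← hi] at h
          exact absurd h h2
        · intro _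
          rw [← hi, hdl]
          constructor
          · rw [zero_mul]
            rw [← hiX] at h6
            have h8 := h6.add hP
            have h9 := WST_T (f := fun w => V w (sw i) + (w ^ (-b) - 1) *
              (u w * (V w 0 + V w 1 + V w 2))) (D := D - 1)
              (WST_ex t i - WST_ex t (sw i)) (by omega) (h8.congr fun w => by ring)
            refine h9.congr' ?_
            filter_upwards [ev_pos] with w hw
            rw [hco (sw i) e4 _ w hw]
            congr 2
            ring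
          · exact h2c (WST_ex t i) (by omega)
        · rw [if_neg, if_neg, mul_one]
          · intro h
            rw [← hi] at h
            exact h.2.2.2 hiX
          · intro h
            rw [← hi] at h
            exact h2 h.2.1
      · -- case F
        have hswi : i = sw X := by
          unfold sw
          clear hi h3 h5 h6 hVV e1 e2 e3 e4
          fin_cases i <;> fin_cases X <;> simp_all
        have hswX : sw i = X := by
          rw [hswi]
          clear hi h3 h5 h6 hVV e1 e2 e3 e4 hswi hiX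
          unfold sw
          fin_cases X <;> simp_all
        have hdl : dl X t = WST_ex t i - 1 := by
          unfold dl
          rw [← hi, ← e1, ← hb, if_neg (not_lt.2 hb1), if_neg h2, if_neg (Ne.symm hiX)]
        have hk1 : 0 < 1 + κ := by linarith
        refine ⟨(1 + κ) * s, if WST_ex t i - WST_ex t (sw i) = 2 then 1 / (1 + κ) else 0,
          ⟨?_, ?_, ?_, ?_⟩, ?_⟩
        · rw [← hi, hdl]
          rw [← hswi] at h6
          have h8 := h6.add hP
          have h9 : κ * s + s = (1 + κ) * s := by ring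
          rw [h9] at h8
          refine h8.congr' ?_
          filter_upwards [ev_pos] with w hw
          rw [← mul_add, hco i h2 _ w hw]
          congr 2
          ring
        · split_ifs
          · positivity
          · exact le_rfl
        · intro h
          rw [← hi] at h
          exact absurd h h2
        · intro _
          rw [← hi, hdl]
          constructor
          · have h8 := (hVV X).add hP'
            rw [if_pos rfl, add_zero] at h8
            rw [hswX]
            rw [hswX] at e3 e4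
            by_cases h9 : WST_ex t i - WST_ex t X = 2
            · rw [if_pos h9]
              have h10 : 1 / (1 + κ) * ((1 + κ) * s) = s := by
                field_simp
              rw [h10]
              refine h8.congr' ?_
              filter_upwards [ev_pos] with w hw
              rw [← mul_add, hco X e4 _ w hw]
              congr 2
              omega
            · rw [if_neg h9, zero_mul]
              have h11 := WST_T (f := fun w => V w X + (w ^ (-b) - 1) *
                (u w * (V w 0 + V w 1 + V w 2))) (D := D)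
                (WST_ex t i - WST_ex t X - 2) (by omega) (h8.congr fun w => by ring)
              refine h11.congr' ?_
              filter_upwards [ev_pos] with w hw
              rw [hco X e4 _ w hw]
              congr 2
              ring
          · have h8 := h2c (WST_ex t i - 1) (by omega)
            exact h8
        · rw [if_neg, if_pos, abs_mul, abs_of_pos hk1, mul_comm]
          · rw [← hi, ← hb]
            exact ⟨hb1', h2, hX, hiX⟩
          · intro h
            rw [← hi] at h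
            exact h2 h.2.1

end Pool.Agent.FB.W8
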