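import Pool.Agent.FB.W8.WR
import Pool.Agent.FB.W8.KEY
import Pool.Agent.FB.W8.LNK
import Pool.Agent.FB.W8.WST
import Pool.Agent.FB.W8.SSTE
import Pool.Agent.FB.W8.SSTF
import Pool.Agent.FB.W8.AUT
import Pool.Agent.FB.W8.H3
import Pool.Agent.FB.W8.P1
import Pool.Agent.FB.W8.PST
import Pool.Agent.FB.W8.H3P
import Pool.Agent.FB.W8.T2P
import Pool.Agent.FB.W8.P2
import Pool.Agent.FB.W8.T2
import Pool.Agent.FB.W8.FIN

/-!
# FB/W8: the theorem
-/

set_option autoImplicit false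

namespace Pool.Agent.FB.W8

/-- **closed 4-braids with all exponents `≥ 5`** -/
theorem main : St_W8L :=
  thm_W8L (thm_W8 (thm_Key thm_Wr) (thm_P1 (thm_H3 thm_W (thm_S thm_SE thm_SF) thm_A) thm_T2)
    (thm_P2 (thm_H3P thm_PS) thm_T2P)) thm_Lk

end Pool.Agent.FB.W8
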