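import Mathlib

/-!
# FB/W8: the functional `L` on Laurent polynomials

`x = w ^ n c (1 + a w + b w ^ 2 + d w ^ 3 + w ^ 4 r)`, `c ≠ 0`, `L(x) = 5 a₁ + 3 a₂ + a₃` with `a_k = k [w ^ k] log`.
`HL x l` says `x ≠ 0` and `L(x) = l`. `L` is additive.
-/

set_option autoImplicit false

open scoped LaurentPolynomial Polynomial
open Polynomial (toLaurent X)

namespace Pool.Agent.FB.W8.T2X

/-- the variable `w = 1 / q` -/
noncomputable def w : ℚ[T;T⁻¹] := LaurentPolynomial.T 1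

/-- the powers of `w` -/
noncomputable def T (n : ℤ) : ℚ[T;T⁻¹] := LaurentPolynomial.T n

/-- constants -/
noncomputable def K : ℚ →+* ℚ[T;T⁻¹] := LaurentPolynomial.C

/-- `5 a₁ + 3 a₂ + a₃` for `1 + a w + b w ^ 2 + d w ^ 3` -/
def Ls (a b d : ℚ) : ℚ := 5 * a + 3 * (2 * b - a ^ 2) + (3 * d - 3 * a * b + a ^ 3)

/-- `x = w ^ n c (1 + a w + b w ^ 2 + d w ^ 3 + w ^ 4 r)` -/
def Hd (x : ℚ[T;T⁻¹]) (n : ℤ) (c a b d : ℚ) : Prop :=
  ∃ r : ℚ[X], x = T n * (K c * (1 + K a * w + K b * w ^ 2 + K d * w ^ 3 + w ^ 4 * toLaurent r))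

/-- `x ≠ 0` and `L(x) = l` -/
def HL (x : ℚ[T;T⁻¹]) (l : ℚ) : Prop :=
  ∃ (n : ℤ) (c a b d : ℚ), c ≠ 0 ∧ Hd x n c a b d ∧ l = Ls a b d

/-- `x` has the leading coefficient `c ≠ 0` and `L(x) = l` -/
def HLc (x : ℚ[T;T⁻¹]) (c l : ℚ) : Prop :=
  c ≠ 0 ∧ ∃ (n : ℤ) (a b d : ℚ), Hd x n c a b d ∧ l = Ls a b d

theorem HLc.HL {x : ℚ[T;T⁻¹]} {c l : ℚ} (h : HLc x c l) : HL x l := by
  obtain ⟨hc, n, a, b, d, h, hl⟩ := h
  exact ⟨n, c, a, b, d, hc, h, hl⟩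

theorem toL_X : toLaurent (X : ℚ[X]) = w := by rw [Polynomial.toLaurent_X]; rfl

theorem toL_C (a : ℚ) : toLaurent (Polynomial.C a : ℚ[X]) = K a := Polynomial.toLaurent_C a

theorem T_add (m n : ℤ) : T (m + n) = T m * T n := LaurentPolynomial.T_add m n

theorem T_zero : T 0 = 1 := LaurentPolynomial.T_zero

theorem T_one : T 1 = w := rfl

theorem T_nat (n : ℕ) : T n = w ^ n := by
  induction n with
  | zero => simpa using T_zero
  | succ n ih => rw [Nat.cast_succ, T_add, ih, T_one, pow_succ]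

theorem T_neg_mul (n : ℤ) : T (-n) * T n = 1 := by rw [← T_add, neg_add_cancel, T_zero]

theorem Hd.mul {x y : ℚ[T;T⁻¹]} {n m : ℤ} {c a b d c' a' b' d' : ℚ} (hx : Hd x n c a b d)
    (hy : Hd y m c' a' b' d') :
    Hd (x * y) (n + m) (c * c') (a + a') (b + a * a' + b') (d + b * a' + a * b' + d') := by
  obtain ⟨r, rfl⟩ := hx
  obtain ⟨s, rfl⟩ := hy
  refine ⟨r + s + Polynomial.C a * Polynomial.C d' + Polynomial.C b * Polynomial.C b' +
    Polynomial.C d * Polynomial.C a' + X * (Polynomial.C a * s + Polynomial.C b * Polynomial.C d' +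
    Polynomial.C d * Polynomial.C b' + r * Polynomial.C a') + X ^ 2 * (Polynomial.C b * s +
    Polynomial.C d * Polynomial.C d' + r * Polynomial.C b') + X ^ 3 * (Polynomial.C d * s +
    r * Polynomial.C d') + X ^ 4 * (r * s), ?_⟩
  simp only [map_add, map_mul, map_pow, toL_X, toL_C, T_add]
  ring

theorem HL.mul {x y : ℚ[T;T⁻¹]} {l m : ℚ} (hx : HL x l) (hy : HL y m) : HL (x * y) (l + m) := by
  obtain ⟨n, c, a, b, d, hc, hx, rfl⟩ := hx
  obtain ⟨n', c', a', b', d', hc', hy, rfl⟩ := hy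
  refine ⟨_, _, _, _, _, mul_ne_zero hc hc', hx.mul hy, ?_⟩
  simp only [Ls]; ring

theorem HLc.mul {x y : ℚ[T;T⁻¹]} {c c' l m : ℚ} (hx : HLc x c l) (hy : HLc y c' m) :
    HLc (x * y) (c * c') (l + m) := by
  obtain ⟨hc, n, a, b, d, hx, rfl⟩ := hx
  obtain ⟨hc', n', a', b', d', hy, rfl⟩ := hy
  refine ⟨mul_ne_zero hc hc', _, _, _, _, hx.mul hy, ?_⟩
  simp only [Ls]; ring

/-- a polynomial with its first coefficients -/
theorem split4 (g : ℚ[X]) : ∃ h : ℚ[X], g = Polynomial.C (g.coeff 0) + Polynomial.C (g.coeff 1) * X +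
    Polynomial.C (g.coeff 2) * X ^ 2 + Polynomial.C (g.coeff 3) * X ^ 3 + X ^ 4 * h := by
  have : X ^ 4 ∣ g - (Polynomial.C (g.coeff 0) + Polynomial.C (g.coeff 1) * X +
      Polynomial.C (g.coeff 2) * X ^ 2 + Polynomial.C (g.coeff 3) * X ^ 3) := by
    rw [Polynomial.X_pow_dvd_iff]
    intro d hd
    interval_cases d <;> simp [Polynomial.coeff_X, Polynomial.coeff_C, Polynomial.coeff_X_pow]
  obtain ⟨h, hh⟩ := this
  exact ⟨h, by rw [← hh]; ring⟩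

theorem exists_HL {x : ℚ[T;T⁻¹]} (hx : x ≠ 0) : ∃ l, HL x l := by
  obtain ⟨n, f, hf⟩ := LaurentPolynomial.exists_T_pow x
  have hx' : x = toLaurent f * T (-n) := by
    rw [hf, mul_assoc, mul_comm (LaurentPolynomial.T _)]
    change x = x * (T (-n) * T n)
    rw [T_neg_mul, mul_one]
  have hf0 : f ≠ 0 := by
    rintro rfl
    apply hx; rw [hx']; simp
  obtain ⟨t, g, hg, hg0⟩ : ∃ (t : ℕ) (g : ℚ[X]), f = X ^ t * g ∧ g.coeff 0 ≠ 0 := by
    obtain ⟨g, hg⟩ : X ^ f.natTrailingDegree ∣ f := by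
      rw [Polynomial.X_pow_dvd_iff]
      intro d hd
      exact Polynomial.coeff_eq_zero_of_lt_natTrailingDegree hd
    have h1 : f.coeff f.natTrailingDegree ≠ 0 := by
      rw [← Polynomial.trailingCoeff]; exact Polynomial.trailingCoeff_nonzero_iff_nonzero.2 hf0
    refine ⟨f.natTrailingDegree, g, hg, fun h => h1 ?_⟩
    generalize f.natTrailingDegree = t at hg ⊢
    rw [hg, Polynomial.coeff_X_pow_mul', if_pos le_rfl, Nat.sub_self, h]
  obtain ⟨h, hh⟩ := split4 g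
  have hK : K (g.coeff 0) * K (g.coeff 0)⁻¹ = 1 := by
    rw [← map_mul, mul_inv_cancel₀ hg0, map_one]
  refine ⟨_, (t : ℤ) - n, g.coeff 0, (g.coeff 0)⁻¹ * g.coeff 1,
    (g.coeff 0)⁻¹ * g.coeff 2, (g.coeff 0)⁻¹ * g.coeff 3, hg0,
    ⟨Polynomial.C (g.coeff 0)⁻¹ * h, ?_⟩, rfl⟩
  rw [hx', hg, map_mul, map_pow, toL_X, ← T_nat, sub_eq_add_neg, T_add]
  conv_lhs => rw [hh]
  simp only [map_add, map_mul, map_pow, toL_X, toL_C] at hK ⊢
  linear_combination (-(T t * T (-n) * (K (g.coeff 1) * w + K (g.coeff 2) * w ^ 2 +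
    K (g.coeff 3) * w ^ 3 + w ^ 4 * toLaurent h))) * hK

theorem Hd_toL {g : ℚ[X]} {c a b d : ℚ} (h : ∃ r : ℚ[X], g = Polynomial.C c * (1 + Polynomial.C a * X +
    Polynomial.C b * X ^ 2 + Polynomial.C d * X ^ 3 + X ^ 4 * r)) :
    g.coeff 0 = c ∧ g.coeff 1 = c * a ∧ g.coeff 2 = c * b ∧ g.coeff 3 = c * d := by
  obtain ⟨r, rfl⟩ := h
  refine ⟨?_, ?_, ?_, ?_⟩ <;>
  simp [Polynomial.coeff_X, Polynomial.coeff_C, Polynomial.coeff_X_pow, Polynomial.coeff_one,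
    Polynomial.coeff_X_pow_mul']

theorem Hd_unique_aux {x : ℚ[T;T⁻¹]} {n m : ℤ} {c a b d c' a' b' d' : ℚ} (hc' : c' ≠ 0)
    (hc : c ≠ 0) (hx : Hd x n c a b d) (hy : Hd x m c' a' b' d') (hnm : n ≤ m) :
    n = m ∧ c = c' ∧ a = a' ∧ b = b' ∧ d = d' := by
  obtain ⟨r, hr⟩ := hx
  obtain ⟨s, hs⟩ := hy
  obtain ⟨k, hk⟩ := Int.eq_ofNat_of_zero_le (sub_nonneg.2 hnm)
  have hm : m = n + k := by omega
  set g : ℚ[X] := Polynomial.C c * (1 + Polynomial.C a * X + Polynomial.C b * X ^ 2 +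
    Polynomial.C d * X ^ 3 + X ^ 4 * r) with hg
  set g' : ℚ[X] := Polynomial.C c' * (1 + Polynomial.C a' * X + Polynomial.C b' * X ^ 2 +
    Polynomial.C d' * X ^ 3 + X ^ 4 * s) with hg'
  have e1 : x = T n * toLaurent g := by
    rw [hr, hg]; simp only [map_add, map_mul, map_pow, toL_X, toL_C, map_one]
  have e2 : x = T n * toLaurent (X ^ k * g') := by
    rw [hs, hg', hm, T_add, T_nat]; simp only [map_add, map_mul, map_pow, toL_X, toL_C, map_one]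
    ring
  have e3 : toLaurent g = toLaurent (X ^ k * g') := by
    have := congrArg (fun y => T (-n) * y) (e1.symm.trans e2)
    simp only [← mul_assoc, T_neg_mul, one_mul] at this
    exact this
  have e4 : g = X ^ k * g' := Polynomial.toLaurent_injective e3
  obtain ⟨h0, h1, h2, h3⟩ := Hd_toL (g := g) ⟨r, hg⟩
  obtain ⟨h0', h1', h2', h3'⟩ := Hd_toL (g := g') ⟨s, hg'⟩
  have hk0 : k = 0 := by
    by_contra hk0
    rw [e4, Polynomial.coeff_X_pow_mul', if_neg (by omega)] at h0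
    exact hc h0.symm
  subst hk0
  rw [pow_zero, one_mul] at e4
  rw [e4] at h0 h1 h2 h3
  have hcc : c = c' := by rw [← h0, h0']
  subst hcc
  refine ⟨by omega, rfl, ?_, ?_, ?_⟩
  · exact mul_left_cancel₀ hc (h1.symm.trans h1')
  · exact mul_left_cancel₀ hc (h2.symm.trans h2')
  · exact mul_left_cancel₀ hc (h3.symm.trans h3')

theorem Hd.unique {x : ℚ[T;T⁻¹]} {n m : ℤ} {c a b d c' a' b' d' : ℚ} (hc : c ≠ 0) (hc' : c' ≠ 0)
    (hx : Hd x n c a b d) (hy : Hd x m c' a' b' d') :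
    n = m ∧ c = c' ∧ a = a' ∧ b = b' ∧ d = d' := by
  rcases le_total n m with h | h
  · exact Hd_unique_aux hc' hc hx hy h
  · obtain ⟨h1, h2, h3, h4, h5⟩ := Hd_unique_aux hc hc' hy hx h
    exact ⟨h1.symm, h2.symm, h3.symm, h4.symm, h5.symm⟩

theorem HL.unique {x : ℚ[T;T⁻¹]} {l m : ℚ} (hx : HL x l) (hy : HL x m) : l = m := by
  obtain ⟨n, c, a, b, d, hc, hx, rfl⟩ := hx
  obtain ⟨n', c', a', b', d', hc', hy, rfl⟩ := hy
  obtain ⟨-, -, rfl, rfl, rfl⟩ := hx.unique hc hc' hy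
  rfl

theorem exists_HLc {x : ℚ[T;T⁻¹]} (hx : x ≠ 0) : ∃ c l, HLc x c l := by
  obtain ⟨l, n, c, a, b, d, hc, h, hl⟩ := exists_HL hx
  exact ⟨c, l, hc, n, a, b, d, h, hl⟩

theorem HLc.unique {x : ℚ[T;T⁻¹]} {c c' l m : ℚ} (hx : HLc x c l) (hy : HLc x c' m) :
    c = c' ∧ l = m := by
  obtain ⟨hc, n, a, b, d, hx, rfl⟩ := hx
  obtain ⟨hc', n', a', b', d', hy, rfl⟩ := hy
  obtain ⟨-, rfl, rfl, rfl, rfl⟩ := hx.unique hc hc' hy
  exact ⟨rfl, rfl⟩

theorem HL.ne_zero {x : ℚ[T;T⁻¹]} {l : ℚ} (hx : HL x l) : x ≠ 0 := by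
  rintro rfl
  obtain ⟨n, c, a, b, d, hc, ⟨r, hr⟩, rfl⟩ := hx
  have e1 : T n * toLaurent (Polynomial.C c * (1 + Polynomial.C a * X + Polynomial.C b * X ^ 2 +
    Polynomial.C d * X ^ 3 + X ^ 4 * r)) = 0 := by
    rw [hr]; simp only [map_add, map_mul, map_pow, toL_X, toL_C, map_one]
  have e2 := congrArg (fun y => T (-n) * y) e1
  simp only [← mul_assoc, T_neg_mul, one_mul, mul_zero] at e2
  have e3 := Polynomial.toLaurent_eq_zero.1 e2
  have h0 := (Hd_toL ⟨r, rfl⟩ : (Polynomial.C c * (1 + Polynomial.C a * X + Polynomial.C b * X ^ 2 +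
    Polynomial.C d * X ^ 3 + X ^ 4 * r)).coeff 0 = c ∧ _).1
  rw [e3] at h0
  exact hc (by simpa using h0.symm)

/-- cancellation -/
theorem HL.of_mul {x y : ℚ[T;T⁻¹]} {l m : ℚ} (hxy : HL (x * y) l) (hy : HL y m) :
    HL x (l - m) := by
  have hx : x ≠ 0 := by
    rintro rfl
    exact hxy.ne_zero (zero_mul y)
  obtain ⟨k, hk⟩ := exists_HL hx
  have := (hk.mul hy).unique hxy
  rwa [show l - m = k by linarith]

end Pool.Agent.FB.W8.T2X
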