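import Pool.Agent.FB.W8.HL

/-!
# FB/W8: the `2 × 2` side, every 3-braid

`S(e₁, …, e_k) = tr ∏ P(e_i)`, `P(e) = [[1, Φ], [-w ^ (e - 1), -w ^ e]]`, `Φ = 1 - w + w ^ 2`. Then `S = 0` or `L(S) ≤ 0`.
-/

set_option autoImplicit false

open scoped LaurentPolynomial Polynomial
open Polynomial (toLaurent X)

namespace Pool.Agent.FB.W8.T2X

noncomputable def Phi : ℚ[T;T⁻¹] := 1 - w + w ^ 2

/-- the matrix of a syllable -/
noncomputable def P (e : ℤ) : Matrix (Fin 2) (Fin 2) ℚ[T;T⁻¹] := !![1, Phi; -T (e - 1), -T e]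

theorem Hd_Phi : Hd Phi 0 1 (-1) 1 0 :=
  ⟨0, by simp only [Phi, T_zero, map_one, map_neg, map_zero]; ring⟩

theorem Hd.congr {x : ℚ[T;T⁻¹]} {n m : ℤ} {c a b d c' a' b' d' : ℚ} (h : Hd x n c a b d)
    (hn : n = m) (hc : c = c') (ha : a = a') (hb : b = b') (hd : d = d') : Hd x m c' a' b' d' := by
  subst hn hc ha hb hd; exact h

theorem Hd.T_mul {x : ℚ[T;T⁻¹]} {n : ℤ} {c a b d : ℚ} (h : Hd x n c a b d) (k : ℤ) :
    Hd (T k * x) (k + n) c a b d := by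
  obtain ⟨r, rfl⟩ := h
  exact ⟨r, by rw [T_add]; ring⟩

theorem Hd.neg {x : ℚ[T;T⁻¹]} {n : ℤ} {c a b d : ℚ} (h : Hd x n c a b d) :
    Hd (-x) n (-c) a b d := by
  obtain ⟨r, rfl⟩ := h
  exact ⟨r, by rw [map_neg]; ring⟩

theorem Hd.Phi_mul {x : ℚ[T;T⁻¹]} {n : ℤ} {c a b d : ℚ} (h : Hd x n c a b d) :
    Hd (Phi * x) n c (a - 1) (b - a + 1) (d - b + a) :=
  (Hd_Phi.mul h).congr (by ring) (by ring) (by ring) (by ring) (by ring)

theorem Hd.sub1 {x y : ℚ[T;T⁻¹]} {n m : ℤ} {c a b d a' b' d' : ℚ} (hx : Hd x n c a b d)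
    (hy : Hd y m c a' b' d') (h : m = n + 1) :
    Hd (x - y) n c (a - 1) (b - a') (d - b') := by
  obtain ⟨r, rfl⟩ := hx
  obtain ⟨s, rfl⟩ := hy
  refine ⟨r - Polynomial.C d' - X * s, ?_⟩
  rw [h, T_add, T_one]
  simp only [map_sub, map_mul, toL_X, toL_C, map_one]
  ring

theorem Hd.sub2 {x y : ℚ[T;T⁻¹]} {n m : ℤ} {c a b d a' b' d' : ℚ} (hx : Hd x n c a b d)
    (hy : Hd y m c a' b' d') (h : m = n + 2) :
    Hd (x - y) n c a (b - 1) (d - a') := by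
  obtain ⟨r, rfl⟩ := hx
  obtain ⟨s, rfl⟩ := hy
  refine ⟨r - Polynomial.C b' - X * Polynomial.C d' - X ^ 2 * s, ?_⟩
  rw [h, T_add, show (2 : ℤ) = (2 : ℕ) from rfl, T_nat]
  simp only [map_sub, map_mul, map_pow, toL_X, toL_C, map_one]
  ring

theorem Hd.sub3 {x y : ℚ[T;T⁻¹]} {n m : ℤ} {c a b d a' b' d' : ℚ} (hx : Hd x n c a b d)
    (hy : Hd y m c a' b' d') (h : m = n + 3) :
    Hd (x - y) n c a b (d - 1) := by
  obtain ⟨r, rfl⟩ := hx
  obtain ⟨s, rfl⟩ := hy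
  refine ⟨r - Polynomial.C a' - X * Polynomial.C b' - X ^ 2 * Polynomial.C d' - X ^ 3 * s, ?_⟩
  rw [h, T_add, show (3 : ℤ) = (3 : ℕ) from rfl, T_nat]
  simp only [map_sub, map_mul, map_pow, toL_X, toL_C, map_one]
  ring

theorem Hd.sub4 {x y : ℚ[T;T⁻¹]} {n m : ℤ} {c a b d c' a' b' d' : ℚ} (hc : c ≠ 0)
    (hx : Hd x n c a b d) (hy : Hd y m c' a' b' d') (h : n + 4 ≤ m) :
    Hd (x - y) n c a b d := by
  obtain ⟨r, rfl⟩ := hx
  obtain ⟨s, rfl⟩ := hy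
  obtain ⟨k, hk⟩ := Int.eq_ofNat_of_zero_le (sub_nonneg.2 h)
  have hK : K c * K c⁻¹ = 1 := by rw [← map_mul, mul_inv_cancel₀ hc, map_one]
  refine ⟨r - X ^ k * Polynomial.C c⁻¹ * Polynomial.C c' * (1 + Polynomial.C a' * X +
    Polynomial.C b' * X ^ 2 + Polynomial.C d' * X ^ 3 + X ^ 4 * s), ?_⟩
  rw [show m = n + 4 + k by omega, T_add, T_nat, T_add, show (4 : ℤ) = (4 : ℕ) from rfl, T_nat]
  simp only [map_sub, map_add, map_mul, map_pow, toL_X, toL_C, map_one]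
  linear_combination (T n * w ^ 4 * w ^ k * K c' * (1 + K a' * w + K b' * w ^ 2 + K d' * w ^ 3 +
    w ^ 4 * toLaurent s)) * hK

/-- the states of the pair `(α, Y)` -/
def St (B : ℚ) (n : ℤ) (al Y : ℚ[T;T⁻¹]) : Prop :=
  ∃ c a b d a' b' d' : ℚ, |c| = 1 ∧ Hd al n c a b d ∧ Ls a b d ≤ B ∧ Ls a' b' d' ≤ B ∧
    ((Hd Y (n + 1) c a' b' d' ∧ ((a' = a ∧ b' = b) ∨ (a' = a ∧ b' = b - 1) ∨
      (a' = a - 1 ∧ b' = b - a + 1) ∨ (a' = a - 1 ∧ b' = b - a + 2))) ∨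
    (Hd Y n c a' b' d' ∧ ((a' = a ∧ b' = b) ∨ (a' = a ∧ b' = b - 1) ∨
      (a' = a - 1 ∧ b' = b - a + 1) ∨ (a' = a - 1 ∧ b' = b - a + 2))))

/-- **One syllable** -/
theorem St.step {B : ℚ} {n : ℤ} {al Y : ℚ[T;T⁻¹]} (h : St B n al Y) {e : ℤ} (he : 2 ≤ |e|) :
    ∃ m : ℤ, m ≤ n + min e 0 ∧
      St (B - if |e| = 2 then 3 else 0) m (al - T (e - 1) * Y) (Phi * al - T e * Y) := by
  obtain ⟨c, a, b, d, a', b', d', hc, hal, hB, hB', hY⟩ := h
  have hc0 : c ≠ 0 := by rintro rfl; simp at hc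
  rcases le_abs.1 he with he' | he'
  · -- positive
    have hmin : min e 0 = 0 := min_eq_right (by omega)
    have habs : |e| = e := abs_of_nonneg (by omega)
    refine ⟨n, by rw [hmin]; omega, ?_⟩
    rw [habs]
    rcases hY with ⟨hY, hs⟩ | ⟨hY, hs⟩
    · -- first kind
      rcases eq_or_lt_of_le he' with h2 | h2
      · subst h2
        have h1 := hal.sub2 (hY.T_mul (2 - 1)) (by ring)
        have h3 := hal.Phi_mul.sub3 (hY.T_mul 2) (by ring)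
        rw [if_pos rfl]
        refine ⟨c, _, _, _, _, _, _, hc, h1, ?_, ?_, Or.inr ⟨h3, ?_⟩⟩
        · rcases hs with ⟨rfl, rfl⟩ | ⟨rfl, rfl⟩ | ⟨rfl, rfl⟩ | ⟨rfl, rfl⟩ <;>
            simp only [Ls] at hB hB' ⊢ <;> linarith
        · rcases hs with ⟨rfl, rfl⟩ | ⟨rfl, rfl⟩ | ⟨rfl, rfl⟩ | ⟨rfl, rfl⟩ <;>
            simp only [Ls] at hB hB' ⊢ <;> linarith
        · right; right; right; constructor <;> ring
      rw [if_neg (by omega), sub_zero]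
      rcases eq_or_lt_of_le (show 3 ≤ e by omega) with h2 | h2
      · subst h2
        have h1 := hal.sub3 (hY.T_mul (3 - 1)) (by ring)
        have h3 := hal.Phi_mul.sub4 hc0 (hY.T_mul 3) (by omega)
        refine ⟨c, _, _, _, _, _, _, hc, h1, ?_, ?_, Or.inr ⟨h3, ?_⟩⟩
        · rcases hs with ⟨rfl, rfl⟩ | ⟨rfl, rfl⟩ | ⟨rfl, rfl⟩ | ⟨rfl, rfl⟩ <;>
            simp only [Ls] at hB hB' ⊢ <;> linarith
        · rcases hs with ⟨rfl, rfl⟩ | ⟨rfl, rfl⟩ | ⟨rfl, rfl⟩ | ⟨rfl, rfl⟩ <;>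
            simp only [Ls] at hB hB' ⊢ <;> linarith
        · right; right; left; constructor <;> ring
      · have h1 := hal.sub4 hc0 (hY.T_mul (e - 1)) (by omega)
        have h3 := hal.Phi_mul.sub4 hc0 (hY.T_mul e) (by omega)
        refine ⟨c, _, _, _, _, _, _, hc, h1, ?_, ?_, Or.inr ⟨h3, ?_⟩⟩
        · rcases hs with ⟨rfl, rfl⟩ | ⟨rfl, rfl⟩ | ⟨rfl, rfl⟩ | ⟨rfl, rfl⟩ <;>
            simp only [Ls] at hB hB' ⊢ <;> linarith
        · rcases hs with ⟨rfl, rfl⟩ | ⟨rfl, rfl⟩ | ⟨rfl, rfl⟩ | ⟨rfl, rfl⟩ <;>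
            simp only [Ls] at hB hB' ⊢ <;> linarith
        · right; right; left; constructor <;> ring
    · -- second kind
      rcases eq_or_lt_of_le he' with h2 | h2
      · subst h2
        have h1 := hal.sub1 (hY.T_mul (2 - 1)) (by ring)
        have h3 := hal.Phi_mul.sub2 (hY.T_mul 2) (by ring)
        rw [if_pos rfl]
        refine ⟨c, _, _, _, _, _, _, hc, h1, ?_, ?_, Or.inr ⟨h3, ?_⟩⟩
        · rcases hs with ⟨rfl, rfl⟩ | ⟨rfl, rfl⟩ | ⟨rfl, rfl⟩ | ⟨rfl, rfl⟩ <;>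
            simp only [Ls] at hB hB' ⊢ <;> linarith
        · rcases hs with ⟨rfl, rfl⟩ | ⟨rfl, rfl⟩ | ⟨rfl, rfl⟩ | ⟨rfl, rfl⟩ <;>
            simp only [Ls] at hB hB' ⊢ <;> linarith
        · rcases hs with ⟨rfl, rfl⟩ | ⟨rfl, rfl⟩ | ⟨rfl, rfl⟩ | ⟨rfl, rfl⟩
          · left; constructor <;> ring
          · left; constructor <;> ring
          · right; left; constructor <;> ring
          · right; left; constructor <;> ring
      rw [if_neg (by omega), sub_zero]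
      rcases eq_or_lt_of_le (show 3 ≤ e by omega) with h2 | h2
      · subst h2
        have h1 := hal.sub2 (hY.T_mul (3 - 1)) (by ring)
        have h3 := hal.Phi_mul.sub3 (hY.T_mul 3) (by ring)
        refine ⟨c, _, _, _, _, _, _, hc, h1, ?_, ?_, Or.inr ⟨h3, ?_⟩⟩
        · rcases hs with ⟨rfl, rfl⟩ | ⟨rfl, rfl⟩ | ⟨rfl, rfl⟩ | ⟨rfl, rfl⟩ <;>
            simp only [Ls] at hB hB' ⊢ <;> linarith
        · rcases hs with ⟨rfl, rfl⟩ | ⟨rfl, rfl⟩ | ⟨rfl, rfl⟩ | ⟨rfl, rfl⟩ <;>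
            simp only [Ls] at hB hB' ⊢ <;> linarith
        · right; right; right; constructor <;> ring
      rcases eq_or_lt_of_le (show 4 ≤ e by omega) with h4 | h4
      · subst h4
        have h1 := hal.sub3 (hY.T_mul (4 - 1)) (by ring)
        have h3 := hal.Phi_mul.sub4 hc0 (hY.T_mul 4) (by omega)
        refine ⟨c, _, _, _, _, _, _, hc, h1, ?_, ?_, Or.inr ⟨h3, ?_⟩⟩
        · rcases hs with ⟨rfl, rfl⟩ | ⟨rfl, rfl⟩ | ⟨rfl, rfl⟩ | ⟨rfl, rfl⟩ <;>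
            simp only [Ls] at hB hB' ⊢ <;> linarith
        · rcases hs with ⟨rfl, rfl⟩ | ⟨rfl, rfl⟩ | ⟨rfl, rfl⟩ | ⟨rfl, rfl⟩ <;>
            simp only [Ls] at hB hB' ⊢ <;> linarith
        · right; right; left; constructor <;> ring
      · have h1 := hal.sub4 hc0 (hY.T_mul (e - 1)) (by omega)
        have h3 := hal.Phi_mul.sub4 hc0 (hY.T_mul e) (by omega)
        refine ⟨c, _, _, _, _, _, _, hc, h1, ?_, ?_, Or.inr ⟨h3, ?_⟩⟩
        · rcases hs with ⟨rfl, rfl⟩ | ⟨rfl, rfl⟩ | ⟨rfl, rfl⟩ | ⟨rfl, rfl⟩ <;>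
            simp only [Ls] at hB hB' ⊢ <;> linarith
        · rcases hs with ⟨rfl, rfl⟩ | ⟨rfl, rfl⟩ | ⟨rfl, rfl⟩ | ⟨rfl, rfl⟩ <;>
            simp only [Ls] at hB hB' ⊢ <;> linarith
        · right; right; left; constructor <;> ring
  · -- negative
    obtain ⟨m, rfl⟩ : ∃ m, e = -m := ⟨-e, by ring⟩
    have hm : 2 ≤ m := by omega
    have hmin : min (-m) 0 = -m := min_eq_left (by omega)
    have habs : |(-m)| = m := by rw [abs_neg, abs_of_nonneg (by omega)]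
    rw [hmin, habs]
    have hc' : |(-c)| = 1 := by rw [abs_neg, hc]
    have e1 : al - T (-m - 1) * Y = -(T (-m - 1) * (Y - T (m + 1) * al)) := by
      have : T (-m - 1) * T (m + 1) = 1 := by
        rw [← T_add, show -m - 1 + (m + 1) = 0 by ring, T_zero]
      linear_combination (-al) * this
    have e2 : Phi * al - T (-m) * Y = -(T (-m) * (Y - T m * (Phi * al))) := by
      have : T (-m) * T m = 1 := T_neg_mul m
      linear_combination (-(Phi * al)) * this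
    rw [e1, e2]
    rcases hY with ⟨hY, hs⟩ | ⟨hY, hs⟩
    · -- first kind
      refine ⟨n - m, by omega, ?_⟩
      rcases eq_or_lt_of_le hm with h2 | h2
      · subst h2
        have h1 := ((hY.sub2 (hal.T_mul (2 + 1)) (by ring)).T_mul (-2 - 1)).neg
        have h3 := ((hY.sub1 (hal.Phi_mul.T_mul 2) (by ring)).T_mul (-2)).neg
        rw [if_pos rfl]
        refine ⟨-c, _, _, _, _, _, _, hc', h1.congr (by ring) rfl rfl rfl rfl, ?_, ?_,
          Or.inl ⟨h3.congr (by ring) rfl rfl rfl rfl, ?_⟩⟩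
        · rcases hs with ⟨rfl, rfl⟩ | ⟨rfl, rfl⟩ | ⟨rfl, rfl⟩ | ⟨rfl, rfl⟩ <;>
            simp only [Ls] at hB hB' ⊢ <;> linarith
        · rcases hs with ⟨rfl, rfl⟩ | ⟨rfl, rfl⟩ | ⟨rfl, rfl⟩ | ⟨rfl, rfl⟩ <;>
            simp only [Ls] at hB hB' ⊢ <;> linarith
        · rcases hs with ⟨rfl, rfl⟩ | ⟨rfl, rfl⟩ | ⟨rfl, rfl⟩ | ⟨rfl, rfl⟩
          · right; right; right; constructor <;> ring
          · right; right; right; constructor <;> ring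
          · right; right; left; constructor <;> ring
          · right; right; left; constructor <;> ring
      rw [if_neg (by omega), sub_zero]
      rcases eq_or_lt_of_le (show 3 ≤ m by omega) with h2 | h2
      · subst h2
        have h1 := ((hY.sub3 (hal.T_mul (3 + 1)) (by ring)).T_mul (-3 - 1)).neg
        have h3 := ((hY.sub2 (hal.Phi_mul.T_mul 3) (by ring)).T_mul (-3)).neg
        refine ⟨-c, _, _, _, _, _, _, hc', h1.congr (by ring) rfl rfl rfl rfl, ?_, ?_,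
          Or.inl ⟨h3.congr (by ring) rfl rfl rfl rfl, ?_⟩⟩
        · rcases hs with ⟨rfl, rfl⟩ | ⟨rfl, rfl⟩ | ⟨rfl, rfl⟩ | ⟨rfl, rfl⟩ <;>
            simp only [Ls] at hB hB' ⊢ <;> linarith
        · rcases hs with ⟨rfl, rfl⟩ | ⟨rfl, rfl⟩ | ⟨rfl, rfl⟩ | ⟨rfl, rfl⟩ <;>
            simp only [Ls] at hB hB' ⊢ <;> linarith
        · right; left; constructor <;> ring
      rcases eq_or_lt_of_le (show 4 ≤ m by omega) with h4 | h4
      · subst h4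
        have h1 := ((hY.sub4 hc0 (hal.T_mul (4 + 1)) (by omega)).T_mul (-4 - 1)).neg
        have h3 := ((hY.sub3 (hal.Phi_mul.T_mul 4) (by ring)).T_mul (-4)).neg
        refine ⟨-c, _, _, _, _, _, _, hc', h1.congr (by ring) rfl rfl rfl rfl, ?_, ?_,
          Or.inl ⟨h3.congr (by ring) rfl rfl rfl rfl, ?_⟩⟩
        · rcases hs with ⟨rfl, rfl⟩ | ⟨rfl, rfl⟩ | ⟨rfl, rfl⟩ | ⟨rfl, rfl⟩ <;>
            simp only [Ls] at hB hB' ⊢ <;> linarith
        · rcases hs with ⟨rfl, rfl⟩ | ⟨rfl, rfl⟩ | ⟨rfl, rfl⟩ | ⟨rfl, rfl⟩ <;>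
            simp only [Ls] at hB hB' ⊢ <;> linarith
        · left; constructor <;> ring
      · have h1 := ((hY.sub4 hc0 (hal.T_mul (m + 1)) (by omega)).T_mul (-m - 1)).neg
        have h3 := ((hY.sub4 hc0 (hal.Phi_mul.T_mul m) (by omega)).T_mul (-m)).neg
        refine ⟨-c, _, _, _, _, _, _, hc', h1.congr (by ring) rfl rfl rfl rfl, ?_, ?_,
          Or.inl ⟨h3.congr (by ring) rfl rfl rfl rfl, ?_⟩⟩
        · rcases hs with ⟨rfl, rfl⟩ | ⟨rfl, rfl⟩ | ⟨rfl, rfl⟩ | ⟨rfl, rfl⟩ <;>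
            simp only [Ls] at hB hB' ⊢ <;> linarith
        · rcases hs with ⟨rfl, rfl⟩ | ⟨rfl, rfl⟩ | ⟨rfl, rfl⟩ | ⟨rfl, rfl⟩ <;>
            simp only [Ls] at hB hB' ⊢ <;> linarith
        · left; constructor <;> ring
    · -- second kind
      refine ⟨n - m - 1, by omega, ?_⟩
      rcases eq_or_lt_of_le hm with h2 | h2
      · subst h2
        have h1 := ((hY.sub3 (hal.T_mul (2 + 1)) (by ring)).T_mul (-2 - 1)).neg
        have h3 := ((hY.sub2 (hal.Phi_mul.T_mul 2) (by ring)).T_mul (-2)).neg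
        rw [if_pos rfl]
        refine ⟨-c, _, _, _, _, _, _, hc', h1.congr (by ring) rfl rfl rfl rfl, ?_, ?_,
          Or.inl ⟨h3.congr (by ring) rfl rfl rfl rfl, ?_⟩⟩
        · rcases hs with ⟨rfl, rfl⟩ | ⟨rfl, rfl⟩ | ⟨rfl, rfl⟩ | ⟨rfl, rfl⟩ <;>
            simp only [Ls] at hB hB' ⊢ <;> linarith
        · rcases hs with ⟨rfl, rfl⟩ | ⟨rfl, rfl⟩ | ⟨rfl, rfl⟩ | ⟨rfl, rfl⟩ <;>
            simp only [Ls] at hB hB' ⊢ <;> linarith
        · right; left; constructor <;> ring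
      rw [if_neg (by omega), sub_zero]
      rcases eq_or_lt_of_le (show 3 ≤ m by omega) with h2 | h2
      · subst h2
        have h1 := ((hY.sub4 hc0 (hal.T_mul (3 + 1)) (by omega)).T_mul (-3 - 1)).neg
        have h3 := ((hY.sub3 (hal.Phi_mul.T_mul 3) (by ring)).T_mul (-3)).neg
        refine ⟨-c, _, _, _, _, _, _, hc', h1.congr (by ring) rfl rfl rfl rfl, ?_, ?_,
          Or.inl ⟨h3.congr (by ring) rfl rfl rfl rfl, ?_⟩⟩
        · rcases hs with ⟨rfl, rfl⟩ | ⟨rfl, rfl⟩ | ⟨rfl, rfl⟩ | ⟨rfl, rfl⟩ <;>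
            simp only [Ls] at hB hB' ⊢ <;> linarith
        · rcases hs with ⟨rfl, rfl⟩ | ⟨rfl, rfl⟩ | ⟨rfl, rfl⟩ | ⟨rfl, rfl⟩ <;>
            simp only [Ls] at hB hB' ⊢ <;> linarith
        · left; constructor <;> ring
      · have h1 := ((hY.sub4 hc0 (hal.T_mul (m + 1)) (by omega)).T_mul (-m - 1)).neg
        have h3 := ((hY.sub4 hc0 (hal.Phi_mul.T_mul m) (by omega)).T_mul (-m)).neg
        refine ⟨-c, _, _, _, _, _, _, hc', h1.congr (by ring) rfl rfl rfl rfl, ?_, ?_,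
          Or.inl ⟨h3.congr (by ring) rfl rfl rfl rfl, ?_⟩⟩
        · rcases hs with ⟨rfl, rfl⟩ | ⟨rfl, rfl⟩ | ⟨rfl, rfl⟩ | ⟨rfl, rfl⟩ <;>
            simp only [Ls] at hB hB' ⊢ <;> linarith
        · rcases hs with ⟨rfl, rfl⟩ | ⟨rfl, rfl⟩ | ⟨rfl, rfl⟩ | ⟨rfl, rfl⟩ <;>
            simp only [Ls] at hB hB' ⊢ <;> linarith
        · left; constructor <;> ring

end Pool.Agent.FB.W8.T2X
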