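import Pool.Agent.FB.W8.T2G

/-!
# FB/W8: the `2 × 2` side, words without syllables of length at most one
-/

set_option autoImplicit false

open scoped LaurentPolynomial Polynomial
open Polynomial (toLaurent X)
open Matrix

namespace Pool.Agent.FB.W8.T2X

/-- the trace of a word -/
noncomputable def S (es : List ℤ) : ℚ[T;T⁻¹] := (es.map P).prod.trace

/-- the sum of the lengths minus one -/
def wt (es : List ℤ) : ℤ := (es.map fun e => |e| - 1).sum

theorem St.start : St 0 0 1 w := by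
  refine ⟨1, 0, 0, 0, 0, 0, 0, abs_one, ⟨0, ?_⟩, by simp [Ls], by simp [Ls],
    Or.inl ⟨⟨0, ?_⟩, Or.inl ⟨rfl, rfl⟩⟩⟩
  · simp [T_zero]
  · rw [zero_add, T_one]; simp

theorem vecMul_P (v : Fin 2 → ℚ[T;T⁻¹]) (e : ℤ) :
    v ᵥ* P e = ![v 0 - T (e - 1) * v 1, Phi * v 0 - T e * v 1] := by
  funext i
  fin_cases i
  · simp [P, Matrix.vecMul, dotProduct, Fin.sum_univ_two]; ring
  · simp [P, Matrix.vecMul, dotProduct, Fin.sum_univ_two]; ring

theorem St.mono {B B' : ℚ} {n : ℤ} {al Y : ℚ[T;T⁻¹]} (h : St B n al Y) (hB : B ≤ B') :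
    St B' n al Y := by
  obtain ⟨c, a, b, d, a', b', d', hc, hal, h1, h2, hY⟩ := h
  exact ⟨c, a, b, d, a', b', d', hc, hal, h1.trans hB, h2.trans hB, hY⟩

theorem St.list (es : List ℤ) : ∀ {B : ℚ} {n : ℤ} {v : Fin 2 → ℚ[T;T⁻¹]}, St B n (v 0) (v 1) →
    (∀ e ∈ es, 2 ≤ |e|) → ∃ m : ℤ, m ≤ n + (es.map fun e => min e 0).sum ∧
      St B m ((v ᵥ* (es.map P).prod) 0) ((v ᵥ* (es.map P).prod) 1) := by
  induction es with
  | nil => intro B n v h _; exact ⟨n, by simp, by simpa using h⟩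
  | cons e es ih =>
    intro B n v h he
    obtain ⟨m, hm, h1⟩ := h.step (he e (by simp))
    have h1' : St B m ((v ᵥ* P e) 0) ((v ᵥ* P e) 1) := by
      rw [vecMul_P]
      refine St.mono h1 ?_
      split_ifs <;> linarith
    obtain ⟨k, hk, h2⟩ := ih h1' fun x hx => he x (by simp [hx])
    refine ⟨k, ?_, ?_⟩
    · simp only [List.map_cons, List.sum_cons]; omega
    · simpa only [List.map_cons, List.prod_cons, ← Matrix.vecMul_vecMul] using h2

theorem det_P (e : ℤ) : Hd (P e).det (e - 1) 1 (-2) 1 0 := by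
  refine ⟨0, ?_⟩
  have h : T e = T (e - 1) * w := by rw [← T_one, ← T_add]; congr 1; ring
  simp only [P, Matrix.det_fin_two_of, Phi, h, map_one, map_neg, map_zero, map_ofNat]
  ring

theorem det_list (es : List ℤ) :
    ∃ a b d : ℚ, Hd (es.map P).prod.det (es.map fun e => e - 1).sum 1 a b d := by
  induction es with
  | nil => exact ⟨0, 0, 0, 0, by simp [T_zero]⟩
  | cons e es ih =>
    obtain ⟨a, b, d, h⟩ := ih
    rw [List.map_cons, List.prod_cons, Matrix.det_mul, List.map_cons, List.sum_cons]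
    exact ⟨_, _, _, ((det_P e).mul h).congr rfl (by ring) rfl rfl rfl⟩

theorem cayley (M : Matrix (Fin 2) (Fin 2) ℚ[T;T⁻¹]) (v : Fin 2 → ℚ[T;T⁻¹]) :
    (v ᵥ* M ᵥ* M) 0 = M.trace * (v ᵥ* M) 0 - M.det * v 0 := by
  simp [Matrix.vecMul, dotProduct, Fin.sum_univ_two, Matrix.trace_fin_two, Matrix.det_fin_two]
  ring

theorem sum_aux (es : List ℤ) : (es.map fun e => e - 1).sum - 2 * (es.map fun e => min e 0).sum =
    wt es := by
  induction es with
  | nil => simp [wt]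
  | cons e es ih =>
    simp only [wt, List.map_cons, List.sum_cons] at ih ⊢
    rcases le_total 0 e with h | h
    · rw [min_eq_right h, abs_of_nonneg h]; linarith
    · rw [min_eq_left h, abs_of_nonpos h]; linarith

/-- the relation between three consecutive powers -/
theorem key {es : List ℤ} (h2 : ∀ e ∈ es, 2 ≤ |e|) (h4 : 4 ≤ wt es) {B : ℚ} {n : ℤ}
    {v : Fin 2 → ℚ[T;T⁻¹]} (h : St B n (v 0) (v 1)) :
    ∃ c l' : ℚ, |c| = 1 ∧ l' ≤ B ∧
      HLc ((v ᵥ* (es.map P).prod ᵥ* (es.map P).prod) 0) c l' ∧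
      HLc (S es * (v ᵥ* (es.map P).prod) 0) c l' := by
  obtain ⟨m, hm, h1⟩ := h.list es h2
  obtain ⟨k, hk, h3⟩ := h1.list es h2
  obtain ⟨a, b, d, hdet⟩ := det_list es
  obtain ⟨c, x1, x2, x3, -, -, -, hc, hv, -, -, -⟩ := h
  obtain ⟨c', y1, y2, y3, -, -, -, hc', hv', hB, -, -⟩ := h3
  have hc0 : c' ≠ 0 := by rintro rfl; simp at hc'
  have hs := sum_aux es
  have hx := (hdet.mul hv).neg
  have hz := hv'.sub4 hc0 hx (by omega)
  refine ⟨c', _, hc', hB, ⟨hc0, k, _, _, _, hv', rfl⟩, ⟨hc0, k, y1, y2, y3, ?_, rfl⟩⟩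
  have e1 := cayley (es.map P).prod v
  rw [S]
  convert hz using 1
  rw [e1]; ring

theorem S_long {es : List ℤ} (h2 : ∀ e ∈ es, 2 ≤ |e|) (h4 : 4 ≤ wt es) :
    ∃ c l : ℚ, |c| = 1 ∧ l ≤ 0 ∧ HLc (S es) c l := by
  set M := (es.map P).prod with hM
  -- the states
  let v : ℕ → (Fin 2 → ℚ[T;T⁻¹]) := fun j => (![1, w] : Fin 2 → ℚ[T;T⁻¹]) ᵥ* M ^ j
  have hst : ∀ j, ∃ n : ℤ, St 0 n (v j 0) (v j 1) := by
    intro j
    induction j with
    | zero => exact ⟨0, by simpa [v] using St.start⟩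
    | succ j ih =>
      obtain ⟨n, hn⟩ := ih
      obtain ⟨m, -, h⟩ := hn.list es h2
      refine ⟨m, ?_⟩
      simpa only [v, pow_succ, ← Matrix.vecMul_vecMul] using h
  have hv : ∀ j, v (j + 1) = v j ᵥ* M := fun j => by
    simp only [v, pow_succ, ← Matrix.vecMul_vecMul]
  have hl : ∀ j, ∃ c l : ℚ, |c| = 1 ∧ l ≤ 0 ∧ HLc (v j 0) c l := by
    intro j
    obtain ⟨n, c, a, b, d, -, -, -, hc, h, hB, -, -⟩ := hst j
    exact ⟨c, _, hc, hB, by rintro rfl; simp at hc, n, a, b, d, h, rfl⟩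
  choose c l hc hl0 hl using hl
  have hS : S es ≠ 0 := by
    intro h0
    obtain ⟨n, hn⟩ := hst 0
    obtain ⟨c', l', -, -, -, h⟩ := key h2 h4 hn
    rw [h0, zero_mul] at h
    exact h.HL.ne_zero rfl
  obtain ⟨s, t, ht⟩ := exists_HLc hS
  have hrec : ∀ j, c (j + 2) = s * c (j + 1) ∧ l (j + 2) = t + l (j + 1) := by
    intro j
    obtain ⟨n, hn⟩ := hst j
    obtain ⟨c', l', -, -, h1, h⟩ := key h2 h4 hn
    rw [← hM, ← hv, ← hv] at h1
    rw [← hM, ← hv] at h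
    obtain ⟨e1, e2⟩ := (hl (j + 2)).unique h1
    obtain ⟨e3, e4⟩ := (ht.mul (hl (j + 1))).unique h
    exact ⟨by rw [e1, e3], by rw [e2, e4]⟩
  have hlin : ∀ j : ℕ, l (j + 1) = l 1 + j * t := by
    intro j
    induction j with
    | zero => simp
    | succ j ih => rw [(hrec j).2, ih]; push_cast; ring
  refine ⟨s, t, ?_, ?_, ht⟩
  · have h := congrArg abs (hrec 0).1
    rw [abs_mul, hc, hc, mul_one] at h
    exact h.symm
  by_contra hpos
  push Not at hpos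
  obtain ⟨j, hj⟩ := exists_nat_gt (-(l 1) / t)
  rw [div_lt_iff₀ hpos] at hj
  have := hl0 (j + 1)
  rw [hlin] at this
  linarith

end Pool.Agent.FB.W8.T2X
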