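import Pool.Agent.FB.W8.T2H

/-!
# FB/W8: the `2 × 2` side, small words
-/

set_option autoImplicit false
set_option linter.unusedSimpArgs false

open scoped LaurentPolynomial Polynomial
open Polynomial (toLaurent X)
open Matrix

namespace Pool.Agent.FB.W8.T2X

theorem T_e (e : ℤ) : T e = w * T (e - 1) := by
  rw [← T_one, ← T_add]; congr 1; ring

theorem S_two (e f : ℤ) : S [e, f] = 1 - Phi * (T (e - 1) + T (f - 1)) +
    w ^ 2 * (T (e - 1) * T (f - 1)) := by
  simp only [S, List.map_cons, List.map_nil, List.prod_cons, List.prod_nil, mul_one, P,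
    Matrix.mul_fin_two, Matrix.trace_fin_two_of, T_e e, T_e f]
  ring

theorem S_three (e f g : ℤ) : S [e, f, g] = 1 - Phi * (T (e - 1) + T (f - 1) + T (g - 1)) +
    w * Phi * (T (e - 1) * T (f - 1) + T (f - 1) * T (g - 1) + T (g - 1) * T (e - 1)) -
    w ^ 3 * (T (e - 1) * T (f - 1) * T (g - 1)) := by
  simp only [S, List.map_cons, List.map_nil, List.prod_cons, List.prod_nil, mul_one, P,
    Matrix.mul_fin_two, Matrix.trace_fin_two_of, T_e e, T_e f, T_e g]
  ring

theorem S_one (e : ℤ) : S [e] = 1 - T e := by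
  simp only [S, List.map_cons, List.map_nil, List.prod_cons, List.prod_nil, mul_one, P,
    Matrix.trace_fin_two_of]
  ring

theorem S_nil : S [] = 2 := by simp [S]

/-- the conclusion for one word -/
def Good (es : List ℤ) : Prop :=
  S es = 0 ∨ ∃ c l : ℚ, l ≤ 0 ∧ HLc (S es) c l ∧ (|c| = 1 ∨ S es ^ 2 = 4 * (es.map P).prod.det)

theorem HLc.of_Hd {x : ℚ[T;T⁻¹]} {n : ℤ} {c a b d : ℚ} (h : Hd x n c a b d) (hc : c ≠ 0) :
    HLc x c (Ls a b d) := ⟨hc, n, a, b, d, h, rfl⟩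

theorem good_one (e : ℤ) : Good [e] := by
  rw [Good, S_one]
  -- positive exponents
  have pos : ∀ k : ℕ, 0 < k → ∃ l ≤ 0, HLc (1 - w ^ k) 1 l := by
    intro k hk
    have h1 : Hd (1 : ℚ[T;T⁻¹]) 0 1 0 0 0 := ⟨0, by simp [T_zero]⟩
    have h2 : Hd (w ^ k) k 1 0 0 0 := ⟨0, by rw [T_nat]; simp⟩
    rcases (by omega : k = 1 ∨ k = 2 ∨ k = 3 ∨ 4 ≤ k) with rfl | rfl | rfl | h
    · exact ⟨_, by norm_num [Ls], HLc.of_Hd (h1.sub1 h2 (by norm_num)) one_ne_zero⟩
    · exact ⟨_, by norm_num [Ls], HLc.of_Hd (h1.sub2 h2 (by norm_num)) one_ne_zero⟩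
    · exact ⟨_, by norm_num [Ls], HLc.of_Hd (h1.sub3 h2 (by norm_num)) one_ne_zero⟩
    · exact ⟨_, by norm_num [Ls], HLc.of_Hd (h1.sub4 one_ne_zero h2 (by omega)) one_ne_zero⟩
  rcases lt_trichotomy e 0 with h | rfl | h
  · right
    obtain ⟨k, rfl⟩ : ∃ k : ℕ, e = -k := ⟨e.natAbs, by omega⟩
    obtain ⟨l, hl, -, n, a, b, d, hh, rfl⟩ := pos k (by omega)
    refine ⟨-1, _, hl, HLc.of_Hd (((hh.T_mul (-k)).neg).congr rfl rfl rfl rfl rfl)
      (by norm_num) |> fun h => ?_, Or.inl (by norm_num)⟩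
    convert h using 1
    rw [mul_sub, ← T_nat, T_neg_mul]; ring
  · left; rw [T_zero]; ring
  · right
    obtain ⟨k, rfl⟩ : ∃ k : ℕ, e = k := ⟨e.natAbs, by omega⟩
    obtain ⟨l, hl, hh⟩ := pos k (by omega)
    rw [T_nat]
    exact ⟨1, l, hl, hh, Or.inl (by norm_num)⟩

theorem good_nil : Good [] := by
  right
  refine ⟨2, 0, le_rfl, ⟨two_ne_zero, 0, 0, 0, 0, ⟨0, ?_⟩, by norm_num [Ls]⟩, Or.inr ?_⟩
  · rw [S_nil, T_zero]; simp [map_ofNat]
  · rw [S_nil]; simp; norm_num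

theorem good_of {es : List ℤ} {n : ℤ} {c a b d : ℚ} (hc : |c| = 1) (hl : Ls a b d ≤ 0)
    (h : Hd (S es) n c a b d) : Good es :=
  Or.inr ⟨c, _, hl, HLc.of_Hd h (by rintro rfl; simp at hc), Or.inl hc⟩

theorem uw (n : ℕ) : T (-(n : ℤ)) = T (-1) ^ n := by
  induction n with
  | zero => simp [T_zero]
  | succ n ih => rw [pow_succ, ← ih, ← T_add]; congr 1; push_cast; ring

theorem hu : T (-1) * w = 1 := T_neg_mul 1

theorem t2 : T (2 - 1) = w := by norm_num [T_one]

theorem t3 : T (3 - 1) = w ^ 2 := by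
  rw [show (3 : ℤ) - 1 = (2 : ℕ) by norm_num, T_nat]

theorem tm2 : T (-2 - 1) = T (-1) ^ 3 := by rw [show (-2 : ℤ) - 1 = -(3 : ℕ) by norm_num, uw]

theorem tm3 : T (-3 - 1) = T (-1) ^ 4 := by rw [show (-3 : ℤ) - 1 = -(4 : ℕ) by norm_num, uw]

theorem good_p2p2 : Good [2, 2] := by
  refine good_of (n := 0) (c := 1) (a := -2) (b := 2) (d := -2) (by norm_num)
    (by norm_num [Ls]) ⟨1, ?_⟩
  rw [S_two, T_zero, Phi]
  simp only [t2, t3, tm2, tm3, map_neg, map_one, map_ofNat, map_zero, map_add, map_sub, map_mul,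
    map_pow, toL_X]
  have := hu
  grind

theorem good_m2m2 : Good [-2, -2] := by
  refine good_of (n := -4) (c := 1) (a := -2) (b := 2) (d := -2) (by norm_num)
    (by norm_num [Ls]) ⟨1, ?_⟩
  rw [S_two, show (-4 : ℤ) = -(4 : ℕ) by norm_num, uw, Phi]
  simp only [t2, t3, tm2, tm3, map_neg, map_one, map_ofNat, map_zero, map_add, map_sub, map_mul,
    map_pow, toL_X]
  have := hu
  grind

theorem good_p2m2 : Good [2, -2] := by
  refine good_of (n := -3) (c := -1) (a := -1) (b := 1) (d := -2) (by norm_num)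
    (by norm_num [Ls]) ⟨1 - X + X ^ 2, ?_⟩
  rw [S_two, show (-3 : ℤ) = -(3 : ℕ) by norm_num, uw, Phi]
  simp only [t2, t3, tm2, tm3, map_neg, map_one, map_ofNat, map_zero, map_add, map_sub, map_mul,
    map_pow, toL_X]
  have := hu
  grind

theorem good_p2p3 : Good [2, 3] := by
  refine good_of (n := 0) (c := 1) (a := -1) (b := 0) (d := 0) (by norm_num)
    (by norm_num [Ls]) ⟨-1 + X, ?_⟩
  rw [S_two, T_zero, Phi]
  simp only [t2, t3, tm2, tm3, map_neg, map_one, map_ofNat, map_zero, map_add, map_sub, map_mul,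
    map_pow, toL_X]
  have := hu
  grind

theorem good_m2m3 : Good [-2, -3] := by
  refine good_of (n := -5) (c := 1) (a := -1) (b := 0) (d := 0) (by norm_num)
    (by norm_num [Ls]) ⟨-1 + X, ?_⟩
  rw [S_two, show (-5 : ℤ) = -(5 : ℕ) by norm_num, uw, Phi]
  simp only [t2, t3, tm2, tm3, map_neg, map_one, map_ofNat, map_zero, map_add, map_sub, map_mul,
    map_pow, toL_X]
  have := hu
  grind

theorem good_p2m3 : Good [2, -3] := by
  refine good_of (n := -4) (c := -1) (a := -1) (b := 1) (d := -1) (by norm_num)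
    (by norm_num [Ls]) ⟨-1 + X - X ^ 2 + X ^ 3, ?_⟩
  rw [S_two, show (-4 : ℤ) = -(4 : ℕ) by norm_num, uw, Phi]
  simp only [t2, t3, tm2, tm3, map_neg, map_one, map_ofNat, map_zero, map_add, map_sub, map_mul,
    map_pow, toL_X]
  have := hu
  grind

theorem good_m2p3 : Good [-2, 3] := by
  refine good_of (n := -3) (c := -1) (a := -1) (b := 1) (d := -1) (by norm_num)
    (by norm_num [Ls]) ⟨-1 + X - X ^ 2 + X ^ 3, ?_⟩
  rw [S_two, show (-3 : ℤ) = -(3 : ℕ) by norm_num, uw, Phi]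
  simp only [t2, t3, tm2, tm3, map_neg, map_one, map_ofNat, map_zero, map_add, map_sub, map_mul,
    map_pow, toL_X]
  have := hu
  grind

theorem good_p2p2p2 : Good [2, 2, 2] := by
  refine good_of (n := 0) (c := 1) (a := -3) (b := 3) (d := 0) (by norm_num)
    (by norm_num [Ls]) ⟨-3 + 3 * X - X ^ 2, ?_⟩
  rw [S_three, T_zero, Phi]
  simp only [t2, t3, tm2, tm3, map_neg, map_one, map_ofNat, map_zero, map_add, map_sub, map_mul,
    map_pow, toL_X]
  have := hu
  grind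

theorem good_m2m2m2 : Good [-2, -2, -2] := by
  refine good_of (n := -6) (c := -1) (a := -3) (b := 3) (d := 0) (by norm_num)
    (by norm_num [Ls]) ⟨-3 + 3 * X - X ^ 2, ?_⟩
  rw [S_three, show (-6 : ℤ) = -(6 : ℕ) by norm_num, uw, Phi]
  simp only [t2, t3, tm2, tm3, map_neg, map_one, map_ofNat, map_zero, map_add, map_sub, map_mul,
    map_pow, toL_X]
  have := hu
  grind

theorem good_p2p2m2 : Good [2, 2, -2] := by
  refine good_of (n := -3) (c := -1) (a := -1) (b := -1) (d := 1) (by norm_num)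
    (by norm_num [Ls]) ⟨-X + X ^ 2 + X ^ 3 - X ^ 4, ?_⟩
  rw [S_three, show (-3 : ℤ) = -(3 : ℕ) by norm_num, uw, Phi]
  simp only [t2, t3, tm2, tm3, map_neg, map_one, map_ofNat, map_zero, map_add, map_sub, map_mul,
    map_pow, toL_X]
  have := hu
  grind

theorem good_p2m2m2 : Good [2, -2, -2] := by
  refine good_of (n := -5) (c := 1) (a := -1) (b := -1) (d := 1) (by norm_num)
    (by norm_num [Ls]) ⟨-X + X ^ 2 + X ^ 3 - X ^ 4, ?_⟩
  rw [S_three, show (-5 : ℤ) = -(5 : ℕ) by norm_num, uw, Phi]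
  simp only [t2, t3, tm2, tm3, map_neg, map_one, map_ofNat, map_zero, map_add, map_sub, map_mul,
    map_pow, toL_X]
  have := hu
  grind

theorem good_comm (e f : ℤ) (h : Good [e, f]) : Good [f, e] := by
  have h1 : S [f, e] = S [e, f] := by rw [S_two, S_two]; ring
  have h2 : (([f, e] : List ℤ).map P).prod.det = (([e, f] : List ℤ).map P).prod.det := by
    simp only [List.map_cons, List.map_nil, List.prod_cons, List.prod_nil, mul_one, Matrix.det_mul]
    ring
  rw [Good, h1, h2]; exact h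

end Pool.Agent.FB.W8.T2X
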